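import Mathlib

/-!
# Existence of Brownian motion (Lévy–Ciesielski construction)

Main result: `exists_brownianMotion`.
-/

open MeasureTheory ProbabilityTheory Filter Topology Set
open scoped NNReal ENNReal

namespace Pool.Agent.H85.BM

/-- The tent function of height `1/2` supported on `[0,1]`. -/
noncomputable def tent (x : ℝ) : ℝ := max 0 (min x (1 - x))

lemma tent_nonneg (x : ℝ) : 0 ≤ tent x := le_max_left _ _

lemma tent_le_half (x : ℝ) : tent x ≤ 1 / 2 := by
  unfold tent
  refine max_le (by norm_num) ?_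
  rcases le_total x (1 / 2) with h | h
  · exact (min_le_left _ _).trans h
  · exact (min_le_right _ _).trans (by linarith)

lemma tent_of_nonpos {x : ℝ} (h : x ≤ 0) : tent x = 0 := by
  unfold tent
  exact max_eq_left ((min_le_left _ _).trans h)

lemma tent_of_one_le {x : ℝ} (h : 1 ≤ x) : tent x = 0 := by
  unfold tent
  exact max_eq_left ((min_le_right _ _).trans (by linarith))

lemma tent_left {x : ℝ} (h0 : 0 ≤ x) (h : x ≤ 1 / 2) : tent x = x := by
  unfold tent
  rw [min_eq_left (by linarith), max_eq_right h0]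

lemma tent_right {x : ℝ} (h0 : 1 / 2 ≤ x) (h : x ≤ 1) : tent x = 1 - x := by
  unfold tent
  rw [min_eq_right (by linarith), max_eq_right (by linarith)]

lemma continuous_tent : Continuous tent := by
  unfold tent; fun_prop

lemma sum_tent_le (x : ℝ) (K : ℕ) : ∑ k ∈ Finset.range K, tent (x - k) ≤ 1 / 2 := by
  induction K with
  | zero => simp
  | succ K ih =>
    rw [Finset.sum_range_succ]
    rcases le_total x K with h | h
    · rw [tent_of_nonpos (x := x - K) (by linarith)]
      linarith
    · have : ∑ k ∈ Finset.range K, tent (x - k) = 0 := by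
        refine Finset.sum_eq_zero fun k hk => tent_of_one_le ?_
        have h1 : k + 1 ≤ K := by simpa using Nat.succ_le_of_lt (Finset.mem_range.1 hk)
        have h2 : (k : ℝ) + 1 ≤ K := by exact_mod_cast h1
        linarith
      rw [this, zero_add]
      exact tent_le_half _

/-- Level-`n` part of the covariance. -/
noncomputable def tsum2 (n : ℕ) (s t : ℝ) : ℝ :=
  ∑ k ∈ Finset.range (2 ^ n), tent (2 ^ n * s - k) * tent (2 ^ n * t - k)

noncomputable def covN (N : ℕ) (s t : ℝ) : ℝ :=
  ∑ n ∈ Finset.range N, (1 / 2 : ℝ) ^ n * tsum2 n s t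

lemma tsum2_succ (n : ℕ) (s t : ℝ) :
    tsum2 (n + 1) s t = tsum2 n (2 * s) (2 * t) + tsum2 n (2 * s - 1) (2 * t - 1) := by
  unfold tsum2
  have h2 : (2 : ℕ) ^ (n + 1) = 2 ^ n + 2 ^ n := by ring
  rw [h2, Finset.sum_range_add]
  congr 1
  · refine Finset.sum_congr rfl fun k _ => ?_
    congr 2 <;> ring
  · refine Finset.sum_congr rfl fun k _ => ?_
    congr 2 <;> (push_cast; ring)

lemma tsum2_comm (n : ℕ) (s t : ℝ) : tsum2 n s t = tsum2 n t s := by
  unfold tsum2
  exact Finset.sum_congr rfl fun k _ => mul_comm _ _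

lemma tsum2_of_nonpos {n : ℕ} {s : ℝ} (t : ℝ) (hs : s ≤ 0) : tsum2 n s t = 0 := by
  unfold tsum2
  refine Finset.sum_eq_zero fun k _ => ?_
  rw [tent_of_nonpos, zero_mul]
  have : (2 : ℝ) ^ n * s ≤ 0 := mul_nonpos_of_nonneg_of_nonpos (by positivity) hs
  have : (0 : ℝ) ≤ k := by positivity
  linarith

lemma tsum2_of_one_le {n : ℕ} {s : ℝ} (t : ℝ) (hs : 1 ≤ s) : tsum2 n s t = 0 := by
  unfold tsum2
  refine Finset.sum_eq_zero fun k hk => ?_
  rw [tent_of_one_le, zero_mul]
  have h1 : k + 1 ≤ 2 ^ n := by simpa using Nat.succ_le_of_lt (Finset.mem_range.1 hk)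
  have h2 : (k : ℝ) + 1 ≤ 2 ^ n := by exact_mod_cast h1
  have h3 : (2 : ℝ) ^ n * 1 ≤ 2 ^ n * s := by gcongr
  linarith

lemma covN_comm (N : ℕ) (s t : ℝ) : covN N s t = covN N t s := by
  unfold covN
  exact Finset.sum_congr rfl fun k _ => by rw [tsum2_comm]

lemma covN_of_nonpos {N : ℕ} {s : ℝ} (t : ℝ) (hs : s ≤ 0) : covN N s t = 0 := by
  unfold covN
  exact Finset.sum_eq_zero fun k _ => by rw [tsum2_of_nonpos t hs, mul_zero]

lemma covN_of_one_le {N : ℕ} {s : ℝ} (t : ℝ) (hs : 1 ≤ s) : covN N s t = 0 := by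
  unfold covN
  exact Finset.sum_eq_zero fun k _ => by rw [tsum2_of_one_le t hs, mul_zero]

lemma covN_succ (N : ℕ) (s t : ℝ) :
    covN (N + 1) s t = tent s * tent t +
      (1 / 2) * (covN N (2 * s) (2 * t) + covN N (2 * s - 1) (2 * t - 1)) := by
  unfold covN
  rw [Finset.sum_range_succ']
  rw [add_comm]
  congr 1
  · simp [tsum2]
  · rw [← Finset.sum_add_distrib, Finset.mul_sum]
    refine Finset.sum_congr rfl fun k _ => ?_
    rw [tsum2_succ]
    ring

/-- The covariance of the Brownian bridge is recovered with error `2^{-N}`. -/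
lemma abs_covN_sub_le (N : ℕ) : ∀ s t : ℝ, 0 ≤ s → s ≤ t → t ≤ 1 →
    |covN N s t - (s - s * t)| ≤ (1 / 2) ^ N := by
  induction N with
  | zero =>
    intro s t hs hst ht
    simp only [covN, Finset.range_zero, Finset.sum_empty, pow_zero]
    rw [abs_le]
    constructor <;> nlinarith
  | succ N ih =>
    intro s t hs hst ht
    rw [covN_succ]
    rcases le_total t (1 / 2) with h | h
    · -- both in the left half
      rw [tent_left hs (hst.trans h), tent_left (hs.trans hst) h,
        covN_of_nonpos (s := 2 * s - 1) (2 * t - 1) (by linarith), add_zero]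
      have := ih (2 * s) (2 * t) (by linarith) (by linarith) (by linarith)
      have e : s * t + 1 / 2 * covN N (2 * s) (2 * t) - (s - s * t) =
          (1 / 2) * (covN N (2 * s) (2 * t) - (2 * s - 2 * s * (2 * t))) := by ring
      rw [e, abs_mul, pow_succ, mul_comm ((1 / 2 : ℝ) ^ N)]
      rw [abs_of_pos (by norm_num : (0 : ℝ) < 1 / 2)]
      exact mul_le_mul_of_nonneg_left this (by norm_num)
    · rcases le_total s (1 / 2) with h' | h'
      · rw [tent_left hs h', tent_right h ht,
          covN_of_nonpos (s := 2 * s - 1) (2 * t - 1) (by linarith),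
          covN_comm, covN_of_one_le (s := 2 * t) (2 * s) (by linarith)]
        have e : s * (1 - t) + 1 / 2 * ((0 : ℝ) + 0) - (s - s * t) = 0 := by ring
        rw [e, abs_zero]
        positivity
      · rw [tent_right h' (hst.trans ht), tent_right h ht,
          covN_of_one_le (s := 2 * s) (2 * t) (by linarith), zero_add]
        have := ih (2 * s - 1) (2 * t - 1) (by linarith) (by linarith) (by linarith)
        have e : (1 - s) * (1 - t) + 1 / 2 * covN N (2 * s - 1) (2 * t - 1) - (s - s * t) =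
          (1 / 2) * (covN N (2 * s - 1) (2 * t - 1)
            - ((2 * s - 1) - (2 * s - 1) * (2 * t - 1))) := by ring
        rw [e, abs_mul, pow_succ, mul_comm ((1 / 2 : ℝ) ^ N)]
        rw [abs_of_pos (by norm_num : (0 : ℝ) < 1 / 2)]
        exact mul_le_mul_of_nonneg_left this (by norm_num)

lemma tendsto_covN {s t : ℝ} (hs : s ∈ Icc (0 : ℝ) 1) (ht : t ∈ Icc (0 : ℝ) 1) :
    Tendsto (fun N => covN N s t) atTop (𝓝 (min s t - s * t)) := by
  wlog hst : s ≤ t generalizing s t with H
  · have := H ht hs (le_of_not_ge hst)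
    simp_rw [covN_comm _ s t]
    rwa [min_comm, mul_comm]
  rw [min_eq_left hst]
  have h0 : Tendsto (fun N : ℕ => (1 / 2 : ℝ) ^ N) atTop (𝓝 0) :=
    tendsto_pow_atTop_nhds_zero_of_lt_one (by norm_num) (by norm_num)
  rw [tendsto_iff_norm_sub_tendsto_zero]
  refine squeeze_zero (fun _ => norm_nonneg _) (fun N => ?_) h0
  exact abs_covN_sub_le N s t hs.1 hst ht.2

end Pool.Agent.H85.BM
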