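import Mathlib
import Pool.Agent.H85.BMConstruct

open MeasureTheory ProbabilityTheory Filter Topology Set
open scoped NNReal ENNReal

namespace Pool.Agent.H85.BM

section Gauss

variable {Ω : Type*} {mΩ : MeasurableSpace Ω} {P : Measure Ω} {ι : Type*}

/-- A finite linear combination of i.i.d. standard Gaussians is a centred Gaussian. -/
lemma map_linComb (ξ : ι → Ω → ℝ) (hm : ∀ i, Measurable (ξ i))
    (hlaw : ∀ i, HasLaw (ξ i) (gaussianReal 0 1) P) (hind : iIndepFun ξ P)
    [IsProbabilityMeasure P] (a : ι → ℝ) (J : Finset ι) :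
    P.map (fun ω => ∑ i ∈ J, a i * ξ i ω) = gaussianReal 0 (∑ i ∈ J, (a i) ^ 2).toNNReal := by
  classical
  have hind' : iIndepFun (fun i ω => a i * ξ i ω) P :=
    hind.comp (fun i x => a i * x) (fun i => by fun_prop)
  have hm' : ∀ i, Measurable (fun ω => a i * ξ i ω) := fun i => (hm i).const_mul _
  induction J using Finset.induction_on with
  | empty =>
    simp only [Finset.sum_empty, Real.toNNReal_zero, gaussianReal_zero_var]
    rw [Measure.map_const, measure_univ, one_smul]
  | insert i J hi ih =>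
    have h1 : IndepFun (∑ j ∈ J, fun ω => a j * ξ j ω) (fun ω => a i * ξ i ω) P :=
      hind'.indepFun_finsetSum_of_notMem hm' hi
    have e1 : (∑ j ∈ J, fun ω => a j * ξ j ω) = fun ω => ∑ j ∈ J, a j * ξ j ω := by
      ext ω; simp
    rw [e1] at h1
    have h2 := (gaussianReal_const_mul (hlaw i) (a i)).map_eq
    have h3 := gaussianReal_add_gaussianReal_of_indepFun h1 ih h2
    have e2 : (fun ω => ∑ j ∈ insert i J, a j * ξ j ω) =
        (fun ω => ∑ j ∈ J, a j * ξ j ω) + fun ω => a i * ξ i ω := by
      ext ω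
      rw [Finset.sum_insert hi]
      simp [add_comm]
    rw [e2, h3]
    congr 1
    · simp
    · rw [Finset.sum_insert hi, add_comm, Real.toNNReal_add (by positivity) (by positivity)]
      congr 1
      ext
      simp [Real.coe_toNNReal _ (sq_nonneg (a i))]

/-- a.s. limits of centred Gaussians with convergent variances are Gaussian. -/
lemma map_gaussian_of_tendsto [IsProbabilityMeasure P] {Y : ℕ → Ω → ℝ} {Z : Ω → ℝ}
    (hY : ∀ n, Measurable (Y n)) (hZ : Measurable Z) {v : ℕ → ℝ} {w : ℝ}
    (hv : ∀ n, 0 ≤ v n) (hlaw : ∀ n, P.map (Y n) = gaussianReal 0 (v n).toNNReal)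
    (hlim : ∀ᵐ ω ∂P, Tendsto (fun n => Y n ω) atTop (𝓝 (Z ω)))
    (hvw : Tendsto v atTop (𝓝 w)) : P.map Z = gaussianReal 0 w.toNNReal := by
  have hw : 0 ≤ w := ge_of_tendsto' hvw hv
  have : IsProbabilityMeasure (P.map Z) := Measure.isProbabilityMeasure_map hZ.aemeasurable
  refine Measure.ext_of_charFun ?_
  ext t
  rw [charFun_gaussianReal]
  have h1 : Tendsto (fun n => charFun (P.map (Y n)) t) atTop (𝓝 (charFun (P.map Z) t)) := by
    simp_rw [charFun_apply_real]
    rw [integral_map hZ.aemeasurable (by fun_prop)]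
    have : ∀ n, ∫ x, Complex.exp (t * x * Complex.I) ∂(P.map (Y n)) =
        ∫ ω, Complex.exp (t * (Y n ω) * Complex.I) ∂P := fun n =>
      integral_map (hY n).aemeasurable (by fun_prop)
    simp_rw [this]
    refine tendsto_integral_of_dominated_convergence (fun _ => 1) (fun n => ?_)
      (integrable_const _) (fun n => ?_) ?_
    · have := hY n
      fun_prop
    · filter_upwards with ω
      rw [Complex.norm_exp]
      simp
    · filter_upwards [hlim] with ω hω
      have : Continuous fun x : ℝ => Complex.exp (t * x * Complex.I) := by fun_prop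
      exact (this.tendsto _).comp hω
  have h2 : Tendsto (fun n => charFun (P.map (Y n)) t) atTop
      (𝓝 (Complex.exp (t * (0 : ℝ) * Complex.I - (w.toNNReal : ℝ) * t ^ 2 / 2))) := by
    simp_rw [hlaw, charFun_gaussianReal]
    have : Tendsto (fun n => (((v n).toNNReal : ℝ) : ℂ)) atTop (𝓝 ((w.toNNReal : ℝ) : ℂ)) := by
      have hc : Continuous fun x : ℝ => ((x.toNNReal : ℝ) : ℂ) := by fun_prop
      exact (hc.tendsto _).comp hvw
    have hc : Continuous fun z : ℂ => Complex.exp (t * (0 : ℝ) * Complex.I - z * t ^ 2 / 2) := by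
      fun_prop
    exact (hc.tendsto _).comp this
  exact tendsto_nhds_unique h1 h2

end Gauss

end Pool.Agent.H85.BM
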