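import Mathlib
import Pool.Agent.H85.BMConstruct2

open MeasureTheory ProbabilityTheory Filter Topology Set
open scoped NNReal ENNReal

namespace Pool.Agent.H85.BM

section Process

variable {Ω : Type*} {mΩ : MeasurableSpace Ω} {P : Measure Ω}

/-- coefficient `2^{-n/2}`. -/
noncomputable def cf (n : ℕ) : ℝ := (√2)⁻¹ ^ n

lemma cf_nonneg (n : ℕ) : 0 ≤ cf n := by unfold cf; positivity

lemma cf_sq (n : ℕ) : (cf n) ^ 2 = (1 / 2) ^ n := by
  unfold cf
  rw [← pow_mul, mul_comm, pow_mul, inv_pow, Real.sq_sqrt (by norm_num)]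
  norm_num

/-- level-`n` term of the Lévy series -/
noncomputable def lterm (ξ : ℕ × ℕ → Ω → ℝ) (n : ℕ) (t : ℝ) (ω : Ω) : ℝ :=
  ∑ k ∈ Finset.range (2 ^ n), cf n * ξ (n, k) ω * tent (2 ^ n * t - k)

lemma continuous_lterm (ξ : ℕ × ℕ → Ω → ℝ) (n : ℕ) (ω : Ω) :
    Continuous fun t => lterm ξ n t ω := by
  unfold lterm
  refine continuous_finset_sum _ fun k _ => ?_
  exact continuous_const.mul (continuous_tent.comp (by fun_prop))

lemma measurable_lterm {ξ : ℕ × ℕ → Ω → ℝ} (hm : ∀ i, Measurable (ξ i)) (n : ℕ) (t : ℝ) :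
    Measurable (lterm ξ n t) := by
  unfold lterm
  refine Finset.measurable_sum _ fun k _ => ?_
  exact ((hm _).const_mul _).mul_const _

/-- The random variable controlling the size of all the Gaussians. -/
noncomputable def ctrl (ξ : ℕ × ℕ → Ω → ℝ) (ω : Ω) : ℝ≥0∞ :=
  ∑' n : ℕ, ∑ k ∈ Finset.range (2 ^ n), ENNReal.ofReal ((1 / 4) ^ n * (ξ (n, k) ω) ^ 8)

lemma measurable_ctrl {ξ : ℕ × ℕ → Ω → ℝ} (hm : ∀ i, Measurable (ξ i)) :
    Measurable (ctrl ξ) := by
  unfold ctrl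
  refine Measurable.ennreal_tsum fun n => Finset.measurable_sum _ fun k _ => ?_
  exact ENNReal.measurable_ofReal.comp (((hm _).pow_const 8).const_mul _)

lemma lintegral_pow_eight_lt_top :
    ∫⁻ x, ENNReal.ofReal (x ^ 8) ∂(gaussianReal 0 1) < ∞ := by
  have h := memLp_id_gaussianReal (μ := 0) (v := 1) 8
  have h2 := h.integrable_norm_pow (by norm_num)
  have h3 : Integrable (fun x : ℝ => x ^ 8) (gaussianReal 0 1) := by
    refine h2.congr (ae_of_all _ fun x => ?_)
    simp only [id, Real.norm_eq_abs]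
    norm_num
    exact Even.pow_abs (by decide) x
  have h4 := h3.lintegral_lt_top
  exact h4

lemma ctrl_lt_top {ξ : ℕ × ℕ → Ω → ℝ} (hm : ∀ i, Measurable (ξ i))
    (hlaw : ∀ i, HasLaw (ξ i) (gaussianReal 0 1) P) : ∀ᵐ ω ∂P, ctrl ξ ω < ∞ := by
  refine ae_lt_top (measurable_ctrl hm) ?_
  unfold ctrl
  rw [lintegral_tsum]
  · set c := ∫⁻ x, ENNReal.ofReal (x ^ 8) ∂(gaussianReal 0 1) with hc
    have hc' : c ≠ ∞ := lintegral_pow_eight_lt_top.ne
    have : ∀ n : ℕ, ∫⁻ ω, ∑ k ∈ Finset.range (2 ^ n),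
        ENNReal.ofReal ((1 / 4) ^ n * (ξ (n, k) ω) ^ 8) ∂P = (2⁻¹ : ℝ≥0∞) ^ n * c := by
      intro n
      rw [lintegral_finset_sum]
      · have : ∀ k ∈ Finset.range (2 ^ n),
            ∫⁻ ω, ENNReal.ofReal ((1 / 4) ^ n * (ξ (n, k) ω) ^ 8) ∂P
              = ENNReal.ofReal ((1 / 4) ^ n) * c := by
          intro k _
          simp_rw [ENNReal.ofReal_mul (show (0 : ℝ) ≤ (1 / 4) ^ n by positivity)]
          rw [lintegral_const_mul _ (by have := hm (n, k); fun_prop)]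
          congr 1
          rw [hc, ← (hlaw (n, k)).map_eq, lintegral_map (by fun_prop) (hm _)]
        rw [Finset.sum_congr rfl this, Finset.sum_const, Finset.card_range, nsmul_eq_mul,
          ← mul_assoc]
        congr 1
        rw [ENNReal.ofReal_pow (by norm_num)]
        have h4 : ENNReal.ofReal (1 / 4) = 2⁻¹ * 2⁻¹ := by
          rw [show (1 / 4 : ℝ) = 2⁻¹ * 2⁻¹ by norm_num, ENNReal.ofReal_mul (by norm_num),
            ENNReal.ofReal_inv_of_pos (by norm_num)]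
          simp
        rw [h4, mul_pow, ← mul_assoc]
        push_cast
        rw [← mul_pow, ENNReal.mul_inv_cancel (by norm_num) (by norm_num), one_pow, one_mul]
      · intro k _
        have := hm (n, k)
        fun_prop
    simp_rw [this]
    rw [ENNReal.tsum_mul_right, ENNReal.tsum_geometric]
    refine ENNReal.mul_ne_top ?_ hc'
    simp
  · intro n
    refine (Finset.measurable_sum _ fun k _ => ?_).aemeasurable
    exact ENNReal.measurable_ofReal.comp (((hm _).pow_const 8).const_mul _)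

lemma abs_coef_le {ξ : ℕ × ℕ → Ω → ℝ} {ω : Ω} (hω : ctrl ξ ω < ∞) (n k : ℕ) (hk : k < 2 ^ n) :
    |cf n * ξ (n, k) ω| ≤ ((ctrl ξ ω).toReal + 1) * (9 / 10) ^ n := by
  set z := (ctrl ξ ω).toReal with hz
  have hz0 : 0 ≤ z := ENNReal.toReal_nonneg
  have h1 : (1 / 4) ^ n * (ξ (n, k) ω) ^ 8 ≤ z := by
    have h2 : ENNReal.ofReal ((1 / 4) ^ n * (ξ (n, k) ω) ^ 8) ≤ ctrl ξ ω := by
      refine le_trans ?_ (ENNReal.le_tsum n)
      exact Finset.single_le_sum
        (f := fun k => ENNReal.ofReal ((1 / 4) ^ n * (ξ (n, k) ω) ^ 8))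
        (fun _ _ => zero_le) (Finset.mem_range.2 hk)
    rw [hz]
    exact (ENNReal.ofReal_le_iff_le_toReal hω.ne).1 h2
  have h8 : |cf n * ξ (n, k) ω| ^ 8 ≤ ((z + 1) * (9 / 10) ^ n) ^ 8 := by
    rw [Even.pow_abs (by decide)]
    have e1 : (cf n * ξ (n, k) ω) ^ 8 = (1 / 4) ^ n * ((1 / 4) ^ n * (ξ (n, k) ω) ^ 8) := by
      rw [mul_pow]
      have : cf n ^ 8 = (1 / 4) ^ n * (1 / 4) ^ n := by
        have : cf n ^ 8 = ((cf n) ^ 2) ^ 4 := by ring
        rw [this, cf_sq, ← pow_mul, ← mul_pow]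
        rw [show ((1 / 4 : ℝ) * (1 / 4)) = (1 / 2) ^ 4 by norm_num, ← pow_mul, mul_comm]
      rw [this]; ring
    rw [e1, mul_pow]
    have e2 : ((9 / 10 : ℝ) ^ n) ^ 8 = ((9 / 10) ^ 8) ^ n := by
      rw [← pow_mul, ← pow_mul, mul_comm]
    rw [e2]
    have h3 : z ≤ (z + 1) ^ 8 := by
      have : (z + 1) ^ 1 ≤ (z + 1) ^ 8 := pow_le_pow_right₀ (by linarith) (by norm_num)
      linarith
    calc (1 / 4 : ℝ) ^ n * ((1 / 4) ^ n * (ξ (n, k) ω) ^ 8) ≤ (1 / 4 : ℝ) ^ n * z := by gcongr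
      _ ≤ ((9 / 10) ^ 8) ^ n * (z + 1) ^ 8 := by
        gcongr
        norm_num
      _ = _ := mul_comm _ _
  exact le_of_pow_le_pow_left₀ (by norm_num) (by positivity) h8

lemma abs_lterm_le {ξ : ℕ × ℕ → Ω → ℝ} {ω : Ω} (hω : ctrl ξ ω < ∞) (n : ℕ) (t : ℝ) :
    |lterm ξ n t ω| ≤ ((ctrl ξ ω).toReal + 1) * (9 / 10) ^ n := by
  set w := ((ctrl ξ ω).toReal + 1) * (9 / 10) ^ n with hw
  have hw0 : 0 ≤ w := by positivity
  unfold lterm
  calc |∑ k ∈ Finset.range (2 ^ n), cf n * ξ (n, k) ω * tent (2 ^ n * t - k)|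
      ≤ ∑ k ∈ Finset.range (2 ^ n), |cf n * ξ (n, k) ω * tent (2 ^ n * t - k)| :=
        Finset.abs_sum_le_sum_abs _ _
    _ ≤ ∑ k ∈ Finset.range (2 ^ n), w * tent (2 ^ n * t - k) := by
        refine Finset.sum_le_sum fun k hk => ?_
        rw [abs_mul, abs_of_nonneg (tent_nonneg _)]
        exact mul_le_mul_of_nonneg_right (abs_coef_le hω n k (Finset.mem_range.1 hk))
          (tent_nonneg _)
    _ = w * ∑ k ∈ Finset.range (2 ^ n), tent (2 ^ n * t - k) := by rw [Finset.mul_sum]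
    _ ≤ w * (1 / 2) := by gcongr; exact sum_tent_le _ _
    _ ≤ w := by linarith

lemma summable_bound (w : ℝ) : Summable fun n : ℕ => w * (9 / 10 : ℝ) ^ n :=
  (summable_geometric_of_lt_one (by norm_num) (by norm_num)).mul_left _

open Classical in
/-- The Brownian bridge, with value `0` on the exceptional null set. -/
noncomputable def bridge (ξ : ℕ × ℕ → Ω → ℝ) (t : ℝ) (ω : Ω) : ℝ :=
  if ctrl ξ ω < ∞ then ∑' n, lterm ξ n t ω else 0

lemma continuous_bridge (ξ : ℕ × ℕ → Ω → ℝ) (ω : Ω) : Continuous fun t => bridge ξ t ω := by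
  unfold bridge
  by_cases h : ctrl ξ ω < ∞
  · simp only [h, if_true]
    exact continuous_tsum (fun n => continuous_lterm ξ n ω) (summable_bound _)
      (fun n t => abs_lterm_le h n t)
  · simp only [h, if_false]
    exact continuous_const

lemma tendsto_bridge {ξ : ℕ × ℕ → Ω → ℝ} {ω : Ω} (h : ctrl ξ ω < ∞) (t : ℝ) :
    Tendsto (fun N => ∑ n ∈ Finset.range N, lterm ξ n t ω) atTop (𝓝 (bridge ξ t ω)) := by
  unfold bridge
  simp only [h, if_true]
  refine (Summable.of_norm_bounded (summable_bound ((ctrl ξ ω).toReal + 1))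
    (fun n => ?_)).hasSum.tendsto_sum_nat
  exact abs_lterm_le h n t

lemma measurable_bridge {ξ : ℕ × ℕ → Ω → ℝ} (hm : ∀ i, Measurable (ξ i)) (t : ℝ) :
    Measurable (bridge ξ t) := by
  classical
  have hG : MeasurableSet {ω | ctrl ξ ω < ∞} := measurableSet_lt (measurable_ctrl hm)
    measurable_const
  refine measurable_of_tendsto_metrizable
    (f := fun N => {ω | ctrl ξ ω < ∞}.indicator
      (fun ω => ∑ n ∈ Finset.range N, lterm ξ n t ω)) (fun N => ?_) ?_
  · exact (Finset.measurable_sum _ fun n _ => measurable_lterm hm n t).indicator hG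
  · rw [tendsto_pi_nhds]
    intro ω
    by_cases h : ctrl ξ ω < ∞
    · simp only [Set.indicator, mem_setOf_eq, h, if_true]
      exact tendsto_bridge h t
    · simp only [Set.indicator, mem_setOf_eq, h, if_false, bridge]
      exact tendsto_const_nhds

lemma bridge_zero (ξ : ℕ × ℕ → Ω → ℝ) (ω : Ω) : bridge ξ 0 ω = 0 := by
  unfold bridge
  have : ∀ n, lterm ξ n 0 ω = 0 := by
    intro n
    unfold lterm
    refine Finset.sum_eq_zero fun k _ => ?_
    rw [tent_of_nonpos, mul_zero]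
    simp
  simp [this]

lemma bridge_one (ξ : ℕ × ℕ → Ω → ℝ) (ω : Ω) : bridge ξ 1 ω = 0 := by
  unfold bridge
  have : ∀ n, lterm ξ n 1 ω = 0 := by
    intro n
    unfold lterm
    refine Finset.sum_eq_zero fun k hk => ?_
    rw [tent_of_one_le, mul_zero]
    have h1 : k + 1 ≤ 2 ^ n := by simpa using Nat.succ_le_of_lt (Finset.mem_range.1 hk)
    have h2 : (k : ℝ) + 1 ≤ 2 ^ n := by exact_mod_cast h1
    linarith
  simp [this]

/-- Law of finite linear combinations of the bridge. -/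
lemma map_bridge_linComb [IsProbabilityMeasure P] {ξ : ℕ × ℕ → Ω → ℝ}
    (hm : ∀ i, Measurable (ξ i))
    (hlaw : ∀ i, HasLaw (ξ i) (gaussianReal 0 1) P) (hind : iIndepFun ξ P)
    {κ : Type*} (I : Finset κ) (c τ : κ → ℝ) (hτ : ∀ i, τ i ∈ Icc (0 : ℝ) 1) :
    P.map (fun ω => ∑ i ∈ I, c i * bridge ξ (τ i) ω) =
      gaussianReal 0
        (∑ i ∈ I, ∑ j ∈ I, c i * c j * (min (τ i) (τ j) - τ i * τ j)).toNNReal := by
  classical
  -- index set of the partial sums
  let J : ℕ → Finset (ℕ × ℕ) := fun N =>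
    (Finset.range N).biUnion fun n => (Finset.range (2 ^ n)).image fun k => (n, k)
  let a : ℕ × ℕ → ℝ := fun p => ∑ i ∈ I, c i * (cf p.1 * tent (2 ^ p.1 * τ i - p.2))
  have hJ : ∀ (N : ℕ) (F : ℕ × ℕ → ℝ), ∑ p ∈ J N, F p =
      ∑ n ∈ Finset.range N, ∑ k ∈ Finset.range (2 ^ n), F (n, k) := by
    intro N F
    rw [Finset.sum_biUnion]
    · refine Finset.sum_congr rfl fun n _ => ?_
      rw [Finset.sum_image]
      intro k _ k' _ h
      simpa using h
    · intro n _ n' _ hnn'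
      rw [Function.onFun, Finset.disjoint_left]
      intro p hp hp'
      simp only [Finset.mem_image, Finset.mem_range] at hp hp'
      obtain ⟨k, -, rfl⟩ := hp
      obtain ⟨k', -, h⟩ := hp'
      simp at h
      exact hnn' h.1.symm
  have hS : ∀ (N : ℕ) (ω : Ω), ∑ p ∈ J N, a p * ξ p ω =
      ∑ i ∈ I, c i * ∑ n ∈ Finset.range N, lterm ξ n (τ i) ω := by
    intro N ω
    rw [hJ]
    simp only [a, lterm, Finset.sum_mul, Finset.mul_sum]
    have h1 : ∀ n ∈ Finset.range N, ∑ k ∈ Finset.range (2 ^ n), ∑ i ∈ I,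
        c i * (cf n * tent (2 ^ n * τ i - k)) * ξ (n, k) ω =
        ∑ i ∈ I, ∑ k ∈ Finset.range (2 ^ n),
        c i * (cf n * tent (2 ^ n * τ i - k)) * ξ (n, k) ω := by
      intro n _
      exact Finset.sum_comm
    rw [Finset.sum_congr rfl h1, Finset.sum_comm]
    refine Finset.sum_congr rfl fun i _ => Finset.sum_congr rfl fun n _ =>
      Finset.sum_congr rfl fun k _ => ?_
    ring
  have hV : ∀ N : ℕ, ∑ p ∈ J N, (a p) ^ 2 =
      ∑ i ∈ I, ∑ j ∈ I, c i * c j * covN N (τ i) (τ j) := by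
    intro N
    rw [hJ]
    simp only [a, sq, Finset.sum_mul, Finset.mul_sum]
    simp only [covN, tsum2, Finset.mul_sum]
    have h1 : ∀ n ∈ Finset.range N, ∑ k ∈ Finset.range (2 ^ n), ∑ i ∈ I, ∑ j ∈ I,
        c i * (cf n * tent (2 ^ n * τ i - k)) * (c j * (cf n * tent (2 ^ n * τ j - k))) =
        ∑ i ∈ I, ∑ j ∈ I, ∑ k ∈ Finset.range (2 ^ n),
        c i * (cf n * tent (2 ^ n * τ i - k)) * (c j * (cf n * tent (2 ^ n * τ j - k))) := by
      intro n _
      rw [Finset.sum_comm]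
      refine Finset.sum_congr rfl fun i _ => ?_
      rw [Finset.sum_comm]
    rw [show (∑ n ∈ Finset.range N, ∑ k ∈ Finset.range (2 ^ n), ∑ i ∈ I, ∑ j ∈ I,
        c j * (cf n * tent (2 ^ n * τ j - k)) * (c i * (cf n * tent (2 ^ n * τ i - k)))) =
        ∑ n ∈ Finset.range N, ∑ i ∈ I, ∑ j ∈ I, ∑ k ∈ Finset.range (2 ^ n),
        c i * (cf n * tent (2 ^ n * τ i - k)) * (c j * (cf n * tent (2 ^ n * τ j - k))) from ?_]
    · rw [Finset.sum_comm]
      refine Finset.sum_congr rfl fun i _ => ?_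
      rw [Finset.sum_comm]
      refine Finset.sum_congr rfl fun j _ => Finset.sum_congr rfl fun n _ =>
        Finset.sum_congr rfl fun k _ => ?_
      have := cf_sq n
      rw [← this]
      ring
    · refine Finset.sum_congr rfl fun n hn => ?_
      rw [← h1 n hn]
      refine Finset.sum_congr rfl fun k _ => Finset.sum_congr rfl fun i _ =>
        Finset.sum_congr rfl fun j _ => ?_
      ring
  refine map_gaussian_of_tendsto (Y := fun N ω => ∑ p ∈ J N, a p * ξ p ω)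
    (v := fun N => ∑ p ∈ J N, (a p) ^ 2) (fun N => ?_) ?_ (fun N => ?_) (fun N => ?_) ?_ ?_
  · exact Finset.measurable_sum _ fun p _ => (hm p).const_mul _
  · exact Finset.measurable_sum _ fun i _ => (measurable_bridge hm _).const_mul _
  · positivity
  · exact map_linComb ξ hm hlaw hind a (J N)
  · filter_upwards [ctrl_lt_top hm hlaw] with ω hω
    simp_rw [hS]
    exact tendsto_finset_sum _ fun i _ => (tendsto_bridge hω _).const_mul _
  · simp_rw [hV]
    exact tendsto_finset_sum _ fun i _ => tendsto_finset_sum _ fun j _ =>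
      (tendsto_covN (hτ i) (hτ j)).const_mul _

end Process

end Pool.Agent.H85.BM
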