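import Mathlib

/-!
# Optional stopping for an `L²` continuous martingale vanishing on a level set

`glue`: if `h` is a continuous `L²` martingale on `[s,∞)` and `Y` an adapted continuous process
such that `h` vanishes whenever `Y` vanishes, then, for `A` in the past of `s`,
`∫_{A ∩ {∃ v ∈ [s,u], Y v > 0}} h u = ∫_{A ∩ {Y s > 0}} h s`.
-/

open MeasureTheory ProbabilityTheory Filter Topology Set
open scoped NNReal ENNReal

namespace Pool.Agent.H85.BM

variable {Ω : Type*} {mΩ : MeasurableSpace Ω} {P : Measure Ω}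

/-- `h` is a square integrable martingale on `[s, ∞)` with respect to the family `m`. -/
structure MartOn (m : ℝ≥0 → MeasurableSpace Ω) (P : Measure Ω) (s : ℝ≥0)
    (h : ℝ≥0 → Ω → ℝ) : Prop where
  meas : ∀ t, s ≤ t → Measurable[m t] (h t)
  L2 : ∀ t, s ≤ t → MemLp (h t) 2 P
  mart : ∀ t u, s ≤ t → t ≤ u → P[h u | m t] =ᵐ[P] h t

/-- partition points -/
noncomputable def pt (s u : ℝ≥0) (n k : ℕ) : ℝ≥0 := s + (u - s) * (k / (n + 1))

lemma pt_zero (s u : ℝ≥0) (n : ℕ) : pt s u n 0 = s := by simp [pt]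

lemma pt_last {s u : ℝ≥0} (h : s ≤ u) (n : ℕ) : pt s u n (n + 1) = u := by
  unfold pt
  have : (((n + 1 : ℕ) : ℝ≥0) / ((n : ℝ≥0) + 1)) = 1 := by
    push_cast
    exact div_self (by positivity)
  rw [this, mul_one, add_tsub_cancel_of_le h]

lemma pt_mono (s u : ℝ≥0) (n : ℕ) : Monotone (pt s u n) := by
  intro k l hkl
  unfold pt
  gcongr

lemma le_pt (s u : ℝ≥0) (n k : ℕ) : s ≤ pt s u n k := by
  unfold pt; exact le_self_add

lemma pt_le {s u : ℝ≥0} (h : s ≤ u) {n k : ℕ} (hk : k ≤ n + 1) : pt s u n k ≤ u :=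
  (pt_mono s u n hk).trans_eq (pt_last h n)

/-- times up to `k` at which `Y > 0` is seen on the grid -/
def Dk (Y : ℝ≥0 → Ω → ℝ) (s u : ℝ≥0) (n k : ℕ) : Set Ω :=
  {ω | ∃ j ≤ k, 0 < Y (pt s u n j) ω}

lemma Dk_mono (Y : ℝ≥0 → Ω → ℝ) (s u : ℝ≥0) (n : ℕ) : Monotone (Dk Y s u n) := by
  rintro k l hkl ω ⟨j, hj, h⟩
  exact ⟨j, hj.trans hkl, h⟩

lemma measurableSet_Dk {m : ℝ≥0 → MeasurableSpace Ω} (hmono : Monotone m)
    {Y : ℝ≥0 → Ω → ℝ} {s : ℝ≥0} (hY : ∀ t, s ≤ t → Measurable[m t] (Y t)) (u : ℝ≥0) (n k : ℕ) :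
    MeasurableSet[m (pt s u n k)] (Dk Y s u n k) := by
  have : Dk Y s u n k = ⋃ j ∈ Set.Iic k, {ω | 0 < Y (pt s u n j) ω} := by
    ext ω; simp [Dk]
  rw [this]
  refine MeasurableSet.biUnion (Set.to_countable _) fun j hj => ?_
  refine hmono (pt_mono s u n hj) _ ?_
  exact hY _ (le_pt s u n j) measurableSet_Ioi

/-- the event that `Y` gets positive on `[s,u]` -/
def Dset (Y : ℝ≥0 → Ω → ℝ) (s u : ℝ≥0) : Set Ω := {ω | ∃ v, s ≤ v ∧ v ≤ u ∧ 0 < Y v ω}

lemma Dk_subset_Dset {Y : ℝ≥0 → Ω → ℝ} {s u : ℝ≥0} (h : s ≤ u) {n k : ℕ} (hk : k ≤ n + 1) :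
    Dk Y s u n k ⊆ Dset Y s u := by
  rintro ω ⟨j, hj, hω⟩
  exact ⟨_, le_pt s u n j, pt_le h (hj.trans hk), hω⟩

/-- approximating a time by grid points -/
lemma exists_pt_near {s u v : ℝ≥0} (hsv : s ≤ v) (hvu : v ≤ u) (n : ℕ) :
    ∃ k ≤ n + 1, pt s u n k ≤ v ∧ (v : ℝ) - pt s u n k ≤ (u - s) / (n + 1) := by
  rcases eq_or_lt_of_le (hsv.trans hvu) with h | h
  · refine ⟨0, by omega, by rw [pt_zero]; exact hsv, ?_⟩
    have : v = s := le_antisymm (h ▸ hvu) hsv
    rw [pt_zero, this, ← h]; simp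
  · have hpos : (0 : ℝ) < u - s := by
      have : (s : ℝ) < u := h
      linarith
    set x : ℝ := ((v : ℝ) - s) / (u - s) * (n + 1) with hx
    have hvs : (0 : ℝ) ≤ v - s := sub_nonneg.2 hsv
    have hx0 : 0 ≤ x := by positivity
    have hxn : x ≤ n + 1 := by
      have : ((v : ℝ) - s) / (u - s) ≤ 1 := by
        rw [div_le_one hpos]
        have : (v : ℝ) ≤ u := hvu
        linarith
      calc x ≤ 1 * (n + 1) := by rw [hx]; gcongr
        _ = n + 1 := one_mul _
    refine ⟨⌊x⌋₊, ?_, ?_, ?_⟩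
    · exact_mod_cast (Nat.floor_le hx0).trans hxn
    · rw [← NNReal.coe_le_coe]
      unfold pt
      push_cast [NNReal.coe_sub h.le]
      have h1 : (⌊x⌋₊ : ℝ) ≤ x := Nat.floor_le hx0
      have h2 : ((u : ℝ) - s) * (⌊x⌋₊ / (n + 1)) ≤ ((u : ℝ) - s) * (x / (n + 1)) := by gcongr
      have h3 : ((u : ℝ) - s) * (x / (n + 1)) = v - s := by
        rw [hx]; field_simp
      linarith
    · unfold pt
      push_cast [NNReal.coe_sub h.le]
      have h1 : x < ⌊x⌋₊ + 1 := Nat.lt_floor_add_one x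
      have h3 : ((u : ℝ) - s) * (x / (n + 1)) = v - s := by
        rw [hx]; field_simp
      have h2 : ((u : ℝ) - s) * (x / (n + 1)) ≤ ((u : ℝ) - s) * ((⌊x⌋₊ + 1) / (n + 1)) := by
        gcongr
      have h4 : ((u : ℝ) - s) * ((⌊x⌋₊ + 1) / (n + 1)) =
        ((u : ℝ) - s) * (⌊x⌋₊ / (n + 1)) + (u - s) / (n + 1) := by ring
      linarith

lemma eventually_mem_Dk {Y : ℝ≥0 → Ω → ℝ} {s u : ℝ≥0} {ω : Ω}
    (hc : Continuous fun t => Y t ω) (hω : ω ∈ Dset Y s u) :
    ∀ᶠ n : ℕ in atTop, ω ∈ Dk Y s u n (n + 1) := by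
  obtain ⟨v, hsv, hvu, hv⟩ := hω
  have h1 : ∀ᶠ t in 𝓝 v, 0 < Y t ω := hc.continuousAt.eventually (lt_mem_nhds hv)
  obtain ⟨ε, hε, hball⟩ := Metric.eventually_nhds_iff.1 h1
  have h2 : Tendsto (fun n : ℕ => ((u : ℝ) - s) / (n + 1)) atTop (𝓝 0) := by
    have h3 := (tendsto_const_div_atTop_nhds_zero_nat ((u : ℝ) - s)).comp
      (tendsto_add_atTop_nat 1)
    refine h3.congr fun n => ?_
    simp
  filter_upwards [h2.eventually (gt_mem_nhds hε)] with n hn
  obtain ⟨k, hk, hkv, hd⟩ := exists_pt_near hsv hvu n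
  refine ⟨k, hk, hball ?_⟩
  have hkv' : (pt s u n k : ℝ) ≤ v := hkv
  rw [NNReal.dist_eq, abs_sub_comm, abs_of_nonneg (sub_nonneg.2 hkv')]
  linarith

lemma Dset_eq_iUnion {Y : ℝ≥0 → Ω → ℝ} {s u : ℝ≥0} (h : s ≤ u)
    (hc : ∀ ω, Continuous fun t => Y t ω) :
    Dset Y s u = ⋃ n : ℕ, Dk Y s u n (n + 1) := by
  ext ω
  rw [mem_iUnion]
  constructor
  · intro hω
    exact (eventually_mem_Dk (hc ω) hω).exists
  · rintro ⟨n, hn⟩
    exact Dk_subset_Dset h le_rfl hn

lemma measurableSet_Dset {m : ℝ≥0 → MeasurableSpace Ω} (hmono : Monotone m)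
    {Y : ℝ≥0 → Ω → ℝ} {s u : ℝ≥0} (h : s ≤ u)
    (hY : ∀ t, s ≤ t → Measurable[m t] (Y t)) (hc : ∀ ω, Continuous fun t => Y t ω) :
    MeasurableSet[m u] (Dset Y s u) := by
  rw [Dset_eq_iUnion h hc]
  refine MeasurableSet.iUnion fun n => ?_
  have := measurableSet_Dk hmono hY u n (n + 1)
  rwa [pt_last h] at this

/-- square of an `L²` martingale is a submartingale -/
lemma MartOn.sq_le [IsProbabilityMeasure P] {m : ℝ≥0 → MeasurableSpace Ω}
    (hm : ∀ t, m t ≤ mΩ) {s : ℝ≥0} {h : ℝ≥0 → Ω → ℝ} (H : MartOn m P s h) {t u : ℝ≥0}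
    (hst : s ≤ t) (htu : t ≤ u) {E : Set Ω} (hE : MeasurableSet[m t] E) :
    ∫ ω in E, (h t ω) ^ 2 ∂P ≤ ∫ ω in E, (h u ω) ^ 2 ∂P := by
  have hLt := H.L2 t hst
  have hLu := H.L2 u (hst.trans htu)
  have hit : Integrable (fun ω => (h t ω) ^ 2) P := hLt.integrable_sq
  have hiu : Integrable (fun ω => (h u ω) ^ 2) P := hLu.integrable_sq
  have hprod : Integrable (h t * h u) P := hLt.integrable_mul hLu
  have hsm : StronglyMeasurable[m t] (h t) := (H.meas t hst).stronglyMeasurable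
  have h1 : ∫ ω in E, (h t * h u) ω ∂P = ∫ ω in E, (h t ω) ^ 2 ∂P := by
    have e1 := setIntegral_condExp (hm t) hprod hE
    rw [← e1]
    refine setIntegral_congr_ae (hm t _ hE) ?_
    have e2 := condExp_mul_of_stronglyMeasurable_left hsm hprod
      (hLu.integrable (by norm_num))
    filter_upwards [e2, H.mart t u hst htu] with ω h1 h2 _
    rw [h1, Pi.mul_apply, h2, sq]
  have h2 : ∫ ω in E, (h t * h u) ω ∂P ≤
      ∫ ω in E, ((1 / 2) * (h t ω) ^ 2 + (1 / 2) * (h u ω) ^ 2) ∂P := by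
    refine integral_mono hprod.restrict
      ((hit.restrict.const_mul _).add (hiu.restrict.const_mul _)) fun ω => ?_
    simp only [Pi.mul_apply]
    nlinarith [sq_nonneg (h t ω - h u ω)]
  rw [integral_add (hit.restrict.const_mul _) (hiu.restrict.const_mul _),
    integral_const_mul, integral_const_mul] at h2
  linarith

lemma MartOn.setIntegral_eq [IsProbabilityMeasure P] {m : ℝ≥0 → MeasurableSpace Ω}
    (hm : ∀ t, m t ≤ mΩ) {s : ℝ≥0} {h : ℝ≥0 → Ω → ℝ} (H : MartOn m P s h) {t u : ℝ≥0}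
    (hst : s ≤ t) (htu : t ≤ u) {E : Set Ω} (hE : MeasurableSet[m t] E) :
    ∫ ω in E, h u ω ∂P = ∫ ω in E, h t ω ∂P := by
  rw [← setIntegral_condExp (hm t) ((H.L2 u (hst.trans htu)).integrable (by norm_num)) hE]
  refine setIntegral_congr_ae (hm t _ hE) ?_
  filter_upwards [H.mart t u hst htu] with ω h2 _ using h2

/-- pointwise convergence to `0` and an `L²` bound give `L¹` convergence to `0` -/
lemma tendsto_integral_abs_of_sq_bound [IsProbabilityMeasure P] {R : ℕ → Ω → ℝ} {C : ℝ}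
    (hm : ∀ n, AEStronglyMeasurable (R n) P) (hi : ∀ n, Integrable (fun ω => (R n ω) ^ 2) P)
    (hC : ∀ n, ∫ ω, (R n ω) ^ 2 ∂P ≤ C) (hlim : ∀ ω, Tendsto (fun n => R n ω) atTop (𝓝 0)) :
    Tendsto (fun n => ∫ ω, |R n ω| ∂P) atTop (𝓝 0) := by
  have hC0 : 0 ≤ C := (integral_nonneg fun ω => sq_nonneg _).trans (hC 0)
  rw [Metric.tendsto_atTop]
  intro ε hε
  set M : ℝ := 2 * C / ε + 1 with hM
  have hM0 : 0 < M := by positivity
  have h1 : Tendsto (fun n => ∫ ω, min |R n ω| M ∂P) atTop (𝓝 0) := by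
    have : (0 : ℝ) = ∫ _ω, (0 : ℝ) ∂P := by simp
    rw [this]
    refine tendsto_integral_of_dominated_convergence (fun _ => M) (fun n => ?_)
      (integrable_const _) (fun n => ae_of_all _ fun ω => ?_) (ae_of_all _ fun ω => ?_)
    · exact ((hm n).norm).inf aestronglyMeasurable_const
    · rw [Real.norm_eq_abs, abs_of_nonneg (le_min (abs_nonneg _) hM0.le)]
      exact min_le_right _ _
    · have h2 : Tendsto (fun n => |R n ω|) atTop (𝓝 0) := by
        simpa using (hlim ω).abs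
      have h3 : Tendsto (fun n => min |R n ω| M) atTop (𝓝 (min 0 M)) := h2.min tendsto_const_nhds
      rwa [min_eq_left hM0.le] at h3
  obtain ⟨N, hN⟩ := Metric.tendsto_atTop.1 h1 (ε / 2) (by positivity)
  refine ⟨N, fun n hn => ?_⟩
  have h2 := hN n hn
  rw [Real.dist_eq, sub_zero] at h2 ⊢
  have h3 : ∫ ω, |R n ω| ∂P ≤ ∫ ω, (min |R n ω| M + (R n ω) ^ 2 / M) ∂P := by
    refine integral_mono_of_nonneg (ae_of_all _ fun _ => abs_nonneg _) ?_
      (ae_of_all _ fun ω => ?_)
    · refine Integrable.add ?_ ((hi n).div_const _)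
      refine Integrable.mono' (integrable_const M) (((hm n).norm).inf aestronglyMeasurable_const)
        (ae_of_all _ fun ω => ?_)
      rw [Real.norm_eq_abs]
      rw [abs_of_nonneg (le_min (abs_nonneg _) hM0.le)]
      exact min_le_right _ _
    · simp only
      rcases le_total |R n ω| M with h | h
      · rw [min_eq_left h]
        have : 0 ≤ (R n ω) ^ 2 / M := by positivity
        linarith
      · rw [min_eq_right h]
        have : |R n ω| ≤ (R n ω) ^ 2 / M := by
          rw [le_div_iff₀ hM0, ← sq_abs]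
          nlinarith [abs_nonneg (R n ω)]
        linarith
  rw [integral_add, integral_div] at h3
  · have h4 : (∫ ω, (R n ω) ^ 2 ∂P) / M < ε / 2 := by
      rw [div_lt_iff₀ hM0]
      have : ε / 2 * M = C + ε / 2 := by rw [hM]; field_simp
      rw [this]
      linarith [hC n]
    have h5 := le_abs_self (∫ ω, min |R n ω| M ∂P)
    rw [abs_of_nonneg (integral_nonneg fun ω => abs_nonneg _)]
    linarith
  · refine Integrable.mono' (integrable_const M) (((hm n).norm).inf aestronglyMeasurable_const)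
        (ae_of_all _ fun ω => ?_)
    rw [Real.norm_eq_abs]
    rw [abs_of_nonneg (le_min (abs_nonneg _) hM0.le)]
    exact min_le_right _ _
  · exact (hi n).div_const _

/-- The remainder at the first grid time where `Y > 0`. -/
noncomputable def rem (Y h : ℝ≥0 → Ω → ℝ) (s u : ℝ≥0) (n : ℕ) (ω : Ω) : ℝ :=
  ∑ k ∈ Finset.range (n + 1),
    (Dk Y s u n (k + 1) \ Dk Y s u n k).indicator (h (pt s u n (k + 1))) ω

lemma rem_eq_or {Y h : ℝ≥0 → Ω → ℝ} {s u : ℝ≥0} {n : ℕ} (ω : Ω) :
    rem Y h s u n ω = 0 ∨ ∃ k < n + 1, ω ∈ Dk Y s u n (k + 1) \ Dk Y s u n k ∧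
      rem Y h s u n ω = h (pt s u n (k + 1)) ω := by
  by_cases hex : ∃ k < n + 1, ω ∈ Dk Y s u n (k + 1) \ Dk Y s u n k
  · obtain ⟨k, hk, hω⟩ := hex
    right
    refine ⟨k, hk, hω, ?_⟩
    unfold rem
    rw [Finset.sum_eq_single k]
    · exact Set.indicator_of_mem hω _
    · intro l _ hlk
      refine Set.indicator_of_notMem ?_ _
      rintro ⟨h1, h2⟩
      rcases lt_or_gt_of_ne hlk with hl | hl
      · exact hω.2 (Dk_mono Y s u n (Nat.succ_le_of_lt hl) h1)
      · exact h2 (Dk_mono Y s u n (Nat.succ_le_of_lt hl) hω.1)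
    · intro h; exact absurd (Finset.mem_range.2 hk) h
  · left
    unfold rem
    refine Finset.sum_eq_zero fun k hk => Set.indicator_of_notMem ?_ _
    intro h
    exact hex ⟨k, Finset.mem_range.1 hk, h⟩

lemma rem_sq {Y h : ℝ≥0 → Ω → ℝ} {s u : ℝ≥0} {n : ℕ} (ω : Ω) :
    (rem Y h s u n ω) ^ 2 = rem Y (fun t ω => (h t ω) ^ 2) s u n ω := by
  by_cases hex : ∃ k < n + 1, ω ∈ Dk Y s u n (k + 1) \ Dk Y s u n k
  · obtain ⟨k, hk, hω⟩ := hex
    have key : ∀ F : ℝ≥0 → Ω → ℝ, rem Y F s u n ω = F (pt s u n (k + 1)) ω := by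
      intro F
      unfold rem
      rw [Finset.sum_eq_single k]
      · exact Set.indicator_of_mem hω _
      · intro l _ hlk
        refine Set.indicator_of_notMem ?_ _
        rintro ⟨h1, h2⟩
        rcases lt_or_gt_of_ne hlk with hl | hl
        · exact hω.2 (Dk_mono Y s u n (Nat.succ_le_of_lt hl) h1)
        · exact h2 (Dk_mono Y s u n (Nat.succ_le_of_lt hl) hω.1)
      · intro h; exact absurd (Finset.mem_range.2 hk) h
    rw [key, key]
  · have key : ∀ F : ℝ≥0 → Ω → ℝ, rem Y F s u n ω = 0 := by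
      intro F
      unfold rem
      refine Finset.sum_eq_zero fun k hk => Set.indicator_of_notMem ?_ _
      intro h
      exact hex ⟨k, Finset.mem_range.1 hk, h⟩
    rw [key, key]
    norm_num

/-- The remainder tends to zero. -/
lemma tendsto_rem {Y h : ℝ≥0 → Ω → ℝ} {s u : ℝ≥0} (hsu : s ≤ u) (ω : Ω)
    (hYc : Continuous fun t => Y t ω) (hhc : Continuous fun t => h t ω)
    (hvan : ∀ t, s ≤ t → t ≤ u → Y t ω = 0 → h t ω = 0) :
    Tendsto (fun n => rem Y h s u n ω) atTop (𝓝 0) := by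
  have huc : UniformContinuousOn (fun t => h t ω) (Icc s u) :=
    isCompact_Icc.uniformContinuousOn_of_continuous hhc.continuousOn
  rw [Metric.uniformContinuousOn_iff] at huc
  rw [Metric.tendsto_atTop]
  intro ε hε
  obtain ⟨δ, hδ, hh⟩ := huc ε hε
  have h2 : Tendsto (fun n : ℕ => ((u : ℝ) - s) / (n + 1)) atTop (𝓝 0) := by
    have h3 := (tendsto_const_div_atTop_nhds_zero_nat ((u : ℝ) - s)).comp
      (tendsto_add_atTop_nat 1)
    refine h3.congr fun n => ?_
    simp
  obtain ⟨N, hN⟩ := eventually_atTop.1 (h2.eventually (gt_mem_nhds hδ))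
  refine ⟨N, fun n hn => ?_⟩
  rw [Real.dist_eq, sub_zero]
  rcases rem_eq_or (Y := Y) (h := h) (s := s) (u := u) (n := n) ω with h0 | ⟨k, hk, hω, hr⟩
  · rw [h0]; simpa using hε
  · rw [hr]
    -- value at the two consecutive grid points
    have hpos : 0 < Y (pt s u n (k + 1)) ω := by
      obtain ⟨j, hj, hjpos⟩ := hω.1
      rcases Nat.le_succ_iff.1 hj with h1 | h1
      · exact absurd ⟨j, h1, hjpos⟩ hω.2
      · rwa [h1] at hjpos
    have hneg : Y (pt s u n k) ω ≤ 0 := by
      by_contra hcon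
      exact hω.2 ⟨k, le_rfl, not_le.1 hcon⟩
    have hle : pt s u n k ≤ pt s u n (k + 1) := pt_mono s u n (Nat.le_succ k)
    obtain ⟨v, hv, hv0⟩ : ∃ v ∈ Icc (pt s u n k) (pt s u n (k + 1)), Y v ω = 0 := by
      have := intermediate_value_Icc hle (f := fun t => Y t ω) hYc.continuousOn
      exact this ⟨hneg, hpos.le⟩
    have hk1u : pt s u n (k + 1) ≤ u := pt_le hsu (by omega)
    have hvs : s ≤ v := (le_pt s u n k).trans hv.1
    have hvu : v ≤ u := hv.2.trans hk1u
    have hzero := hvan v hvs hvu hv0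
    have hd : dist (pt s u n (k + 1)) v < δ := by
      rw [NNReal.dist_eq, abs_of_nonneg (sub_nonneg.2 (by exact_mod_cast hv.2))]
      have h3 : (pt s u n k : ℝ) ≤ v := by exact_mod_cast hv.1
      have h4 : (pt s u n (k + 1) : ℝ) - pt s u n k = (u - s) / (n + 1) := by
        unfold pt
        push_cast [NNReal.coe_sub hsu]
        ring
      have := hN n hn
      linarith
    have := hh (pt s u n (k + 1)) ⟨le_pt s u n (k + 1), hk1u⟩ v ⟨hvs, hvu⟩ hd
    rw [hzero, Real.dist_eq, sub_zero] at this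
    exact this

/-- **Glued optional stopping.** -/
theorem glue [IsProbabilityMeasure P] {m : ℝ≥0 → MeasurableSpace Ω} (hmono : Monotone m)
    (hm : ∀ t, m t ≤ mΩ) {s u : ℝ≥0} (hsu : s ≤ u) {Y h : ℝ≥0 → Ω → ℝ}
    (H : MartOn m P s h) (hY : ∀ t, s ≤ t → Measurable[m t] (Y t))
    (hYc : ∀ ω, Continuous fun t => Y t ω) (hhc : ∀ ω, Continuous fun t => h t ω)
    (hvan : ∀ t ω, s ≤ t → t ≤ u → Y t ω = 0 → h t ω = 0)
    {A : Set Ω} (hA : MeasurableSet[m s] A) :
    ∫ ω in A ∩ Dset Y s u, h u ω ∂P = ∫ ω in A ∩ {ω | 0 < Y s ω}, h s ω ∂P := by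
  have hint : ∀ t, s ≤ t → Integrable (h t) P := fun t ht => (H.L2 t ht).integrable (by norm_num)
  have hDm : ∀ n k, MeasurableSet[m (pt s u n k)] (Dk Y s u n k) := fun n k =>
    measurableSet_Dk hmono hY u n k
  have hDm' : ∀ n k, MeasurableSet (Dk Y s u n k) := fun n k => hm _ _ (hDm n k)
  have hA' : MeasurableSet A := hm _ _ hA
  have hAt : ∀ t, s ≤ t → MeasurableSet[m t] A := fun t ht => hmono ht _ hA
  -- telescoping identity
  have tel : ∀ n, ∀ k ≤ n + 1, ∫ ω in A ∩ Dk Y s u n k, h (pt s u n k) ω ∂P =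
      ∫ ω in A ∩ {ω | 0 < Y s ω}, h s ω ∂P + ∫ ω in A, (∑ j ∈ Finset.range k,
        (Dk Y s u n (j + 1) \ Dk Y s u n j).indicator (h (pt s u n (j + 1))) ω) ∂P := by
    intro n k
    induction k with
    | zero =>
      intro _
      simp only [Finset.range_zero, Finset.sum_empty, integral_zero, add_zero, pt_zero]
      have : Dk Y s u n 0 = {ω | 0 < Y s ω} := by
        ext ω; simp [Dk, pt_zero]
      rw [this]
    | succ k ih =>
      intro hk
      have ih' := ih (by omega)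
      have hsp : s ≤ pt s u n k := le_pt _ _ _ _
      have hsp1 : s ≤ pt s u n (k + 1) := le_pt _ _ _ _
      have hle : pt s u n k ≤ pt s u n (k + 1) := pt_mono s u n (Nat.le_succ k)
      have h1 : ∫ ω in A ∩ Dk Y s u n k, h (pt s u n (k + 1)) ω ∂P =
          ∫ ω in A ∩ Dk Y s u n k, h (pt s u n k) ω ∂P :=
        H.setIntegral_eq hm hsp hle ((hAt _ hsp).inter (hDm n k))
      have h2 : ∫ ω in A ∩ Dk Y s u n (k + 1), h (pt s u n (k + 1)) ω ∂P =
          ∫ ω in A ∩ Dk Y s u n k, h (pt s u n (k + 1)) ω ∂P +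
          ∫ ω in A ∩ (Dk Y s u n (k + 1) \ Dk Y s u n k), h (pt s u n (k + 1)) ω ∂P := by
        rw [← setIntegral_union]
        · rw [← Set.inter_union_distrib_left,
            Set.union_sdiff_cancel (Dk_mono Y s u n (Nat.le_succ k))]
        · exact (Set.disjoint_sdiff_right).mono (Set.inter_subset_right) (Set.inter_subset_right)
        · exact hA'.inter ((hDm' n (k + 1)).diff (hDm' n k))
        · exact (hint _ hsp1).integrableOn
        · exact (hint _ hsp1).integrableOn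
      rw [h2, h1, ih']
      simp_rw [Finset.sum_range_succ]
      rw [integral_add]
      · rw [add_assoc]
        congr 2
        rw [setIntegral_indicator ((hDm' n (k + 1)).diff (hDm' n k))]
      · refine integrable_finsetSum _ fun j _ => ?_
        exact ((hint _ (le_pt s u n (j + 1))).indicator
          ((hDm' n (j + 1)).diff (hDm' n j))).restrict
      · exact ((hint _ hsp1).indicator ((hDm' n (k + 1)).diff (hDm' n k))).restrict
  -- at the last grid point
  have fin : ∀ n, ∫ ω in A ∩ Dk Y s u n (n + 1), h u ω ∂P =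
      ∫ ω in A ∩ {ω | 0 < Y s ω}, h s ω ∂P + ∫ ω in A, rem Y h s u n ω ∂P := by
    intro n
    have := tel n (n + 1) le_rfl
    rwa [pt_last hsu] at this
  -- convergence of the remainder
  have hremM : ∀ n, Measurable (rem Y h s u n) := by
    intro n
    unfold rem
    refine Finset.measurable_sum _ fun j _ => ?_
    exact ((H.meas _ (le_pt s u n (j + 1))).mono (hm _) le_rfl).indicator
      ((hDm' n (j + 1)).diff (hDm' n j))
  have hremI : ∀ n, Integrable (fun ω => (rem Y h s u n ω) ^ 2) P := by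
    intro n
    simp_rw [rem_sq]
    unfold rem
    refine integrable_finsetSum _ fun j _ => ?_
    exact ((H.L2 _ (le_pt s u n (j + 1))).integrable_sq).indicator
      ((hDm' n (j + 1)).diff (hDm' n j))
  have hremB : ∀ n, ∫ ω, (rem Y h s u n ω) ^ 2 ∂P ≤ ∫ ω, (h u ω) ^ 2 ∂P := by
    intro n
    have hu2 : Integrable (fun ω => (h u ω) ^ 2) P := (H.L2 u hsu).integrable_sq
    simp_rw [rem_sq]
    unfold rem
    rw [integral_finsetSum]
    · have h1 : ∀ j ∈ Finset.range (n + 1),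
          ∫ ω, (Dk Y s u n (j + 1) \ Dk Y s u n j).indicator
            (fun ω => (h (pt s u n (j + 1)) ω) ^ 2) ω ∂P ≤
          ∫ ω, (Dk Y s u n (j + 1) \ Dk Y s u n j).indicator (fun ω => (h u ω) ^ 2) ω ∂P := by
        intro j hj
        rw [integral_indicator ((hDm' n (j + 1)).diff (hDm' n j)),
          integral_indicator ((hDm' n (j + 1)).diff (hDm' n j))]
        refine H.sq_le hm (le_pt s u n (j + 1))
          (pt_le hsu (by have := Finset.mem_range.1 hj; omega)) ?_
        refine (hDm n (j + 1)).diff ?_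
        exact hmono (pt_mono s u n (Nat.le_succ j)) _ (hDm n j)
      refine (Finset.sum_le_sum h1).trans ?_
      rw [← integral_finsetSum]
      · refine integral_mono_of_nonneg (ae_of_all _ fun ω => ?_) hu2 (ae_of_all _ fun ω => ?_)
        · exact Finset.sum_nonneg fun j _ => Set.indicator_nonneg (fun _ _ => sq_nonneg _) _
        · have := rem_sq (Y := Y) (h := fun _ => h u) (s := s) (u := u) (n := n) ω
          unfold rem at this
          simp only
          rw [← this]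
          rcases rem_eq_or (Y := Y) (h := fun _ => h u) (s := s) (u := u) (n := n) ω with
            h0 | ⟨k, _, _, hr⟩
          · unfold rem at h0
            rw [h0]
            nlinarith [sq_nonneg (h u ω)]
          · unfold rem at hr
            rw [hr]
      · intro j _
        exact hu2.indicator ((hDm' n (j + 1)).diff (hDm' n j))
    · intro j _
      exact ((H.L2 _ (le_pt s u n (j + 1))).integrable_sq).indicator
        ((hDm' n (j + 1)).diff (hDm' n j))
  have hrem0 : Tendsto (fun n => ∫ ω in A, rem Y h s u n ω ∂P) atTop (𝓝 0) := by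
    have h1 := tendsto_integral_abs_of_sq_bound (R := fun n => rem Y h s u n)
      (fun n => (hremM n).aestronglyMeasurable) hremI hremB
      (fun ω => tendsto_rem hsu ω (hYc ω) (hhc ω) (fun t h1 h2 h3 => hvan t ω h1 h2 h3))
    refine squeeze_zero_norm (fun n => ?_) h1
    refine (norm_integral_le_integral_norm _).trans ?_
    refine setIntegral_le_integral ?_ (ae_of_all _ fun ω => norm_nonneg _)
    have hi : MemLp (rem Y h s u n) 2 P :=
      (memLp_two_iff_integrable_sq (hremM n).aestronglyMeasurable).2 (hremI n)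
    exact (hi.integrable (by norm_num)).norm
  -- convergence of the main term
  have hmain : Tendsto (fun n => ∫ ω in A ∩ Dk Y s u n (n + 1), h u ω ∂P) atTop
      (𝓝 (∫ ω in A ∩ Dset Y s u, h u ω ∂P)) := by
    have hDs : MeasurableSet (Dset Y s u) := hm _ _ (measurableSet_Dset hmono hsu hY hYc)
    have e1 : ∀ n, ∫ ω in A ∩ Dk Y s u n (n + 1), h u ω ∂P =
        ∫ ω in A, (Dk Y s u n (n + 1)).indicator (h u) ω ∂P := fun n => by
      rw [setIntegral_indicator (hDm' n (n + 1))]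
    have e2 : ∫ ω in A ∩ Dset Y s u, h u ω ∂P =
        ∫ ω in A, (Dset Y s u).indicator (h u) ω ∂P := by
      rw [setIntegral_indicator hDs]
    simp_rw [e1]
    rw [e2]
    refine tendsto_integral_of_dominated_convergence (fun ω => |h u ω|) (fun n => ?_)
      (hint u hsu).abs.restrict (fun n => ae_of_all _ fun ω => ?_) (ae_of_all _ fun ω => ?_)
    · exact ((hint u hsu).indicator (hDm' n (n + 1))).aestronglyMeasurable.restrict
    · rw [Real.norm_eq_abs]
      by_cases hω : ω ∈ Dk Y s u n (n + 1)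
      · rw [Set.indicator_of_mem hω]
      · rw [Set.indicator_of_notMem hω]; simp
    · by_cases hω : ω ∈ Dset Y s u
      · rw [Set.indicator_of_mem hω]
        refine tendsto_const_nhds.congr' ?_
        filter_upwards [eventually_mem_Dk (hYc ω) hω] with n hn
        rw [Set.indicator_of_mem hn]
      · rw [Set.indicator_of_notMem hω]
        refine tendsto_const_nhds.congr fun n => ?_
        rw [Set.indicator_of_notMem]
        exact fun hn => hω (Dk_subset_Dset hsu le_rfl hn)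
  simp_rw [fin] at hmain
  have hmain2 : Tendsto (fun n => ∫ ω in A ∩ {ω | 0 < Y s ω}, h s ω ∂P +
      ∫ ω in A, rem Y h s u n ω ∂P) atTop
      (𝓝 (∫ ω in A ∩ {ω | 0 < Y s ω}, h s ω ∂P + 0)) := tendsto_const_nhds.add hrem0
  rw [add_zero] at hmain2
  exact tendsto_nhds_unique hmain hmain2

end Pool.Agent.H85.BM
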