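import Mathlib
import Pool.Agent.H85.Glue

/-!
# The martingales `1`, `B`, `exp (B - t/2)`, `(B - t) exp (B - t/2)`
-/

open MeasureTheory ProbabilityTheory Filter Topology Set
open scoped NNReal ENNReal

namespace Pool.Agent.H85.BM

variable {Ω : Type*} {mΩ : MeasurableSpace Ω} {P : Measure Ω}

/-- Brownian motion with all paths continuous, started at `0`, with `B t / (1+t) → 0`
everywhere. -/
structure GoodBM (P : Measure Ω) (B : ℝ≥0 → Ω → ℝ) : Prop where
  prob : IsProbabilityMeasure P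
  pre : IsPreBrownianReal B P
  meas : ∀ t, Measurable (B t)
  cont : ∀ ω, Continuous fun t => B t ω
  zero : ∀ ω, B 0 ω = 0
  slln : ∀ ω, Tendsto (fun t : ℝ≥0 => B t ω / (1 + t)) atTop (𝓝 0)

/-- the (raw) natural filtration -/
def F0 (B : ℝ≥0 → Ω → ℝ) (t : ℝ≥0) : MeasurableSpace Ω :=
  MeasurableSpace.comap (fun ω (s : Set.Iic t) => B s ω) inferInstance

lemma F0_mono (B : ℝ≥0 → Ω → ℝ) : Monotone (F0 B) := by
  intro s t hst
  unfold F0
  have : (fun ω (r : Set.Iic s) => B r ω) =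
      (fun (w : Set.Iic t → ℝ) (r : Set.Iic s) => w ⟨r.1, r.2.trans hst⟩) ∘
        (fun ω (r : Set.Iic t) => B r ω) := rfl
  rw [this, ← MeasurableSpace.comap_comp]
  exact MeasurableSpace.comap_mono (Measurable.comap_le (by fun_prop))

lemma measurable_F0 (B : ℝ≥0 → Ω → ℝ) {s t : ℝ≥0} (hst : s ≤ t) : Measurable[F0 B t] (B s) := by
  unfold F0
  have h := comap_measurable (m := inferInstance) (fun ω (s : Set.Iic t) => B s ω)
  exact (measurable_pi_apply (⟨s, hst⟩ : Set.Iic t)).comp h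

lemma F0_le {B : ℝ≥0 → Ω → ℝ} (hB : ∀ t, Measurable (B t)) (t : ℝ≥0) : F0 B t ≤ mΩ :=
  Measurable.comap_le (measurable_pi_lambda _ fun _ => hB _)

/-- increments are independent of the past -/
lemma indep_incr {B : ℝ≥0 → Ω → ℝ} (hB : GoodBM P B) {s t : ℝ≥0} (hst : s ≤ t) :
    Indep (MeasurableSpace.comap (fun ω => B t ω - B s ω) inferInstance) (F0 B s) P := by
  have h := hB.pre.indepFun_shift s
  rw [IndepFun] at h
  refine indep_of_indep_of_le_left h ?_
  have : (fun ω => B t ω - B s ω) = (fun w : ℝ≥0 → ℝ => w (t - s)) ∘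
      (fun ω t => B (s + t) ω - B s ω) := by
    ext ω; simp [add_tsub_cancel_of_le hst]
  rw [this, ← MeasurableSpace.comap_comp]
  exact MeasurableSpace.comap_mono (Measurable.comap_le (by fun_prop))

lemma law_incr {B : ℝ≥0 → Ω → ℝ} (hB : GoodBM P B) {s t : ℝ≥0} (hst : s ≤ t) :
    HasLaw (fun ω => B t ω - B s ω) (gaussianReal 0 (t - s)) P := by
  have h := (hB.pre.shift s).hasLaw_eval (t - s)
  simpa [add_tsub_cancel_of_le hst] using h

/-- pulling an independent increment out of a conditional expectation -/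
lemma condExp_mul_incr {B : ℝ≥0 → Ω → ℝ} (hB : GoodBM P B) {s t : ℝ≥0} (hst : s ≤ t)
    {W : Ω → ℝ} (hW : Measurable[F0 B s] W) {φ : ℝ → ℝ} (hφ : Measurable φ)
    (hi : Integrable φ (gaussianReal 0 (t - s)))
    (hWi : Integrable W P) :
    Integrable (fun ω => W ω * φ (B t ω - B s ω)) P ∧
    P[fun ω => W ω * φ (B t ω - B s ω) | F0 B s] =ᵐ[P]
      fun ω => W ω * ∫ x, φ x ∂(gaussianReal 0 (t - s)) := by
  have := hB.prob
  have hle : F0 B s ≤ mΩ := F0_le hB.meas s
  have hΔ : Measurable fun ω => B t ω - B s ω := (hB.meas t).sub (hB.meas s)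
  have hφi : Integrable (fun ω => φ (B t ω - B s ω)) P := by
    have h1 : Integrable φ (P.map fun ω => B t ω - B s ω) := by
      rw [(law_incr hB hst).map_eq]; exact hi
    exact h1.comp_measurable hΔ
  have hind : IndepFun W (fun ω => φ (B t ω - B s ω)) P := by
    rw [IndepFun]
    refine indep_of_indep_of_le_left (indep_of_indep_of_le_right (indep_incr hB hst).symm ?_)
      hW.comap_le
    have : (fun ω => φ (B t ω - B s ω)) = φ ∘ (fun ω => B t ω - B s ω) := rfl
    rw [this, ← MeasurableSpace.comap_comp]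
    exact MeasurableSpace.comap_mono hφ.comap_le
  have hprod : Integrable (fun ω => W ω * φ (B t ω - B s ω)) P := hind.integrable_mul hWi hφi
  refine ⟨hprod, ?_⟩
  have e1 := condExp_mul_of_stronglyMeasurable_left (m := F0 B s) (μ := P)
    hW.stronglyMeasurable hprod hφi
  have e2 : P[fun ω => φ (B t ω - B s ω) | F0 B s] =ᵐ[P]
      fun _ => ∫ ω, φ (B t ω - B s ω) ∂P := by
    refine condExp_indep_eq (m₁ := MeasurableSpace.comap (fun ω => B t ω - B s ω) inferInstance)
      hΔ.comap_le hle ?_ (indep_incr hB hst)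
    have h1 : Measurable[MeasurableSpace.comap (fun ω => B t ω - B s ω) inferInstance]
      (fun ω => φ (B t ω - B s ω)) := hφ.comp (comap_measurable _)
    exact h1.stronglyMeasurable
  have e3 : ∫ ω, φ (B t ω - B s ω) ∂P = ∫ x, φ x ∂(gaussianReal 0 (t - s)) := by
    rw [← (law_incr hB hst).map_eq, integral_map hΔ.aemeasurable hφ.aestronglyMeasurable]
  have e4 : P[fun ω => W ω * φ (B t ω - B s ω) | F0 B s] =ᵐ[P]
      fun ω => W ω * (P[fun ω => φ (B t ω - B s ω) | F0 B s]) ω := e1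
  filter_upwards [e4, e2] with ω h1 h2
  rw [h1, h2, e3]

/-! ### Gaussian integrals -/

lemma integral_exp_gauss (v : ℝ≥0) :
    ∫ x, Real.exp (x - v / 2) ∂(gaussianReal 0 v) = 1 := by
  have h := congrFun (mgf_id_gaussianReal (μ := 0) (v := v)) 1
  simp only [mgf, id, one_mul, zero_mul, zero_add, one_pow, mul_one] at h
  simp_rw [sub_eq_add_neg, Real.exp_add]
  rw [integral_mul_const, h, ← Real.exp_add]
  simp

lemma integral_mul_exp_gauss (v : ℝ≥0) :
    ∫ x, (x - v) * Real.exp (x - v / 2) ∂(gaussianReal 0 v) = 0 := by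
  have hint : ∀ n : ℕ, Integrable (fun x : ℝ => x ^ n * Real.exp (1 * x)) (gaussianReal 0 v) :=
    fun n => integrable_pow_mul_exp_of_mem_interior_integrableExpSet (X := id)
      (by simp) n
  have h0 := hint 0
  have h1 := hint 1
  simp only [pow_zero, one_mul, pow_one] at h0 h1
  have hd := hasDerivAt_mgf (X := id) (μ := gaussianReal 0 v) (t := 1) (by simp)
  have hd2 : HasDerivAt (mgf id (gaussianReal 0 v)) (v * Real.exp (v / 2)) 1 := by
    rw [mgf_id_gaussianReal]
    have h3 : HasDerivAt (fun t : ℝ => (0 : ℝ) * t + v * t ^ 2 / 2) (v : ℝ) 1 := by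
      have h4 : HasDerivAt (fun t : ℝ => (v : ℝ) * t ^ 2 / 2)
          ((v : ℝ) * ((2 : ℕ) * (1 : ℝ) ^ (2 - 1)) / 2) 1 :=
        ((hasDerivAt_pow 2 (1 : ℝ)).const_mul (v : ℝ)).div_const 2
      simp only [zero_mul, zero_add]
      convert! h4 using 1
      simp
    have h5 := h3.exp
    simp only [zero_mul, zero_add, one_pow, mul_one] at h5 ⊢
    rw [mul_comm]
    exact h5
  have h2 := hd.unique hd2
  simp only [id, one_mul] at h2
  have e : (fun x : ℝ => (x - v) * Real.exp (x - v / 2)) =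
      fun x => Real.exp (-(v / 2)) * (x * Real.exp x) -
        (v * Real.exp (-(v / 2))) * Real.exp x := by
    ext x
    rw [sub_eq_add_neg x ((v : ℝ) / 2), Real.exp_add]
    ring
  have hz := congrFun (mgf_id_gaussianReal (μ := 0) (v := v)) 1
  simp only [mgf, id, one_mul, zero_mul, zero_add, one_pow, mul_one] at hz
  rw [e, integral_sub (h1.const_mul _) (h0.const_mul _), integral_const_mul, integral_const_mul,
    h2, hz, Real.exp_neg]
  field_simp
  ring

lemma integrable_exp_gauss (v : ℝ≥0) (c : ℝ) :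
    Integrable (fun x => Real.exp (x - c)) (gaussianReal 0 v) := by
  have := integrable_exp_mul_gaussianReal (μ := 0) (v := v) 1
  simp_rw [sub_eq_add_neg, Real.exp_add]
  simpa using this.mul_const _

lemma integrable_mul_exp_gauss (v : ℝ≥0) (a c : ℝ) :
    Integrable (fun x => (x - a) * Real.exp (x - c)) (gaussianReal 0 v) := by
  have hint : ∀ n : ℕ, Integrable (fun x : ℝ => x ^ n * Real.exp (1 * x)) (gaussianReal 0 v) :=
    fun n => integrable_pow_mul_exp_of_mem_interior_integrableExpSet (X := id)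
      (by simp) n
  have h0 := hint 0
  have h1 := hint 1
  simp only [pow_zero, one_mul, pow_one] at h0 h1
  have e : (fun x : ℝ => (x - a) * Real.exp (x - c)) =
      fun x => Real.exp (-c) * (x * Real.exp x) -
        (a * Real.exp (-c)) * Real.exp x := by
    ext x
    rw [sub_eq_add_neg x c, Real.exp_add]
    ring
  rw [e]
  exact (h1.const_mul _).sub (h0.const_mul _)

/-- `(a + b x) e^x` is square integrable. -/
lemma memLp_poly_exp (v : ℝ≥0) (a b c : ℝ) :
    MemLp (fun x => (a + b * x) * Real.exp (x - c)) 2 (gaussianReal 0 v) := by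
  rw [memLp_two_iff_integrable_sq (by fun_prop)]
  have hint : ∀ n : ℕ, Integrable (fun x : ℝ => x ^ n * Real.exp (2 * x)) (gaussianReal 0 v) :=
    fun n => integrable_pow_mul_exp_of_mem_interior_integrableExpSet (X := id)
      (by simp) n
  have e : (fun x : ℝ => ((a + b * x) * Real.exp (x - c)) ^ 2) =
      fun x => (a ^ 2 * Real.exp (-(2 * c))) * (x ^ 0 * Real.exp (2 * x)) +
        (2 * a * b * Real.exp (-(2 * c))) * (x ^ 1 * Real.exp (2 * x)) +
        (b ^ 2 * Real.exp (-(2 * c))) * (x ^ 2 * Real.exp (2 * x)) := by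
    ext x
    rw [mul_pow, ← Real.exp_nat_mul]
    have : ((2 : ℕ) : ℝ) * (x - c) = 2 * x + -(2 * c) := by push_cast; ring
    rw [this, Real.exp_add]
    ring
  rw [e]
  exact (((hint 0).const_mul _).add ((hint 1).const_mul _)).add ((hint 2).const_mul _)

/-! ### the processes -/

/-- `E t = exp (B t - t / 2)` -/
noncomputable def Ex (B : ℝ≥0 → Ω → ℝ) (t : ℝ≥0) (ω : Ω) : ℝ := Real.exp (B t ω - t / 2)

lemma law_B {B : ℝ≥0 → Ω → ℝ} (hB : GoodBM P B) (t : ℝ≥0) :
    HasLaw (B t) (gaussianReal 0 t) P := hB.pre.hasLaw_eval t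

lemma memLp_comp_B {B : ℝ≥0 → Ω → ℝ} (hB : GoodBM P B) (t : ℝ≥0) {f : ℝ → ℝ}
    {p : ℝ≥0∞} (hf : MemLp f p (gaussianReal 0 t)) : MemLp (fun ω => f (B t ω)) p P := by
  have h1 : MemLp f p (P.map (B t)) := by rw [(law_B hB t).map_eq]; exact hf
  exact h1.comp_of_map (hB.meas t).aemeasurable

lemma memLp_B {B : ℝ≥0 → Ω → ℝ} (hB : GoodBM P B) (t : ℝ≥0) : MemLp (B t) 2 P :=
  memLp_comp_B hB t (f := id) (memLp_id_gaussianReal 2)

lemma memLp_poly_Ex {B : ℝ≥0 → Ω → ℝ} (hB : GoodBM P B) (t : ℝ≥0) (a b : ℝ) :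
    MemLp (fun ω => (a + b * B t ω) * Ex B t ω) 2 P :=
  memLp_comp_B hB t (memLp_poly_exp t a b (t / 2))

lemma memLp_Ex {B : ℝ≥0 → Ω → ℝ} (hB : GoodBM P B) (t : ℝ≥0) :
    MemLp (Ex B t) 2 P := by
  have := memLp_poly_Ex hB t 1 0
  simpa using this

lemma measurable_Ex (B : ℝ≥0 → Ω → ℝ) {s t : ℝ≥0} (hst : s ≤ t) :
    Measurable[F0 B t] (Ex B s) :=
  Real.measurable_exp.comp ((measurable_F0 B hst).sub_const _)

lemma continuous_Ex {B : ℝ≥0 → Ω → ℝ} (hB : GoodBM P B) (ω : Ω) :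
    Continuous fun t => Ex B t ω := by
  unfold Ex
  have := hB.cont ω
  fun_prop

lemma Ex_eq (B : ℝ≥0 → Ω → ℝ) {s t : ℝ≥0} (hst : s ≤ t) (ω : Ω) :
    Ex B t ω = Ex B s ω * Real.exp ((B t ω - B s ω) - ((t - s : ℝ≥0) : ℝ) / 2) := by
  unfold Ex
  rw [← Real.exp_add, NNReal.coe_sub hst]
  congr 1; ring

/-- `W E` for `W` measurable w.r.t. the past. -/
lemma condExp_mul_Ex {B : ℝ≥0 → Ω → ℝ} (hB : GoodBM P B) {s t : ℝ≥0} (hst : s ≤ t)
    {W : Ω → ℝ} (hW : Measurable[F0 B s] W) (hWi : Integrable (fun ω => W ω * Ex B s ω) P) :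
    P[fun ω => W ω * Ex B t ω | F0 B s] =ᵐ[P] fun ω => W ω * Ex B s ω := by
  have h := condExp_mul_incr hB hst (W := fun ω => W ω * Ex B s ω)
    (φ := fun x => Real.exp (x - ((t - s : ℝ≥0) : ℝ) / 2))
    (hW.mul (measurable_Ex B le_rfl)) (by fun_prop) (integrable_exp_gauss _ _) hWi
  rw [integral_exp_gauss] at h
  have e : (fun ω => W ω * Ex B t ω) = fun ω => W ω * Ex B s ω *
      Real.exp (B t ω - B s ω - ((t - s : ℝ≥0) : ℝ) / 2) := by
    ext ω; rw [Ex_eq B hst]; ring
  rw [e]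
  simpa using h.2

lemma condExp_Ex {B : ℝ≥0 → Ω → ℝ} (hB : GoodBM P B) {s t : ℝ≥0} (hst : s ≤ t) :
    P[Ex B t | F0 B s] =ᵐ[P] Ex B s := by
  have := hB.prob
  have h := condExp_mul_Ex hB hst (W := fun _ => 1) measurable_const
    (by simpa using (memLp_Ex hB s).integrable (by norm_num))
  simpa using h

lemma condExp_B {B : ℝ≥0 → Ω → ℝ} (hB : GoodBM P B) {s t : ℝ≥0} (hst : s ≤ t) :
    P[B t | F0 B s] =ᵐ[P] B s := by
  have := hB.prob
  have h := condExp_mul_incr hB hst (W := fun _ => 1) (φ := id)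
    measurable_const measurable_id
    ((memLp_id_gaussianReal 1).integrable (by norm_num)) (integrable_const _)
  have hBs : P[B s | F0 B s] = B s :=
    condExp_of_stronglyMeasurable (F0_le hB.meas s) (measurable_F0 B le_rfl).stronglyMeasurable
      ((memLp_B hB s).integrable (by norm_num))
  have e : B t = B s + (fun ω => (1 : ℝ) * id (B t ω - B s ω)) := by
    ext ω; simp
  have h2 := condExp_add (μ := P) (m := F0 B s) ((memLp_B hB s).integrable (by norm_num)) h.1
  rw [← e] at h2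
  filter_upwards [h2, h.2] with ω h3 h4
  rw [h3, Pi.add_apply, h4, hBs]
  simp [integral_id_gaussianReal]

lemma condExp_BEx {B : ℝ≥0 → Ω → ℝ} (hB : GoodBM P B) {s t : ℝ≥0} (hst : s ≤ t) :
    P[fun ω => (B t ω - t) * Ex B t ω | F0 B s] =ᵐ[P] fun ω => (B s ω - s) * Ex B s ω := by
  have := hB.prob
  have hEi : Integrable (Ex B s) P := (memLp_Ex hB s).integrable (by norm_num)
  have hBEi : Integrable (fun ω => (B s ω - s) * Ex B s ω) P := by
    have := (memLp_poly_Ex hB s (-s) 1).integrable (by norm_num)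
    refine this.congr (ae_of_all _ fun ω => ?_)
    simp only; ring
  have h1 := condExp_mul_incr hB hst (W := fun ω => (B s ω - s) * Ex B s ω)
    (φ := fun x => Real.exp (x - ((t - s : ℝ≥0) : ℝ) / 2))
    (((measurable_F0 B le_rfl).sub_const _).mul (measurable_Ex B le_rfl)) (by fun_prop)
    (integrable_exp_gauss _ _) hBEi
  have h2 := condExp_mul_incr hB hst (W := Ex B s)
    (φ := fun x => (x - ((t - s : ℝ≥0) : ℝ)) * Real.exp (x - ((t - s : ℝ≥0) : ℝ) / 2))
    (measurable_Ex B le_rfl) (by fun_prop) (integrable_mul_exp_gauss _ _ _) hEi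
  rw [integral_exp_gauss] at h1
  rw [integral_mul_exp_gauss] at h2
  have e : (fun ω => (B t ω - t) * Ex B t ω) =
      (fun ω => (B s ω - s) * Ex B s ω * Real.exp (B t ω - B s ω - ((t - s : ℝ≥0) : ℝ) / 2)) +
      (fun ω => Ex B s ω * ((B t ω - B s ω - ((t - s : ℝ≥0) : ℝ)) *
        Real.exp (B t ω - B s ω - ((t - s : ℝ≥0) : ℝ) / 2))) := by
    ext ω
    rw [Pi.add_apply, Ex_eq B hst]
    rw [NNReal.coe_sub hst]
    ring
  have h3 := condExp_add (μ := P) (m := F0 B s) h1.1 h2.1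
  rw [← e] at h3
  filter_upwards [h3, h1.2, h2.2] with ω h4 h5 h6
  rw [h4, Pi.add_apply, h5, h6]
  simp

end Pool.Agent.H85.BM
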