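import Mathlib
import Pool.Agent.H85.BMConstruct3

/-!
# Existence of Brownian motion

`exists_brownianMotion`: there is a probability space with a process `B : ℝ≥0 → Ω → ℝ` which is a
pre-Brownian motion (Mathlib's `IsPreBrownianReal`), each `B t` measurable, **all** paths
continuous, `B 0 = 0` everywhere, and `B t / (1 + t) → 0` as `t → ∞` on **all** of `Ω`.
-/

open MeasureTheory ProbabilityTheory Filter Topology Set
open scoped NNReal ENNReal

namespace Pool.Agent.H85.BM

section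

variable {Ω : Type*} {mΩ : MeasurableSpace Ω} {P : Measure Ω}

/-- Brownian motion from the bridge: `B t = (1 + t) b(t / (1 + t))`. -/
noncomputable def bm (ξ : ℕ × ℕ → Ω → ℝ) (t : ℝ≥0) (ω : Ω) : ℝ :=
  (1 + (t : ℝ)) * bridge ξ ((t : ℝ) / (1 + t)) ω

lemma time_mem (t : ℝ≥0) : (t : ℝ) / (1 + t) ∈ Icc (0 : ℝ) 1 := by
  have ht : (0 : ℝ) ≤ t := t.2
  refine ⟨by positivity, ?_⟩
  rw [div_le_one (by positivity)]
  linarith

lemma continuous_bm (ξ : ℕ × ℕ → Ω → ℝ) (ω : Ω) : Continuous fun t => bm ξ t ω := by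
  unfold bm
  have h : Continuous fun t : ℝ≥0 => (t : ℝ) / (1 + t) := by
    refine Continuous.div (by fun_prop) (by fun_prop) fun t => ?_
    have ht : (0 : ℝ) ≤ t := t.2
    positivity
  exact (continuous_const.add NNReal.continuous_coe).mul ((continuous_bridge ξ ω).comp h)

lemma measurable_bm {ξ : ℕ × ℕ → Ω → ℝ} (hm : ∀ i, Measurable (ξ i)) (t : ℝ≥0) :
    Measurable (bm ξ t) := (measurable_bridge hm _).const_mul _

lemma bm_zero (ξ : ℕ × ℕ → Ω → ℝ) (ω : Ω) : bm ξ 0 ω = 0 := by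
  simp [bm, bridge_zero]

lemma tendsto_bm (ξ : ℕ × ℕ → Ω → ℝ) (ω : Ω) :
    Tendsto (fun t : ℝ≥0 => bm ξ t ω / (1 + t)) atTop (𝓝 0) := by
  have h1 : ∀ t : ℝ≥0, bm ξ t ω / (1 + t) = bridge ξ ((t : ℝ) / (1 + t)) ω := by
    intro t
    have ht : (0 : ℝ) ≤ t := t.2
    unfold bm
    field_simp
  simp_rw [h1]
  rw [← bridge_one ξ ω]
  refine ((continuous_bridge ξ ω).tendsto 1).comp ?_
  have h2 : (fun t : ℝ≥0 => (t : ℝ) / (1 + t)) = fun t : ℝ≥0 => 1 - 1 / (1 + (t : ℝ)) := by
    ext t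
    have ht : (0 : ℝ) ≤ t := t.2
    field_simp
    ring
  rw [h2]
  have h3 : Tendsto (fun t : ℝ≥0 => 1 + (t : ℝ)) atTop atTop :=
    tendsto_atTop_add_const_left _ _ (NNReal.tendsto_coe_atTop.2 tendsto_id)
  have h4 : Tendsto (fun t : ℝ≥0 => 1 / (1 + (t : ℝ))) atTop (𝓝 0) := by
    have h5 := h3.inv_tendsto_atTop
    refine h5.congr fun t => ?_
    simp
  simpa using tendsto_const_nhds.sub h4

/-- Law of finite linear combinations of the Brownian motion. -/
lemma map_bm_linComb [IsProbabilityMeasure P] {ξ : ℕ × ℕ → Ω → ℝ}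
    (hm : ∀ i, Measurable (ξ i))
    (hlaw : ∀ i, HasLaw (ξ i) (gaussianReal 0 1) P) (hind : iIndepFun ξ P)
    {κ : Type*} (I : Finset κ) (c : κ → ℝ) (τ : κ → ℝ≥0) :
    P.map (fun ω => ∑ i ∈ I, c i * bm ξ (τ i) ω) =
      gaussianReal 0
        (∑ i ∈ I, ∑ j ∈ I, c i * c j * (min (τ i) (τ j) : ℝ≥0)).toNNReal := by
  have h := map_bridge_linComb hm hlaw hind I (fun i => c i * (1 + τ i))
    (fun i => (τ i : ℝ) / (1 + τ i)) (fun i => time_mem (τ i))
  have e1 : (fun ω => ∑ i ∈ I, c i * (1 + (τ i : ℝ)) * bridge ξ ((τ i : ℝ) / (1 + τ i)) ω) =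
      fun ω => ∑ i ∈ I, c i * bm ξ (τ i) ω := by
    ext ω
    refine Finset.sum_congr rfl fun i _ => ?_
    unfold bm; ring
  rw [e1] at h
  rw [h]
  congr 2
  refine Finset.sum_congr rfl fun i _ => Finset.sum_congr rfl fun j _ => ?_
  have key : ∀ s t : ℝ≥0, s ≤ t → (1 + (s : ℝ)) * (1 + t) *
      (min ((s : ℝ) / (1 + s)) ((t : ℝ) / (1 + t)) - (s : ℝ) / (1 + s) * ((t : ℝ) / (1 + t)))
      = (min s t : ℝ≥0) := by
    intro s t hst
    have hs0 : (0 : ℝ) ≤ s := s.2
    have ht0 : (0 : ℝ) ≤ t := t.2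
    have hst' : (s : ℝ) ≤ t := hst
    rw [min_eq_left hst, min_eq_left]
    · field_simp
      ring
    · rw [div_le_div_iff₀ (by positivity) (by positivity)]
      nlinarith
  rcases le_total (τ i) (τ j) with h | h
  · rw [← key _ _ h]; ring
  · have := key _ _ h
    rw [min_comm (τ i) (τ j), ← this, min_comm ((τ i : ℝ) / (1 + τ i))]
    ring

lemma isGaussianProcess_bm [IsProbabilityMeasure P] {ξ : ℕ × ℕ → Ω → ℝ}
    (hm : ∀ i, Measurable (ξ i))
    (hlaw : ∀ i, HasLaw (ξ i) (gaussianReal 0 1) P) (hind : iIndepFun ξ P) :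
    IsGaussianProcess (bm ξ) P where
  hasGaussianLaw I := by
    refine ⟨isGaussian_of_map_eq_gaussianReal fun L => ?_⟩
    have hmeas : Measurable fun ω => I.restrict (bm ξ · ω) :=
      measurable_pi_lambda _ fun i => measurable_bm hm _
    rw [Measure.map_map (by fun_prop) hmeas]
    classical
    have e : (L ∘ fun ω => I.restrict (bm ξ · ω)) =
        fun ω => ∑ i ∈ (Finset.univ : Finset I), L (Pi.single i 1) * bm ξ (i : ℝ≥0) ω := by
      ext ω
      simp only [Function.comp_apply]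
      have h1 : I.restrict (bm ξ · ω) =
          ∑ i : I, (bm ξ (i : ℝ≥0) ω) • (Pi.single i (1 : ℝ) : I → ℝ) := by
        ext j
        simp [Finset.sum_apply, Pi.single_apply]
      rw [h1, map_sum]
      refine Finset.sum_congr rfl fun i _ => ?_
      rw [map_smul, smul_eq_mul, mul_comm]
    rw [e]
    exact ⟨0, _, map_bm_linComb hm hlaw hind Finset.univ _ (fun i : I => (i : ℝ≥0))⟩

lemma isPreBrownianReal_bm [IsProbabilityMeasure P] {ξ : ℕ × ℕ → Ω → ℝ}
    (hm : ∀ i, Measurable (ξ i))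
    (hlaw : ∀ i, HasLaw (ξ i) (gaussianReal 0 1) P) (hind : iIndepFun ξ P) :
    IsPreBrownianReal (bm ξ) P := by
  have hG := isGaussianProcess_bm hm hlaw hind
  have h1 : ∀ t, P.map (bm ξ t) = gaussianReal 0 t := by
    intro t
    have := map_bm_linComb hm hlaw hind ({()} : Finset Unit) (fun _ => 1) (fun _ => t)
    simpa using this
  have hvar : ∀ t, Var[bm ξ t; P] = t := by
    intro t
    have : HasLaw (bm ξ t) (gaussianReal 0 t) P := ⟨(measurable_bm hm t).aemeasurable, h1 t⟩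
    rw [this.variance_eq, variance_id_gaussianReal]
  refine hG.isPreBrownianReal_of_covariance (fun t => ?_) (fun s t hst => ?_)
  · have : HasLaw (bm ξ t) (gaussianReal 0 t) P := ⟨(measurable_bm hm t).aemeasurable, h1 t⟩
    rw [this.integral_eq, integral_id_gaussianReal]
  · have hms := (hG.hasGaussianLaw_eval s).memLp_two
    have hmt := (hG.hasGaussianLaw_eval t).memLp_two
    have h2 := map_bm_linComb hm hlaw hind (Finset.univ : Finset Bool) (fun _ => 1)
      (fun b => cond b s t)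
    simp only [Fintype.univ_bool, Finset.mem_singleton, Bool.true_eq_false, not_false_eq_true,
      Finset.sum_insert, Finset.sum_singleton, cond_true, cond_false, one_mul, min_self,
      min_eq_left hst, min_eq_right hst] at h2
    have h3 : Var[bm ξ s + bm ξ t; P] = 3 * s + t := by
      have : HasLaw (bm ξ s + bm ξ t) (gaussianReal 0
          ((s : ℝ) + s + (s + t)).toNNReal) P :=
        ⟨((measurable_bm hm s).add (measurable_bm hm t)).aemeasurable, h2⟩
      rw [this.variance_eq, variance_id_gaussianReal, Real.coe_toNNReal _ (by positivity)]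
      ring
    rw [variance_add hms hmt, hvar, hvar] at h3
    linarith

end

/-- **Existence of Brownian motion** (all paths continuous, started at `0`, with
`B t / (1 + t) → 0` everywhere). -/
theorem exists_brownianMotion : ∃ (Ω : Type) (_mΩ : MeasurableSpace Ω) (P : Measure Ω)
    (B : ℝ≥0 → Ω → ℝ), IsProbabilityMeasure P ∧ IsPreBrownianReal B P ∧
      (∀ t, Measurable (B t)) ∧ (∀ ω, Continuous fun t => B t ω) ∧ (∀ ω, B 0 ω = 0) ∧
      (∀ ω, Tendsto (fun t : ℝ≥0 => B t ω / (1 + t)) atTop (𝓝 0)) := by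
  obtain ⟨Ω, mΩ, P, ξ, hm, hlaw, hind, hP⟩ := exists_iid (ℕ × ℕ) (gaussianReal 0 1)
  exact ⟨Ω, mΩ, P, bm ξ, hP, isPreBrownianReal_bm hm hlaw hind, measurable_bm hm,
    continuous_bm ξ, bm_zero ξ, tendsto_bm ξ⟩

end Pool.Agent.H85.BM
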