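import Mathlib

/-!
# Optional stopping for continuous martingales in continuous time

`martingale_stoppedProcess`: a martingale indexed by `ℝ≥0` with continuous paths, stopped at a
stopping time (no right-continuity of the filtration is assumed), is a martingale.
-/

open MeasureTheory ProbabilityTheory Filter Topology Set
open scoped NNReal ENNReal

namespace Pool.Agent.H85.BM

variable {Ω : Type*} {mΩ : MeasurableSpace Ω} {P : Measure Ω}

/-- round up to the grid `ℕ / (n+1)` -/
noncomputable def rup (n : ℕ) (x : ℝ≥0) : ℝ≥0 := (⌈x * (n + 1)⌉₊ : ℝ≥0) / (n + 1)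

lemma le_rup (n : ℕ) (x : ℝ≥0) : x ≤ rup n x := by
  unfold rup
  rw [le_div_iff₀ (by positivity)]
  exact Nat.le_ceil _

lemma rup_le (n : ℕ) (x : ℝ≥0) : (rup n x : ℝ) ≤ x + 1 / (n + 1) := by
  unfold rup
  push_cast
  rw [div_le_iff₀ (by positivity)]
  have h := (Nat.ceil_lt_add_one (a := x * (n + 1)) zero_le).le
  have h2 : ((⌈x * ((n : ℝ≥0) + 1)⌉₊ : ℝ≥0) : ℝ) ≤ ((x * (n + 1) + 1 : ℝ≥0) : ℝ) := by
    exact_mod_cast h
  push_cast at h2
  refine h2.trans (le_of_eq ?_)
  field_simp

lemma rup_le_iff (n : ℕ) (x r : ℝ≥0) :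
    rup n x ≤ r ↔ x ≤ (⌊r * (n + 1)⌋₊ : ℝ≥0) / (n + 1) := by
  unfold rup
  rw [div_le_iff₀ (by positivity), le_div_iff₀ (by positivity),
    ← Nat.le_floor_iff zero_le, Nat.ceil_le]

lemma floor_div_le (n : ℕ) (r : ℝ≥0) : (⌊r * (n + 1)⌋₊ : ℝ≥0) / (n + 1) ≤ r := by
  rw [div_le_iff₀ (by positivity)]
  exact Nat.floor_le zero_le

/-- discretised stopping time -/
noncomputable def dst (n : ℕ) (τ : Ω → WithTop ℝ≥0) (t : ℝ≥0) (ω : Ω) : WithTop ℝ≥0 :=
  min ((τ ω).map (rup n)) t

lemma isStoppingTime_dst {𝓖 : Filtration ℝ≥0 mΩ} {τ : Ω → WithTop ℝ≥0}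
    (hτ : IsStoppingTime 𝓖 τ) (n : ℕ) (t : ℝ≥0) : IsStoppingTime 𝓖 (dst n τ t) := by
  have h1 : IsStoppingTime 𝓖 (fun ω => (τ ω).map (rup n)) := by
    intro r
    have e : {ω | (τ ω).map (rup n) ≤ (r : WithTop ℝ≥0)} =
        {ω | τ ω ≤ (((⌊r * (n + 1)⌋₊ : ℝ≥0) / (n + 1) : ℝ≥0) : WithTop ℝ≥0)} := by
      ext ω
      simp only [mem_ofPred_eq]
      induction h : τ ω using WithTop.recTopCoe with
      | top =>
        rw [WithTop.map_top]
        exact iff_of_false (not_le.2 (WithTop.coe_lt_top _)) (not_le.2 (WithTop.coe_lt_top _))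
      | coe x =>
        rw [WithTop.map_coe, WithTop.coe_le_coe, WithTop.coe_le_coe]
        exact rup_le_iff n x r
    rw [e]
    exact 𝓖.mono (floor_div_le n r) _ (hτ _)
  exact h1.min_const t

lemma dst_le (n : ℕ) (τ : Ω → WithTop ℝ≥0) (t : ℝ≥0) (ω : Ω) : dst n τ t ω ≤ t := min_le_right _ _

lemma countable_range_dst (n : ℕ) (τ : Ω → WithTop ℝ≥0) (t : ℝ≥0) :
    (Set.range (dst n τ t)).Countable := by
  have h : Set.range (dst n τ t) ⊆
      insert ((t : WithTop ℝ≥0)) (Set.range fun k : ℕ => (((k : ℝ≥0) / (n + 1) : ℝ≥0) : WithTop ℝ≥0)) := by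
    rintro _ ⟨ω, rfl⟩
    unfold dst
    rcases min_choice ((τ ω).map (rup n)) (t : WithTop ℝ≥0) with h | h
    · rw [h]
      induction hx : τ ω using WithTop.recTopCoe with
      | top =>
        rw [hx] at h
        have h2 := min_le_right (WithTop.map (rup n) ⊤) (t : WithTop ℝ≥0)
        rw [h, WithTop.map_top] at h2
        exact absurd h2 (not_le.2 (WithTop.coe_lt_top _))
      | coe x =>
        right
        rw [WithTop.map_coe]
        exact ⟨⌈x * (n + 1)⌉₊, rfl⟩
    · rw [h]; left; rfl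
  exact Set.Countable.mono h ((Set.countable_range _).insert _)

lemma min_le_dst (n : ℕ) (τ : Ω → WithTop ℝ≥0) (t : ℝ≥0) (ω : Ω) :
    min (t : WithTop ℝ≥0) (τ ω) ≤ dst n τ t ω := by
  unfold dst
  induction hx : τ ω using WithTop.recTopCoe with
  | top => rw [WithTop.map_top, min_comm]
  | coe x =>
    rw [WithTop.map_coe, min_comm]
    exact min_le_min_right _ (WithTop.coe_le_coe.2 (le_rup n x))

/-- the discretised times converge -/
lemma tendsto_untopA_dst (τ : Ω → WithTop ℝ≥0) (t : ℝ≥0) (ω : Ω) :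
    Tendsto (fun n => (dst n τ t ω).untopA) atTop (𝓝 (min (t : WithTop ℝ≥0) (τ ω)).untopA) := by
  unfold dst
  induction hx : τ ω using WithTop.recTopCoe with
  | top =>
    simp only [WithTop.map_top]
    rw [min_comm]
    exact tendsto_const_nhds
  | coe x =>
    have e1 : ∀ n, (min ((x : WithTop ℝ≥0).map (rup n)) t).untopA = min (rup n x) t := by
      intro n
      rw [WithTop.map_coe, ← WithTop.coe_min]
      rfl
    have e2 : (min (t : WithTop ℝ≥0) (x : WithTop ℝ≥0)).untopA = min x t := by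
      rw [← WithTop.coe_min, min_comm]
      rfl
    simp_rw [e1]
    rw [e2]
    refine Tendsto.min ?_ tendsto_const_nhds
    rw [← NNReal.tendsto_coe]
    refine tendsto_of_tendsto_of_tendsto_of_le_of_le tendsto_const_nhds ?_
      (fun n => NNReal.coe_le_coe.2 (le_rup n x)) (fun n => rup_le n x)
    simpa using (tendsto_one_div_add_atTop_nhds_zero_nat (𝕜 := ℝ)).const_add (x : ℝ)

/-- **Optional stopping, continuous time.** -/
theorem martingale_stoppedProcess [IsProbabilityMeasure P] {𝓖 : Filtration ℝ≥0 mΩ}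
    {M : ℝ≥0 → Ω → ℝ} (hM : Martingale M 𝓖 P) (hc : ∀ ω, Continuous fun t => M t ω)
    {τ : Ω → WithTop ℝ≥0} (hτ : IsStoppingTime 𝓖 τ) :
    Martingale (stoppedProcess M τ) 𝓖 P := by
  have hadapt : StronglyAdapted 𝓖 (stoppedProcess M τ) :=
    StronglyAdapted.stoppedProcess hM.stronglyAdapted hc hτ
  -- `L¹` convergence of the discretisations
  have hUI : ∀ t, UniformIntegrable (fun n => stoppedValue M (dst n τ t)) 1 P := by
    intro t
    have h1 := (hM.integrable t).uniformIntegrable_condExp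
      (ℱ := fun n => (isStoppingTime_dst hτ n t).measurableSpace)
      (fun n => (isStoppingTime_dst hτ n t).measurableSpace_le)
    refine h1.ae_eq fun n => ?_
    exact (hM.stoppedValue_ae_eq_condExp_of_le_const_of_countable_range
      (isStoppingTime_dst hτ n t) (dst_le n τ t) (countable_range_dst n τ t)).symm
  have hlim : ∀ t ω, Tendsto (fun n => stoppedValue M (dst n τ t) ω) atTop
      (𝓝 (stoppedProcess M τ t ω)) := by
    intro t ω
    exact ((hc ω).tendsto _).comp (tendsto_untopA_dst τ t ω)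
  have hmem : ∀ t, MemLp (stoppedProcess M τ t) 1 P := by
    intro t
    refine (hUI t).memLp_of_tendstoInMeasure (u := atTop) ?_
    exact tendstoInMeasure_of_tendsto_ae (fun n => ((hUI t).memLp n).aestronglyMeasurable)
      (ae_of_all _ (hlim t))
  have hL1 : ∀ t, Tendsto (fun n => eLpNorm (stoppedValue M (dst n τ t) - stoppedProcess M τ t)
      1 P) atTop (𝓝 0) := fun t =>
    tendsto_Lp_finite_of_tendsto_ae le_rfl ENNReal.one_ne_top
      (fun n => ((hUI t).memLp n).aestronglyMeasurable) (hmem t) (hUI t).unifIntegrable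
      (ae_of_all _ (hlim t))
  have hint : ∀ t, Integrable (stoppedProcess M τ t) P := fun t =>
    memLp_one_iff_integrable.1 (hmem t)
  refine ⟨hadapt, fun s t hst => ?_⟩
  rcases eq_or_lt_of_le hst with rfl | hlt
  · exact (condExp_of_stronglyMeasurable (𝓖.le s) (hadapt s) (hint s)).eventuallyEq
  symm
  refine ae_eq_condExp_of_forall_setIntegral_eq (𝓖.le s) (hint t)
    (fun _ _ _ => (hint s).integrableOn) (fun A hA _ => ?_) (hadapt s).aestronglyMeasurable
  have hA' : MeasurableSet A := 𝓖.le s _ hA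
  -- the part after `s`
  set C : Set Ω := {ω | τ ω ≤ s} with hC
  have hCs : MeasurableSet[𝓖 s] C := hτ s
  have hC' : MeasurableSet C := 𝓖.le s _ hCs
  have key : ∫ ω in A \ C, stoppedProcess M τ t ω ∂P = ∫ ω in A \ C, M s ω ∂P := by
    have hAC : MeasurableSet[𝓖 s] (A \ C) := hA.diff hCs
    have hAC' : MeasurableSet (A \ C) := hA'.diff hC'
    have h1 : ∀ n, ∫ ω in A \ C, stoppedValue M (dst n τ t) ω ∂P = ∫ ω in A \ C, M s ω ∂P := by
      intro n
      have hst := isStoppingTime_dst hτ n t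
      have hACn : MeasurableSet[hst.measurableSpace] (A \ C) := by
        rw [hst.measurableSet]
        refine ⟨(le_iSup (fun t => (𝓖 t : MeasurableSpace Ω)) s) _ hAC, fun r => ?_⟩
        rcases le_or_gt s r with hr | hr
        · exact (𝓖.mono hr _ hAC).inter (hst r)
        · have : (A \ C) ∩ {ω | dst n τ t ω ≤ r} = ∅ := by
            ext ω
            simp only [mem_inter_iff, Set.mem_sdiff, mem_ofPred_eq, mem_empty_iff_false, iff_false,
              not_and, hC, not_le]
            rintro ⟨_, hω⟩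
            have h2 : (s : WithTop ℝ≥0) < dst n τ t ω :=
              lt_of_lt_of_le (lt_min (WithTop.coe_lt_coe.2 hlt) hω) (min_le_dst n τ t ω)
            exact lt_trans (WithTop.coe_lt_coe.2 hr) h2
          rw [this]
          exact @MeasurableSet.empty _ (𝓖 r)
      have e1 := hM.stoppedValue_ae_eq_condExp_of_le_const_of_countable_range
        hst (dst_le n τ t) (countable_range_dst n τ t)
      calc ∫ ω in A \ C, stoppedValue M (dst n τ t) ω ∂P
          = ∫ ω in A \ C, (P[M t | hst.measurableSpace]) ω ∂P := by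
            refine setIntegral_congr_ae hAC' ?_
            filter_upwards [e1] with ω h _ using h
        _ = ∫ ω in A \ C, M t ω ∂P :=
            setIntegral_condExp hst.measurableSpace_le (hM.integrable t) hACn
        _ = ∫ ω in A \ C, M s ω ∂P := by
            rw [← hM.setIntegral_eq hlt.le hAC]
    have h2 : Tendsto (fun n => ∫ ω in A \ C, stoppedValue M (dst n τ t) ω ∂P) atTop
        (𝓝 (∫ ω in A \ C, stoppedProcess M τ t ω ∂P)) := by
      refine tendsto_setIntegral_of_L1' _ (hint t).aestronglyMeasurable ?_ (hL1 t) (A \ C)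
      exact Eventually.of_forall fun n => memLp_one_iff_integrable.1 ((hUI t).memLp n)
    simp_rw [h1] at h2
    exact (tendsto_nhds_unique h2 tendsto_const_nhds)
  have e1 : ∫ ω in A ∩ C, stoppedProcess M τ t ω ∂P =
      ∫ ω in A ∩ C, stoppedProcess M τ s ω ∂P := by
    refine setIntegral_congr_fun (hA'.inter hC') fun ω hω => ?_
    have h1 : τ ω ≤ s := hω.2
    have h2 : τ ω ≤ t := h1.trans (WithTop.coe_le_coe.2 hst)
    rw [stoppedProcess_eq_of_ge h1, stoppedProcess_eq_of_ge h2]
  have e2 : ∫ ω in A \ C, M s ω ∂P = ∫ ω in A \ C, stoppedProcess M τ s ω ∂P := by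
    refine setIntegral_congr_fun (hA'.diff hC') fun ω hω => ?_
    have h1 : (s : WithTop ℝ≥0) ≤ τ ω := (not_le.1 hω.2).le
    rw [stoppedProcess_eq_of_le h1]
  rw [← integral_inter_add_sdiff hC' (hint s).integrableOn,
    ← integral_inter_add_sdiff hC' (hint t).integrableOn, e1, key, e2]

end Pool.Agent.H85.BM
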