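import Mathlib
import Pool.Agent.H85.StopMart
import Pool.Agent.H85.Glue

/-!
# Continuous martingales of finite variation are constant
-/

open MeasureTheory ProbabilityTheory Filter Topology Set
open scoped NNReal ENNReal

namespace Pool.Agent.H85.BM

variable {Ω : Type*} {mΩ : MeasurableSpace Ω} {P : Measure Ω}

lemma integral_bdd_mul_incr [IsProbabilityMeasure P] {𝓖 : Filtration ℝ≥0 mΩ}
    {D : ℝ≥0 → Ω → ℝ} (hD : Martingale D 𝓖 P) {s u : ℝ≥0} (hsu : s ≤ u) {W : Ω → ℝ}
    (hW : Measurable[𝓖 s] W) {C : ℝ} (hWb : ∀ ω, |W ω| ≤ C) :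
    ∫ ω, W ω * (D u ω - D s ω) ∂P = 0 := by
  have hsub : Integrable (fun ω => D u ω - D s ω) P := (hD.integrable u).sub (hD.integrable s)
  have hWm : Measurable W := hW.mono (𝓖.le s) le_rfl
  have hprod : Integrable (W * fun ω => D u ω - D s ω) P := by
    refine hsub.bdd_mul (c := C) hWm.aestronglyMeasurable (ae_of_all _ fun ω => ?_)
    rw [Real.norm_eq_abs]; exact hWb ω
  have h1 := condExp_mul_of_stronglyMeasurable_left (m := 𝓖 s) (μ := P)
    hW.stronglyMeasurable hprod hsub
  have h2 : P[fun ω => D u ω - D s ω | 𝓖 s] =ᵐ[P] 0 := by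
    have e1 := condExp_sub (μ := P) (hD.integrable u) (hD.integrable s) (𝓖 s)
    have e2 := hD.condExp_ae_eq hsu
    have e3 := hD.condExp_ae_eq (le_refl s)
    have e4 : (fun ω => D u ω - D s ω) = D u - D s := rfl
    rw [e4]
    filter_upwards [e1, e2, e3] with ω a b c
    rw [a, Pi.sub_apply, b, c, sub_self]; rfl
  have h3 : ∫ ω, (W * fun ω => D u ω - D s ω) ω ∂P = 0 := by
    rw [← integral_condExp (𝓖.le s) (f := W * fun ω => D u ω - D s ω)]
    rw [integral_congr_ae (g := fun _ => (0 : ℝ))]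
    · simp
    · filter_upwards [h1, h2] with ω a b
      rw [a, Pi.mul_apply, b]; simp
  exact h3

/-- **A bounded continuous martingale of finite variation is constant.** -/
theorem bounded_fv_martingale [IsProbabilityMeasure P] {𝓖 : Filtration ℝ≥0 mΩ}
    {D : ℝ≥0 → Ω → ℝ} (hD : Martingale D 𝓖 P) (hc : ∀ ω, Continuous fun t => D t ω) {K : ℝ}
    (hb : ∀ t ω, |D t ω| ≤ K) (t : ℝ≥0)
    (hfv : ∀ᵐ ω ∂P, ∃ C : ℕ, ∀ n : ℕ,
      ∑ j ∈ Finset.range (n + 1), |D (pt 0 t n (j + 1)) ω - D (pt 0 t n j) ω| ≤ C) :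
    ∀ᵐ ω ∂P, D t ω = D 0 ω := by
  rcases isEmpty_or_nonempty Ω with hE | ⟨⟨ω₀⟩⟩
  · exact ae_of_all _ fun ω => (hE.false ω).elim
  have hK : 0 ≤ K := (abs_nonneg _).trans (hb 0 ω₀)
  set Δ : ℕ → ℕ → Ω → ℝ := fun n j ω => D (pt 0 t n (j + 1)) ω - D (pt 0 t n j) ω with hΔ
  have hpm : ∀ n j, pt 0 t n j ≤ pt 0 t n (j + 1) := fun n j => pt_mono 0 t n (Nat.le_succ j)
  have hDm : ∀ s, Measurable[𝓖 s] (D s) := fun s => (hD.stronglyMeasurable s).measurable
  have hDm' : ∀ s, Measurable (D s) := fun s => (hDm s).mono (𝓖.le s) le_rfl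
  have hΔb : ∀ n j ω, |Δ n j ω| ≤ 2 * K := by
    intro n j ω
    have h1 := hb (pt 0 t n (j + 1)) ω
    have h2 := hb (pt 0 t n j) ω
    calc |Δ n j ω| ≤ |D (pt 0 t n (j + 1)) ω| + |D (pt 0 t n j) ω| := abs_sub _ _
      _ ≤ 2 * K := by linarith
  -- variation sums
  set S : ℕ → ℕ → Ω → ℝ := fun n i ω => ∑ j ∈ Finset.range i, |Δ n j ω| with hS
  have hSmono : ∀ n ω, Monotone fun i => S n i ω := by
    intro n ω
    refine monotone_nat_of_le_succ fun i => ?_
    simp only [hS, Finset.sum_range_succ]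
    linarith [abs_nonneg (Δ n i ω)]
  have hΔm : ∀ n j i, j < i → Measurable[𝓖 (pt 0 t n i)] (Δ n j) := by
    intro n j i hji
    have h1 : Measurable[𝓖 (pt 0 t n i)] (D (pt 0 t n (j + 1))) :=
      (hDm _).mono (𝓖.mono (pt_mono 0 t n (Nat.succ_le_of_lt hji))) le_rfl
    have h2 : Measurable[𝓖 (pt 0 t n i)] (D (pt 0 t n j)) :=
      (hDm _).mono (𝓖.mono (pt_mono 0 t n hji.le)) le_rfl
    exact h1.sub h2
  have hSm : ∀ n i, Measurable[𝓖 (pt 0 t n i)] (S n i) := by
    intro n i
    refine Finset.measurable_fun_sum _ fun j hj => ?_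
    exact continuous_abs.measurable.comp (hΔm n j i (Finset.mem_range.1 hj))
  -- for every `k`, `D t = D 0` on the event that all variation sums are `≤ k`
  have main : ∀ k : ℕ, ∀ᵐ ω ∂P, (∀ n, S n (n + 1) ω ≤ k) → D t ω = D 0 ω := by
    intro k
    set χ : ℕ → ℕ → Ω → ℝ := fun n i => {ω | S n i ω ≤ k}.indicator (fun _ => (1 : ℝ)) with hχ
    have hχm : ∀ n i, Measurable[𝓖 (pt 0 t n i)] (χ n i) := fun n i =>
      measurable_const.indicator ((hSm n i) measurableSet_Iic)
    have hχ01 : ∀ n i ω, 0 ≤ χ n i ω ∧ χ n i ω ≤ 1 := by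
      intro n i ω
      simp only [hχ, Set.indicator]
      split_ifs <;> norm_num
    set Z : ℕ → ℕ → Ω → ℝ := fun n i ω => ∑ j ∈ Finset.range i, χ n j ω * Δ n j ω with hZ
    have hZm : ∀ n i, Measurable[𝓖 (pt 0 t n i)] (Z n i) := by
      intro n i
      refine Finset.measurable_fun_sum _ fun j hj => ?_
      have hji := Finset.mem_range.1 hj
      exact ((hχm n j).mono (𝓖.mono (pt_mono 0 t n hji.le)) le_rfl).mul (hΔm n j i hji)
    have hZm' : ∀ n i, Measurable (Z n i) := fun n i => (hZm n i).mono (𝓖.le _) le_rfl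
    have hχΔb : ∀ n j ω, |χ n j ω * Δ n j ω| ≤ 2 * K := by
      intro n j ω
      rw [abs_mul, abs_of_nonneg (hχ01 n j ω).1]
      calc χ n j ω * |Δ n j ω| ≤ 1 * |Δ n j ω| := by
            gcongr; exact (hχ01 n j ω).2
        _ ≤ 2 * K := by rw [one_mul]; exact hΔb n j ω
    have hZb : ∀ n i ω, |Z n i ω| ≤ i * (2 * K) := by
      intro n i ω
      refine (Finset.abs_sum_le_sum_abs _ _).trans ?_
      refine (Finset.sum_le_sum fun j _ => hχΔb n j ω).trans ?_
      simp
    have hZ2i : ∀ n i, Integrable (fun ω => (Z n i ω) ^ 2) P := by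
      intro n i
      refine Integrable.mono' (integrable_const ((i * (2 * K)) ^ 2))
        ((hZm' n i).pow_const 2).aestronglyMeasurable (ae_of_all _ fun ω => ?_)
      rw [Real.norm_eq_abs, abs_of_nonneg (sq_nonneg _)]
      exact sq_le_sq' (by linarith [abs_le.1 (hZb n i ω)]) (abs_le.1 (hZb n i ω)).2
    have hΔm' : ∀ n j, Measurable (Δ n j) := fun n j => (hDm' _).sub (hDm' _)
    have hχm' : ∀ n i, Measurable (χ n i) := fun n i => (hχm n i).mono (𝓖.le _) le_rfl
    have hq2i : ∀ n j, Integrable (fun ω => (χ n j ω * Δ n j ω) ^ 2) P := by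
      intro n j
      refine Integrable.mono' (integrable_const ((2 * K) ^ 2))
        (((hχm' n j).mul (hΔm' n j)).pow_const 2).aestronglyMeasurable (ae_of_all _ fun ω => ?_)
      rw [Real.norm_eq_abs, abs_of_nonneg (sq_nonneg _)]
      exact sq_le_sq' (by linarith [abs_le.1 (hχΔb n j ω)]) (abs_le.1 (hχΔb n j ω)).2
    -- orthogonality
    have horth : ∀ n i, ∫ ω, (Z n i ω) ^ 2 ∂P =
        ∫ ω, ∑ j ∈ Finset.range i, (χ n j ω * Δ n j ω) ^ 2 ∂P := by
      intro n i
      induction i with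
      | zero => simp [hZ]
      | succ i ih =>
        have e1 : ∀ ω, (Z n (i + 1) ω) ^ 2 = (Z n i ω) ^ 2 + (χ n i ω * Δ n i ω) ^ 2 +
            (2 * Z n i ω * χ n i ω) * (D (pt 0 t n (i + 1)) ω - D (pt 0 t n i) ω) := by
          intro ω
          simp only [hZ, Finset.sum_range_succ, hΔ]
          ring
        have hW : Measurable[𝓖 (pt 0 t n i)] fun ω => 2 * Z n i ω * χ n i ω :=
          ((hZm n i).const_mul 2).mul (hχm n i)
        have hWb : ∀ ω, |2 * Z n i ω * χ n i ω| ≤ 2 * (i * (2 * K)) := by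
          intro ω
          rw [abs_mul, abs_of_nonneg (hχ01 n i ω).1, abs_mul, abs_of_pos (by norm_num : (0:ℝ) < 2)]
          have h1 := hZb n i ω
          have h2 := (hχ01 n i ω)
          calc 2 * |Z n i ω| * χ n i ω ≤ 2 * |Z n i ω| * 1 := by gcongr; exact h2.2
            _ ≤ 2 * (i * (2 * K)) := by linarith
        have h0 := integral_bdd_mul_incr hD (hpm n i) hW hWb
        have hi3 : Integrable (fun ω => (2 * Z n i ω * χ n i ω) *
            (D (pt 0 t n (i + 1)) ω - D (pt 0 t n i) ω)) P := by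
          refine ((hD.integrable _).sub (hD.integrable _)).bdd_mul (c := 2 * (i * (2 * K)))
            (hW.mono (𝓖.le _) le_rfl).aestronglyMeasurable (ae_of_all _ fun ω => ?_)
          rw [Real.norm_eq_abs]; exact hWb ω
        simp_rw [e1]
        have e2 : ∫ ω, ((Z n i ω) ^ 2 + (χ n i ω * Δ n i ω) ^ 2 +
            (2 * Z n i ω * χ n i ω) * (D (pt 0 t n (i + 1)) ω - D (pt 0 t n i) ω)) ∂P =
            (∫ ω, ((Z n i ω) ^ 2 + (χ n i ω * Δ n i ω) ^ 2) ∂P) +
            ∫ ω, (2 * Z n i ω * χ n i ω) * (D (pt 0 t n (i + 1)) ω - D (pt 0 t n i) ω) ∂P :=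
          integral_add ((hZ2i n i).add (hq2i n i)) hi3
        rw [e2, h0, add_zero, integral_add (hZ2i n i) (hq2i n i), ih]
        simp_rw [Finset.sum_range_succ]
        rw [integral_add (integrable_finsetSum _ fun j _ => hq2i n j) (hq2i n i)]
    -- bound for the truncated variation
    have hvar : ∀ n i ω, ∑ j ∈ Finset.range i, χ n j ω * |Δ n j ω| ≤ S n i ω ∧
        ∑ j ∈ Finset.range i, χ n j ω * |Δ n j ω| ≤ k + 2 * K := by
      intro n i ω
      induction i with
      | zero => simp [hS]; positivity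
      | succ i ih =>
        simp only [Finset.sum_range_succ, hS]
        have h1 := hΔb n i ω
        by_cases h : S n i ω ≤ k
        · have e : χ n i ω = 1 := by
            simp only [hχ]
            exact Set.indicator_of_mem (show ω ∈ {ω | S n i ω ≤ k} from h) _
          rw [e, one_mul]
          refine ⟨by linarith [ih.1], by linarith [ih.1]⟩
        · have e : χ n i ω = 0 := by
            simp only [hχ]
            exact Set.indicator_of_notMem (show ω ∉ {ω | S n i ω ≤ k} from h) _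
          rw [e, zero_mul, add_zero]
          refine ⟨by linarith [ih.1, abs_nonneg (Δ n i ω)], ih.2⟩
    -- the squared sums tend to zero
    set R : ℕ → Ω → ℝ := fun n ω => ∑ j ∈ Finset.range (n + 1), (χ n j ω * Δ n j ω) ^ 2 with hR
    have hRb : ∀ n ω (ε : ℝ), 0 ≤ ε → (∀ j < n + 1, |Δ n j ω| ≤ ε) →
        R n ω ≤ ε * (k + 2 * K) := by
      intro n ω ε hε h
      calc R n ω ≤ ∑ j ∈ Finset.range (n + 1), ε * (χ n j ω * |Δ n j ω|) := by
            refine Finset.sum_le_sum fun j hj => ?_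
            have h1 := h j (Finset.mem_range.1 hj)
            have h2 := hχ01 n j ω
            have e : (χ n j ω * Δ n j ω) ^ 2 = (χ n j ω * |Δ n j ω|) * (χ n j ω * |Δ n j ω|) := by
              rw [← sq_abs, abs_mul, abs_of_nonneg h2.1]; ring
            rw [e]
            refine mul_le_mul_of_nonneg_right ?_ (mul_nonneg h2.1 (abs_nonneg _))
            calc χ n j ω * |Δ n j ω| ≤ 1 * |Δ n j ω| := by gcongr; exact h2.2
              _ ≤ ε := by rw [one_mul]; exact h1
        _ = ε * ∑ j ∈ Finset.range (n + 1), χ n j ω * |Δ n j ω| := by rw [Finset.mul_sum]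
        _ ≤ ε * (k + 2 * K) := by
            gcongr; exact (hvar n (n + 1) ω).2
    have hRnn : ∀ n ω, 0 ≤ R n ω := fun n ω => Finset.sum_nonneg fun _ _ => sq_nonneg _
    have hRlim : ∀ ω, Tendsto (fun n => R n ω) atTop (𝓝 0) := by
      intro ω
      rw [Metric.tendsto_atTop]
      intro ε hε
      have huc : UniformContinuousOn (fun s => D s ω) (Icc 0 t) :=
        isCompact_Icc.uniformContinuousOn_of_continuous (hc ω).continuousOn
      rw [Metric.uniformContinuousOn_iff] at huc
      have hpos : 0 < (k : ℝ) + 2 * K + 1 := by positivity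
      obtain ⟨δ, hδ, hh⟩ := huc (ε / (k + 2 * K + 1)) (by positivity)
      have h3 : Tendsto (fun n : ℕ => (t : ℝ) / ((n : ℝ) + 1)) atTop (𝓝 0) := by
        have h4 := (tendsto_const_div_atTop_nhds_zero_nat (t : ℝ)).comp
          (tendsto_add_atTop_nat 1)
        refine h4.congr fun n => ?_
        simp
      obtain ⟨N, hN⟩ := eventually_atTop.1 (h3.eventually (gt_mem_nhds hδ))
      refine ⟨N, fun n hn => ?_⟩
      rw [Real.dist_eq, sub_zero, abs_of_nonneg (hRnn n ω)]
      have h5 : ∀ j < n + 1, |Δ n j ω| ≤ ε / (k + 2 * K + 1) := by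
        intro j hj
        have hle := hpm n j
        have h6 : dist (pt 0 t n (j + 1)) (pt 0 t n j) < δ := by
          have hle' : (pt 0 t n j : ℝ) ≤ pt 0 t n (j + 1) := hle
          rw [NNReal.dist_eq, abs_of_nonneg (by linarith)]
          unfold pt
          push_cast [NNReal.coe_sub (zero_le (a := t))]
          have : (0 : ℝ) + (t - 0) * ((j + 1) / (n + 1)) - (0 + (t - 0) * (j / (n + 1))) =
            t / (n + 1) := by ring
          rw [this]
          exact hN n hn
        have h7 := hh (pt 0 t n (j + 1)) ⟨zero_le, pt_le zero_le (by omega)⟩ (pt 0 t n j)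
          ⟨zero_le, pt_le zero_le (by omega)⟩ h6
        rw [Real.dist_eq] at h7
        exact h7.le
      refine lt_of_le_of_lt (hRb n ω _ (by positivity) h5) ?_
      rw [div_mul_eq_mul_div, div_lt_iff₀ hpos]
      nlinarith
    have hRm : ∀ n, Measurable (R n) := fun n =>
      Finset.measurable_fun_sum _ fun j _ => ((hχm' n j).mul (hΔm' n j)).pow_const 2
    have hRint : Tendsto (fun n => ∫ ω, R n ω ∂P) atTop (𝓝 0) := by
      have : (0 : ℝ) = ∫ _ω, (0 : ℝ) ∂P := by simp
      rw [this]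
      refine tendsto_integral_of_dominated_convergence (fun _ => (2 * K) * (k + 2 * K))
        (fun n => (hRm n).aestronglyMeasurable) (integrable_const _)
        (fun n => ae_of_all _ fun ω => ?_) (ae_of_all _ hRlim)
      rw [Real.norm_eq_abs, abs_of_nonneg (hRnn n ω)]
      exact hRb n ω _ (by positivity) fun j _ => hΔb n j ω
    -- conclusion
    set G : Set Ω := {ω | ∀ n, S n (n + 1) ω ≤ k} with hG
    have hGm : MeasurableSet G := by
      have : G = ⋂ n, {ω | S n (n + 1) ω ≤ k} := by ext ω; simp [hG]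
      rw [this]
      exact MeasurableSet.iInter fun n => 𝓖.le _ _ ((hSm n (n + 1)) measurableSet_Iic)
    have hZG : ∀ n, ∀ ω ∈ G, Z n (n + 1) ω = D t ω - D 0 ω := by
      intro n ω hω
      have h1 : ∀ j ∈ Finset.range (n + 1), χ n j ω * Δ n j ω =
          D (pt 0 t n (j + 1)) ω - D (pt 0 t n j) ω := by
        intro j hj
        have h2 : S n j ω ≤ k := (hSmono n ω (Finset.mem_range.1 hj).le).trans (hω n)
        have e : χ n j ω = 1 := by
          simp only [hχ]
          exact Set.indicator_of_mem (show ω ∈ {ω | S n j ω ≤ k} from h2) _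
        rw [e, one_mul]
      simp only [hZ]
      rw [Finset.sum_congr rfl h1, Finset.sum_range_sub (fun j => D (pt 0 t n j) ω),
        pt_last zero_le, pt_zero]
    have hle : ∀ n, ∫ ω in G, (D t ω - D 0 ω) ^ 2 ∂P ≤ ∫ ω, R n ω ∂P := by
      intro n
      have e1 : ∫ ω in G, (D t ω - D 0 ω) ^ 2 ∂P = ∫ ω in G, (Z n (n + 1) ω) ^ 2 ∂P := by
        refine setIntegral_congr_fun hGm fun ω hω => ?_
        rw [hZG n ω hω]
      rw [e1]
      refine (setIntegral_le_integral (hZ2i n (n + 1)) (ae_of_all _ fun ω => sq_nonneg _)).trans ?_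
      exact (horth n (n + 1)).le
    have hzero : ∫ ω in G, (D t ω - D 0 ω) ^ 2 ∂P = 0 :=
      le_antisymm (ge_of_tendsto' hRint hle) (integral_nonneg fun ω => sq_nonneg _)
    have hDi : Integrable (fun ω => (D t ω - D 0 ω) ^ 2) P := by
      refine Integrable.mono' (integrable_const ((2 * K) ^ 2))
        (((hDm' t).sub (hDm' 0)).pow_const 2).aestronglyMeasurable (ae_of_all _ fun ω => ?_)
      have h1 := hb t ω
      have h2 := hb 0 ω
      rw [Real.norm_eq_abs, abs_of_nonneg (sq_nonneg _)]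
      exact sq_le_sq' (by linarith [abs_le.1 h1, abs_le.1 h2])
        (by linarith [abs_le.1 h1, abs_le.1 h2])
    rw [integral_eq_zero_iff_of_nonneg (fun ω => sq_nonneg _) hDi.restrict] at hzero
    have h2 := (ae_restrict_iff' hGm).1 hzero
    filter_upwards [h2] with ω h3 hω
    have h4 := h3 hω
    simp only [Pi.zero_apply] at h4
    have := pow_eq_zero_iff (two_ne_zero) |>.1 h4
    linarith
  rw [← ae_all_iff] at main
  filter_upwards [main, hfv] with ω h1 h2
  obtain ⟨C, hC⟩ := h2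
  exact h1 C hC

end Pool.Agent.H85.BM
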