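import Mathlib

/-!
# Definitions for the regularity problem of continuous semimartingales

Time set `ℝ≥0`. All notions are relative to an explicitly named filtration.
-/

open MeasureTheory ProbabilityTheory Filter Topology Set
open scoped NNReal ENNReal

namespace Pool.Agent.H85.Regular

variable {Ω : Type*} {mΩ : MeasurableSpace Ω}

/-- The filtration contains all `P`-null sets in its time-zero `σ`-field. -/
def ContainsNullSets (𝓕 : Filtration ℝ≥0 mΩ) (P : Measure Ω) : Prop :=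
  ∀ s : Set Ω, P s = 0 → MeasurableSet[𝓕 0] s

/-- Continuous local martingale: adapted, continuous paths, and there are stopping times
`τ n ↑ ∞` such that each stopped process `(M - M 0)^{τ n}` is a martingale. -/
structure IsContLocalMartingale (𝓕 : Filtration ℝ≥0 mΩ) (P : Measure Ω)
    (M : ℝ≥0 → Ω → ℝ) : Prop where
  adapted : ∀ t, Measurable[𝓕 t] (M t)
  continuous : ∀ ω, Continuous fun t => M t ω
  localMart : ∃ τ : ℕ → Ω → WithTop ℝ≥0, IsLocalizingSequence 𝓕 τ P ∧
    ∀ n, Martingale (stoppedProcess (fun t ω => M t ω - M 0 ω) (τ n)) 𝓕 P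

/-- Continuous adapted process null at `0` whose paths have finite variation on compacts. -/
structure IsContFV (𝓕 : Filtration ℝ≥0 mΩ) (A : ℝ≥0 → Ω → ℝ) : Prop where
  adapted : ∀ t, Measurable[𝓕 t] (A t)
  continuous : ∀ ω, Continuous fun t => A t ω
  zero : ∀ ω, A 0 ω = 0
  fv : ∀ ω, LocallyBoundedVariationOn (fun t => A t ω) univ

/-- `Y = N + A` is a decomposition of `Y` as a continuous semimartingale of the filtration `𝓖`. -/
structure IsDecomposition (𝓖 : Filtration ℝ≥0 mΩ) (P : Measure Ω) (Y N A : ℝ≥0 → Ω → ℝ) :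
    Prop where
  locMart : IsContLocalMartingale 𝓖 P N
  fv : IsContFV 𝓖 A
  eq : ∀ᵐ ω ∂P, ∀ t, Y t ω = N t ω + A t ω

/-- Continuous semimartingale. -/
def IsContSemimartingale (𝓖 : Filtration ℝ≥0 mΩ) (P : Measure Ω) (Y : ℝ≥0 → Ω → ℝ) : Prop :=
  ∃ N A, IsDecomposition 𝓖 P Y N A

/-- `Q` is (a version of) the quadratic variation `[Y, Y]`: `Q` has continuous paths and for every
`t` and every sequence of partitions `0 = p n 0 ≤ p n 1 ≤ ⋯ ≤ p n (k n) = t` whose mesh
tends to `0`, the sums of squared increments of `Y` converge to `Q t` in probability. -/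
structure IsQuadVar (P : Measure Ω) (Y Q : ℝ≥0 → Ω → ℝ) : Prop where
  continuous : ∀ ω, Continuous fun t => Q t ω
  tendsto : ∀ (t : ℝ≥0) (k : ℕ → ℕ) (p : ℕ → ℕ → ℝ≥0), (∀ n, Monotone (p n)) →
    (∀ n, p n 0 = 0) → (∀ n, p n (k n) = t) →
    (∀ ε > 0, ∀ᶠ n in atTop, ∀ i < k n, p n (i + 1) - p n i ≤ ε) →
    TendstoInMeasure P
      (fun n ω => ∑ i ∈ Finset.range (k n), (Y (p n (i + 1)) ω - Y (p n i) ω) ^ 2) atTop (Q t)

/-- The function `a` is absolutely continuous with respect to the function `q` on every compact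
interval (`ε`-`δ` form). -/
def AbsContWrt (a q : ℝ≥0 → ℝ) : Prop :=
  ∀ T : ℝ≥0, ∀ ε > (0 : ℝ), ∃ δ > (0 : ℝ), ∀ (n : ℕ) (u v : ℕ → ℝ≥0),
    (∀ i < n, u i ≤ v i ∧ v i ≤ T) →
    Set.PairwiseDisjoint (Finset.range n : Set ℕ) (fun i => Ioc (u i) (v i)) →
    ∑ i ∈ Finset.range n, |q (v i) - q (u i)| < δ →
    ∑ i ∈ Finset.range n, |a (v i) - a (u i)| < ε

/-- `Y` is a regular continuous semimartingale of `𝓖`: `Y = N + A` with `A` almost surely
absolutely continuous with respect to `[Y, Y] = [N, N]`. -/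
def IsRegular (𝓖 : Filtration ℝ≥0 mΩ) (P : Measure Ω) (Y : ℝ≥0 → Ω → ℝ) : Prop :=
  ∃ N A Q, IsDecomposition 𝓖 P Y N A ∧ IsQuadVar P Y Q ∧
    ∀ᵐ ω ∂P, AbsContWrt (fun t => A t ω) (fun t => Q t ω)

end Pool.Agent.H85.Regular
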