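import Mathlib
import Pool.Agent.H85.FVMart
import Pool.Agent.H85.RegDefs

/-!
# Uniqueness of the decomposition of a continuous semimartingale
-/

open MeasureTheory ProbabilityTheory Filter Topology Set
open scoped NNReal ENNReal

namespace Pool.Agent.H85.BM

open Pool.Agent.H85.Regular

variable {Ω : Type*} {mΩ : MeasurableSpace Ω} {P : Measure Ω}

open Classical in
/-- first time at which `Y ≥ c` -/
noncomputable def hit (Y : ℝ≥0 → Ω → ℝ) (c : ℝ) (ω : Ω) : WithTop ℝ≥0 :=
  if ∃ t, c ≤ Y t ω then ((sInf {t | c ≤ Y t ω} : ℝ≥0) : WithTop ℝ≥0) else ⊤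

lemma hit_le_iff {Y : ℝ≥0 → Ω → ℝ} {c : ℝ} {ω : Ω} (hc : Continuous fun t => Y t ω) {r : ℝ≥0} :
    hit Y c ω ≤ r ↔ ∃ t, t ≤ r ∧ c ≤ Y t ω := by
  unfold hit
  by_cases h : ∃ t, c ≤ Y t ω
  · rw [if_pos h, WithTop.coe_le_coe]
    have hcl : IsClosed {t | c ≤ Y t ω} := isClosed_le continuous_const hc
    constructor
    · intro hle
      exact ⟨_, hle, hcl.csInf_mem h (OrderBot.bddBelow _)⟩
    · rintro ⟨t, htr, ht⟩
      exact (csInf_le (s := {t : ℝ≥0 | c ≤ Y t ω}) (OrderBot.bddBelow _) ht).trans htr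
  · rw [if_neg h]
    refine iff_of_false (not_le.2 (WithTop.coe_lt_top _)) ?_
    rintro ⟨t, _, ht⟩
    exact h ⟨t, ht⟩

lemma isStoppingTime_hit {𝓖 : Filtration ℝ≥0 mΩ} {Y : ℝ≥0 → Ω → ℝ}
    (hY : ∀ t, Measurable[𝓖 t] (Y t)) (hc : ∀ ω, Continuous fun t => Y t ω) (c : ℝ) :
    IsStoppingTime 𝓖 (hit Y c) := by
  intro r
  have e : {ω | hit Y c ω ≤ r} =
      ⋂ m : ℕ, Dset (fun t ω => Y t ω - (c - 1 / (m + 1))) 0 r := by
    ext ω
    simp only [mem_ofPred_eq, mem_iInter, Dset]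
    rw [hit_le_iff (hc ω)]
    constructor
    · rintro ⟨t, htr, ht⟩ m
      refine ⟨t, zero_le, htr, ?_⟩
      have : (0 : ℝ) < 1 / (m + 1) := by positivity
      linarith
    · intro h
      -- maximum of `Y` on `[0, r]`
      obtain ⟨x, hx, hmax⟩ := isCompact_Icc.exists_isMaxOn (s := Icc (0 : ℝ≥0) r)
        ⟨0, ⟨le_rfl, zero_le⟩⟩ (hc ω).continuousOn
      refine ⟨x, hx.2, ?_⟩
      by_contra hcon
      rw [not_le] at hcon
      obtain ⟨m, hm⟩ := exists_nat_one_div_lt (sub_pos.2 hcon)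
      obtain ⟨v, _, hv, hv2⟩ := h m
      have h2 : Y v ω ≤ Y x ω := hmax ⟨zero_le, hv⟩
      linarith
  rw [e]
  refine MeasurableSet.iInter fun m => ?_
  refine measurableSet_Dset (m := fun t => (𝓖 t : MeasurableSpace Ω)) (fun _ _ h => 𝓖.mono h)
    zero_le (fun t _ => (hY t).sub_const _) (fun ω => (hc ω).sub continuous_const)

/-- the process stopped at `hit Y c` stays below `c` if it starts below `c`. -/
lemma le_of_le_hit {Y : ℝ≥0 → Ω → ℝ} {c : ℝ} {ω : Ω} (hc : Continuous fun t => Y t ω)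
    (h0 : Y 0 ω < c) {r : ℝ≥0} (hr : (r : WithTop ℝ≥0) ≤ hit Y c ω) : Y r ω ≤ c := by
  by_contra hcon
  rw [not_le] at hcon
  obtain ⟨v, hv, hvc⟩ : ∃ v ∈ Icc 0 r, Y v ω = c := by
    have := intermediate_value_Icc (zero_le (a := r)) (f := fun t => Y t ω) hc.continuousOn
    exact this ⟨h0.le, hcon.le⟩
  have hvr : v < r := by
    refine lt_of_le_of_ne hv.2 ?_
    rintro rfl
    rw [hvc] at hcon
    exact lt_irrefl _ hcon
  have h1 : hit Y c ω ≤ v := (hit_le_iff hc).2 ⟨v, le_rfl, hvc.ge⟩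
  have h2 := hr.trans h1
  rw [WithTop.coe_le_coe] at h2
  exact absurd h2 (not_le.2 hvr)

lemma stoppedProcess_eq_min (M : ℝ≥0 → Ω → ℝ) (τ : Ω → WithTop ℝ≥0) (t : ℝ≥0) (ω : Ω) :
    stoppedProcess M τ t ω = M (min (t : WithTop ℝ≥0) (τ ω)).untopA ω := rfl

/-- `t ↦ min t τ` as a monotone `1`-Lipschitz function. -/
lemma untopA_min_le (x : WithTop ℝ≥0) (t : ℝ≥0) : (min (t : WithTop ℝ≥0) x).untopA ≤ t := by
  induction x using WithTop.recTopCoe with
  | top => rw [min_eq_left le_top]; rfl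
  | coe x => rw [← WithTop.coe_min]; exact min_le_left t x

lemma coe_untopA_min (x : WithTop ℝ≥0) (t : ℝ≥0) :
    (((min (t : WithTop ℝ≥0) x).untopA : ℝ≥0) : WithTop ℝ≥0) = min (t : WithTop ℝ≥0) x := by
  induction x using WithTop.recTopCoe with
  | top => rw [min_eq_left le_top]; rfl
  | coe x => rw [← WithTop.coe_min]; rfl

lemma untopA_min_mono (x : WithTop ℝ≥0) :
    Monotone fun t : ℝ≥0 => (min (t : WithTop ℝ≥0) x).untopA := by
  intro s t hst
  simp only
  rw [← WithTop.coe_le_coe, coe_untopA_min, coe_untopA_min]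
  exact min_le_min_right _ (WithTop.coe_le_coe.2 hst)

lemma continuous_untopA_min (x : WithTop ℝ≥0) :
    Continuous fun t : ℝ≥0 => (min (t : WithTop ℝ≥0) x).untopA := by
  induction x using WithTop.recTopCoe with
  | top =>
    have : (fun t : ℝ≥0 => (min (t : WithTop ℝ≥0) ⊤).untopA) = fun t => t := by
      ext t; rw [min_eq_left le_top]; rfl
    rw [this]; exact continuous_id
  | coe x =>
    have : (fun t : ℝ≥0 => (min (t : WithTop ℝ≥0) x).untopA) = fun t => min t x := by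
      ext t; rw [← WithTop.coe_min]; rfl
    rw [this]; fun_prop

lemma continuous_stoppedProcess {M : ℝ≥0 → Ω → ℝ} {ω : Ω} (hc : Continuous fun t => M t ω)
    (τ : Ω → WithTop ℝ≥0) : Continuous fun t => stoppedProcess M τ t ω :=
  hc.comp (continuous_untopA_min (τ ω))

lemma stoppedProcess_zero (M : ℝ≥0 → Ω → ℝ) (τ : Ω → WithTop ℝ≥0) (ω : Ω) :
    stoppedProcess M τ 0 ω = M 0 ω := by
  rw [stoppedProcess_eq_min]
  have : (min ((0 : ℝ≥0) : WithTop ℝ≥0) (τ ω)).untopA = 0 :=
    le_antisymm (untopA_min_le _ _) zero_le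
  rw [this]

/-- **A continuous process which is locally a martingale and has finite variation is constant.**-/
theorem fv_local_martingale [IsProbabilityMeasure P] {𝓖 : Filtration ℝ≥0 mΩ}
    {L : ℝ≥0 → Ω → ℝ} (hc : ∀ ω, Continuous fun t => L t ω) (h0 : ∀ ω, L 0 ω = 0)
    {θ : ℕ → Ω → WithTop ℝ≥0}
    (hθ : ∀ᵐ ω ∂P, Tendsto (fun n => θ n ω) atTop (𝓝 ⊤))
    (hL : ∀ n, Martingale (stoppedProcess L (θ n)) 𝓖 P)
    (hfv : ∀ᵐ ω ∂P, LocallyBoundedVariationOn (fun t => L t ω) univ) :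
    ∀ᵐ ω ∂P, ∀ t, L t ω = 0 := by
  -- each stopped process vanishes at each time
  have step : ∀ (n : ℕ) (t : ℝ≥0), ∀ᵐ ω ∂P, stoppedProcess L (θ n) t ω = 0 := by
    intro n t
    set M := stoppedProcess L (θ n) with hM
    have hMc : ∀ ω, Continuous fun t => M t ω := fun ω => continuous_stoppedProcess (hc ω) _
    have hM0 : ∀ ω, M 0 ω = 0 := fun ω => by rw [hM, stoppedProcess_zero, h0]
    have hMm : ∀ t, Measurable[𝓖 t] (M t) := fun t => ((hL n).stronglyMeasurable t).measurable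
    -- stop when `|M| ≥ K`
    have hstep : ∀ K : ℕ, ∀ᵐ ω ∂P,
        stoppedProcess M (hit (fun t ω => |M t ω|) (K + 1)) t ω = 0 := by
      intro K
      set ρ := hit (fun t ω => |M t ω|) ((K : ℝ) + 1) with hρ
      have hρs : IsStoppingTime 𝓖 ρ := isStoppingTime_hit
        (fun t => continuous_abs.measurable.comp (hMm t)) (fun ω => (hMc ω).abs) _
      have hmart := martingale_stoppedProcess (hL n) hMc hρs
      have hcont : ∀ ω, Continuous fun t => stoppedProcess M ρ t ω := fun ω =>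
        continuous_stoppedProcess (hMc ω) _
      have hb : ∀ t ω, |stoppedProcess M ρ t ω| ≤ (K : ℝ) + 1 := by
        intro t ω
        rw [stoppedProcess_eq_min]
        refine le_of_le_hit (Y := fun t ω => |M t ω|) (hMc ω).abs ?_ ?_
        · rw [hM0, abs_zero]; positivity
        · rw [coe_untopA_min]; exact min_le_right _ _
      have hfv' : ∀ᵐ ω ∂P, ∃ C : ℕ, ∀ m : ℕ, ∑ j ∈ Finset.range (m + 1),
          |stoppedProcess M ρ (pt 0 t m (j + 1)) ω - stoppedProcess M ρ (pt 0 t m j) ω| ≤ C := by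
        filter_upwards [hfv] with ω hω
        have hbv := hω 0 t (mem_univ _) (mem_univ _)
        obtain ⟨C, hC⟩ := exists_nat_ge
          (eVariationOn (fun t => L t ω) (univ ∩ Icc 0 t)).toReal
        refine ⟨C, fun m => ?_⟩
        -- time change
        set φ : ℝ≥0 → ℝ≥0 := fun s => (min (((min (s : WithTop ℝ≥0) (ρ ω)).untopA : ℝ≥0) :
          WithTop ℝ≥0) (θ n ω)).untopA with hφ
        have hφm : Monotone φ := (untopA_min_mono _).comp (untopA_min_mono _)
        have hφle : ∀ s, φ s ≤ s := fun s => (untopA_min_le _ _).trans (untopA_min_le _ _)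
        have hval : ∀ s, stoppedProcess M ρ s ω = L (φ s) ω := fun s => rfl
        simp_rw [hval]
        set u : ℕ → ℝ≥0 := fun j => φ (min (pt 0 t m j) t) with hu
        have hum : Monotone u := fun i j hij => hφm (min_le_min_right _ (pt_mono 0 t m hij))
        have hus : ∀ i, u i ∈ univ ∩ Icc 0 t := fun i =>
          ⟨mem_univ _, zero_le, (hφle _).trans (min_le_right _ _)⟩
        have h1 := eVariationOn.sum_le (f := fun t => L t ω) (n := m + 1) hum hus
        have h2 : ∀ j ∈ Finset.range (m + 1),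
            |L (φ (pt 0 t m (j + 1))) ω - L (φ (pt 0 t m j)) ω| =
            (edist (L (u (j + 1)) ω) (L (u j) ω)).toReal := by
          intro j hj
          have hj' := Finset.mem_range.1 hj
          have a1 : pt 0 t m (j + 1) ≤ t := pt_le zero_le (by omega)
          have a2 : pt 0 t m j ≤ t := pt_le zero_le (by omega)
          simp only [hu]
          rw [min_eq_left a1, min_eq_left a2, edist_dist, ENNReal.toReal_ofReal dist_nonneg,
            Real.dist_eq]
        rw [Finset.sum_congr rfl h2, ← ENNReal.toReal_sum (fun j _ => edist_ne_top _ _)]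
        exact (ENNReal.toReal_mono hbv h1).trans hC
      have := bounded_fv_martingale hmart hcont hb t hfv'
      filter_upwards [this] with ω hω
      have h5 : stoppedProcess M ρ t ω = stoppedProcess M ρ 0 ω := hω
      rw [h5, stoppedProcess_zero, hM0]
    rw [← ae_all_iff] at hstep
    filter_upwards [hstep] with ω hω
    -- choose `K` large
    obtain ⟨x, hx, hmax⟩ := isCompact_Icc.exists_isMaxOn (s := Icc (0 : ℝ≥0) t)
      ⟨0, ⟨le_rfl, zero_le⟩⟩ (hMc ω).abs.continuousOn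
    obtain ⟨K, hK⟩ := exists_nat_gt |M x ω|
    have h1 : (t : WithTop ℝ≥0) ≤ hit (fun t ω => |M t ω|) ((K : ℝ) + 1) ω := by
      by_contra hcon
      rw [not_le] at hcon
      obtain ⟨v, hv, hv2⟩ := (hit_le_iff (Y := fun t ω => |M t ω|) (hMc ω).abs).1 hcon.le
      have h2 : |M v ω| ≤ |M x ω| := hmax ⟨zero_le, hv⟩
      linarith
    have h3 := hω K
    rwa [stoppedProcess_eq_of_le h1] at h3
  have hLt : ∀ t, ∀ᵐ ω ∂P, L t ω = 0 := by
    intro t
    have h1 : ∀ᵐ ω ∂P, ∀ n, stoppedProcess L (θ n) t ω = 0 := ae_all_iff.2 fun n => step n t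
    filter_upwards [h1, hθ] with ω h2 h3
    have h4 : ∀ᶠ n in atTop, (t : WithTop ℝ≥0) < θ n ω :=
      h3.eventually (lt_mem_nhds (WithTop.coe_lt_top t))
    obtain ⟨n, hn⟩ := h4.exists
    have := h2 n
    rwa [stoppedProcess_eq_of_le hn.le] at this
  obtain ⟨S, hSc, hSd⟩ := TopologicalSpace.exists_countable_dense ℝ≥0
  have h1 : ∀ᵐ ω ∂P, ∀ t ∈ S, L t ω = 0 := by
    rw [ae_ball_iff hSc]
    exact fun t _ => hLt t
  filter_upwards [h1] with ω hω
  exact fun t => congrFun (Continuous.ext_on hSd (hc ω) continuous_const hω) t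

lemma eVar_add_le {α : Type*} [LinearOrder α] (f g : α → ℝ) (s : Set α) :
    eVariationOn (fun x => f x + g x) s ≤ eVariationOn f s + eVariationOn g s := by
  refine iSup_le fun p => ?_
  calc ∑ i ∈ Finset.range p.1, edist (f ((p.2 : ℕ → α) (i + 1)) + g ((p.2 : ℕ → α) (i + 1)))
        (f ((p.2 : ℕ → α) i) + g ((p.2 : ℕ → α) i))
      ≤ ∑ i ∈ Finset.range p.1, (edist (f ((p.2 : ℕ → α) (i + 1))) (f ((p.2 : ℕ → α) i)) +
        edist (g ((p.2 : ℕ → α) (i + 1))) (g ((p.2 : ℕ → α) i))) :=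
        Finset.sum_le_sum fun i _ => edist_add_add_le _ _ _ _
    _ ≤ _ := by
        rw [Finset.sum_add_distrib]
        exact add_le_add (eVariationOn.sum_le (f := f) p.2.2.1 p.2.2.2)
          (eVariationOn.sum_le (f := g) p.2.2.1 p.2.2.2)

/-- **Uniqueness of the decomposition of a continuous semimartingale.** -/
theorem IsDecomposition.unique [IsProbabilityMeasure P] {𝓖 : Filtration ℝ≥0 mΩ}
    {Y N A N' A' : ℝ≥0 → Ω → ℝ} (h : IsDecomposition 𝓖 P Y N A)
    (h' : IsDecomposition 𝓖 P Y N' A') : ∀ᵐ ω ∂P, ∀ t, A t ω = A' t ω := by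
  obtain ⟨τ, hτ, hmτ⟩ := h.locMart.localMart
  obtain ⟨τ', hτ', hmτ'⟩ := h'.locMart.localMart
  set L : ℝ≥0 → Ω → ℝ := fun t ω => (N t ω - N 0 ω) - (N' t ω - N' 0 ω) with hL
  have hNc : ∀ ω, Continuous fun t => N t ω - N 0 ω := fun ω =>
    (h.locMart.continuous ω).sub continuous_const
  have hNc' : ∀ ω, Continuous fun t => N' t ω - N' 0 ω := fun ω =>
    (h'.locMart.continuous ω).sub continuous_const
  have key : ∀ᵐ ω ∂P, ∀ t, L t ω = A' t ω - A t ω := by
    filter_upwards [h.eq, h'.eq] with ω h1 h2 t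
    have e1 := h1 t
    have e2 := h2 t
    have e3 := h1 0
    have e4 := h2 0
    rw [h.fv.zero] at e3
    rw [h'.fv.zero] at e4
    simp only [hL]
    linarith
  have main := fv_local_martingale (P := P) (𝓖 := 𝓖) (L := L)
    (fun ω => (hNc ω).sub (hNc' ω)) (fun ω => by simp [hL])
    (θ := fun n ω => min (τ n ω) (τ' n ω)) ?_ ?_ ?_
  · filter_upwards [main, key] with ω h1 h2 t
    have := h2 t
    rw [h1 t] at this
    linarith
  · filter_upwards [hτ.tendsto_top, hτ'.tendsto_top] with ω h1 h2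
    simpa using h1.min h2
  · intro n
    have m1 : Martingale (stoppedProcess (stoppedProcess (fun t ω => N t ω - N 0 ω) (τ n))
        (τ' n)) 𝓖 P :=
      martingale_stoppedProcess (hmτ n) (fun ω => continuous_stoppedProcess
        (M := fun t ω => N t ω - N 0 ω) (hNc ω) _)
        (hτ'.isStoppingTime n)
    have m2 : Martingale (stoppedProcess (stoppedProcess (fun t ω => N' t ω - N' 0 ω) (τ' n))
        (τ n)) 𝓖 P :=
      martingale_stoppedProcess (hmτ' n) (fun ω => continuous_stoppedProcess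
        (M := fun t ω => N' t ω - N' 0 ω) (hNc' ω) _)
        (hτ.isStoppingTime n)
    rw [stoppedProcess_stoppedProcess] at m1 m2
    have e : stoppedProcess L (fun ω => min (τ n ω) (τ' n ω)) =
        stoppedProcess (fun t ω => N t ω - N 0 ω) (τ' n ⊓ τ n) -
        stoppedProcess (fun t ω => N' t ω - N' 0 ω) (τ n ⊓ τ' n) := by
      rw [inf_comm (τ' n)]
      rfl
    rw [e]
    exact m1.sub m2
  · filter_upwards [key] with ω h1
    intro a b _ _
    have e : (fun t => L t ω) = fun t => A' t ω + -(A t ω) := by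
      ext t; rw [h1 t]; ring
    rw [e]
    have b1 := h'.fv.fv ω a b (mem_univ _) (mem_univ _)
    have b2 : LocallyBoundedVariationOn (fun t => -(A t ω)) univ :=
      (isometry_neg (G := ℝ)).lipschitz.comp_locallyBoundedVariationOn (h.fv.fv ω)
    exact ne_top_of_le_ne_top (ENNReal.add_ne_top.2 ⟨b1, b2 a b (mem_univ _) (mem_univ _)⟩)
      (eVar_add_le _ _ _)

end Pool.Agent.H85.BM
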