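import Mathlib

/-!
# Future supremum of a continuous path tending to `-∞`
-/

open Filter Topology Set
open scoped NNReal

namespace Pool.Agent.H85.BM

/-- future supremum -/
noncomputable def fsup (x : ℝ≥0 → ℝ) (t : ℝ≥0) : ℝ := sSup (x '' Ici t)

variable {x : ℝ≥0 → ℝ}

lemma bddAbove_image (hc : Continuous x) (hx : Tendsto x atTop atBot) (t : ℝ≥0) :
    BddAbove (x '' Ici t) := by
  obtain ⟨T, hT⟩ := eventually_atTop.1 (hx.eventually (eventually_le_atBot (x t)))
  have h1 : BddAbove (x '' Icc t T) := (isCompact_Icc.image hc).bddAbove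
  obtain ⟨M, hM⟩ := h1
  refine ⟨max M (x t), ?_⟩
  rintro _ ⟨v, hv, rfl⟩
  rcases le_total v T with h | h
  · exact (hM ⟨v, ⟨hv, h⟩, rfl⟩).trans (le_max_left _ _)
  · exact (hT v h).trans (le_max_right _ _)

lemma le_fsup (hc : Continuous x) (hx : Tendsto x atTop atBot) {t v : ℝ≥0} (h : t ≤ v) :
    x v ≤ fsup x t := le_csSup (bddAbove_image hc hx t) ⟨v, h, rfl⟩

lemma lt_fsup_iff (hc : Continuous x) (hx : Tendsto x atTop atBot) {t : ℝ≥0} {y : ℝ} :
    y < fsup x t ↔ ∃ v, t ≤ v ∧ y < x v := by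
  unfold fsup
  rw [lt_csSup_iff (bddAbove_image hc hx t) ⟨x t, t, self_mem_Ici, rfl⟩]
  simp

lemma fsup_le_iff (hc : Continuous x) (hx : Tendsto x atTop atBot) {t : ℝ≥0} {y : ℝ} :
    fsup x t ≤ y ↔ ∀ v, t ≤ v → x v ≤ y := by
  rw [← not_iff_not, not_le, lt_fsup_iff hc hx]
  push Not
  rfl

lemma antitone_fsup (hc : Continuous x) (hx : Tendsto x atTop atBot) : Antitone (fsup x) := by
  intro s t hst
  rw [fsup_le_iff hc hx]
  intro v hv
  exact le_fsup hc hx (hst.trans hv)

lemma lt_fsup_split (hc : Continuous x) (hx : Tendsto x atTop atBot) {s t : ℝ≥0} (hst : s ≤ t)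
    {y : ℝ} : y < fsup x s ↔ (∃ v, s ≤ v ∧ v ≤ t ∧ y < x v) ∨ y < fsup x t := by
  rw [lt_fsup_iff hc hx, lt_fsup_iff hc hx]
  constructor
  · rintro ⟨v, hv, hy⟩
    rcases le_total v t with h | h
    · exact Or.inl ⟨v, hv, h, hy⟩
    · exact Or.inr ⟨v, h, hy⟩
  · rintro (⟨v, hv, _, hy⟩ | ⟨v, hv, hy⟩)
    · exact ⟨v, hv, hy⟩
    · exact ⟨v, hst.trans hv, hy⟩

lemma tendsto_fsup (hc : Continuous x) (hx : Tendsto x atTop atBot) :
    Tendsto (fsup x) atTop atBot := by
  rw [tendsto_atBot]
  intro b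
  obtain ⟨T, hT⟩ := eventually_atTop.1 (hx.eventually (eventually_le_atBot b))
  filter_upwards [eventually_ge_atTop T] with t ht
  rw [fsup_le_iff hc hx]
  intro v hv
  exact hT v (ht.trans hv)

/-- `fsup x` moves by at most the oscillation of `x`. -/
lemma fsup_sub_le (hc : Continuous x) (hx : Tendsto x atTop atBot) {s t : ℝ≥0} (hst : s ≤ t)
    {ε : ℝ} (hε : ∀ v, s ≤ v → v ≤ t → x v ≤ x t + ε) (hε0 : 0 ≤ ε) :
    fsup x s ≤ fsup x t + ε := by
  rw [fsup_le_iff hc hx]
  intro v hv
  rcases le_total v t with h | h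
  · have h1 := hε v hv h
    have h2 := le_fsup hc hx (le_refl t)
    linarith
  · have h2 := le_fsup hc hx h
    linarith

lemma continuous_fsup (hc : Continuous x) (hx : Tendsto x atTop atBot) :
    Continuous (fsup x) := by
  rw [continuous_iff_continuousAt]
  intro t
  rw [Metric.continuousAt_iff]
  intro ε hε
  obtain ⟨δ, hδ, h⟩ := Metric.continuousAt_iff.1 (hc.continuousAt (x := t)) (ε / 4)
    (by positivity)
  refine ⟨δ, hδ, fun s hs => ?_⟩
  have near : ∀ v, dist v t < δ → |x v - x t| < ε / 4 := fun v hv => by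
    have := h hv
    rwa [Real.dist_eq] at this
  rw [Real.dist_eq]
  rcases le_total s t with hst | hst
  · have h1 := antitone_fsup hc hx hst
    have h2 : fsup x s ≤ fsup x t + ε / 2 := by
      refine fsup_sub_le hc hx hst (fun v hsv hvt => ?_) (by positivity)
      have hv : dist v t < δ := by
        refine lt_of_le_of_lt ?_ hs
        rw [NNReal.dist_eq, NNReal.dist_eq, abs_sub_comm, abs_sub_comm (s : ℝ)]
        have a1 : (s : ℝ) ≤ v := hsv
        have a2 : (v : ℝ) ≤ t := hvt
        rw [abs_of_nonneg (by linarith), abs_of_nonneg (by linarith)]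
        linarith
      have := (abs_lt.1 (near v hv)).2
      linarith
    rw [abs_of_nonneg (by linarith)]
    linarith
  · have h1 := antitone_fsup hc hx hst
    have h2 : fsup x t ≤ fsup x s + ε / 2 := by
      refine fsup_sub_le hc hx hst (fun v hsv hvt => ?_) (by positivity)
      have hv : dist v t < δ := by
        refine lt_of_le_of_lt ?_ hs
        rw [NNReal.dist_eq, NNReal.dist_eq]
        have a1 : (t : ℝ) ≤ v := hsv
        have a2 : (v : ℝ) ≤ s := hvt
        rw [abs_of_nonneg (by linarith), abs_of_nonneg (by linarith)]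
        linarith
      have b1 := (abs_lt.1 (near v hv)).2
      have b2 := (abs_lt.1 (near s hs)).1
      linarith
    rw [abs_sub_comm, abs_of_nonneg (by linarith)]
    linarith

/-- `fsup x` is locally constant off the set `{x = fsup x}`. -/
lemma eventually_fsup_eq (hc : Continuous x) (hx : Tendsto x atTop atBot) {t : ℝ≥0}
    (ht : x t < fsup x t) : ∀ᶠ s in 𝓝 t, fsup x s = fsup x t := by
  obtain ⟨c, hc1, hc2⟩ := exists_between ht
  have h1 : ∀ᶠ s in 𝓝 t, x s < c := hc.continuousAt.eventually (gt_mem_nhds hc1)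
  obtain ⟨δ, hδ, h⟩ := Metric.eventually_nhds_iff.1 h1
  refine Metric.eventually_nhds_iff.2 ⟨δ, hδ, fun s hs => ?_⟩
  have near : ∀ v, min s t ≤ v → v ≤ max s t → x v < c := by
    intro v hv1 hv2
    refine h (lt_of_le_of_lt ?_ hs)
    rw [NNReal.dist_eq, NNReal.dist_eq]
    have a1 : min (s : ℝ) t ≤ v := by exact_mod_cast hv1
    have a2 : (v : ℝ) ≤ max (s : ℝ) t := by exact_mod_cast hv2
    rcases le_total (s : ℝ) t with h | h
    · rw [min_eq_left h] at a1; rw [max_eq_right h] at a2
      rw [abs_sub_comm, abs_sub_comm (s : ℝ), abs_of_nonneg (by linarith),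
        abs_of_nonneg (by linarith)]
      linarith
    · rw [min_eq_right h] at a1; rw [max_eq_left h] at a2
      rw [abs_of_nonneg (by linarith), abs_of_nonneg (by linarith)]
      linarith
  -- general fact
  have key : ∀ a b : ℝ≥0, a ≤ b → (∀ v, a ≤ v → v ≤ b → x v < c) → c < fsup x a →
      fsup x a ≤ fsup x b := by
    intro a b hab hv hca
    by_contra hcon
    rw [not_le] at hcon
    have h2 : max c (fsup x b) < fsup x a := max_lt hca hcon
    rcases (lt_fsup_split hc hx hab).1 h2 with ⟨v, hv1, hv2, hv3⟩ | h3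
    · exact absurd (hv v hv1 hv2) (not_lt.2 ((le_max_left _ _).trans hv3.le))
    · exact absurd h3 (not_lt.2 (le_max_right _ _))
  rcases le_total s t with hst | hst
  · rw [min_eq_left hst, max_eq_right hst] at near
    exact le_antisymm (key s t hst near (hc2.trans_le (antitone_fsup hc hx hst)))
      (antitone_fsup hc hx hst)
  · rw [min_eq_right hst, max_eq_left hst] at near
    exact le_antisymm (antitone_fsup hc hx hst) (key t s hst near hc2)

end Pool.Agent.H85.BM
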