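import Mathlib
import Pool.Agent.H85.BMMart
import Pool.Agent.H85.PathSup

/-!
# Brownian motion with drift `-1/2` and its future supremum
-/

open MeasureTheory ProbabilityTheory Filter Topology Set
open scoped NNReal ENNReal

namespace Pool.Agent.H85.BM

variable {Ω : Type*} {mΩ : MeasurableSpace Ω} {P : Measure Ω}

/-- `X t = B t - t/2` -/
noncomputable def X (B : ℝ≥0 → Ω → ℝ) (t : ℝ≥0) (ω : Ω) : ℝ := B t ω - t / 2

/-- `K t = sup_{v ≥ t} X v` -/
noncomputable def K (B : ℝ≥0 → Ω → ℝ) (t : ℝ≥0) (ω : Ω) : ℝ := fsup (fun v => X B v ω) t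

lemma Ex_eq_exp_X (B : ℝ≥0 → Ω → ℝ) (t : ℝ≥0) (ω : Ω) : Ex B t ω = Real.exp (X B t ω) := rfl

lemma continuous_X {B : ℝ≥0 → Ω → ℝ} (hB : GoodBM P B) (ω : Ω) :
    Continuous fun t => X B t ω := by
  unfold X
  have := hB.cont ω
  fun_prop

lemma tendsto_X {B : ℝ≥0 → Ω → ℝ} (hB : GoodBM P B) (ω : Ω) :
    Tendsto (fun t => X B t ω) atTop atBot := by
  have h1 : Tendsto (fun t : ℝ≥0 => 1 + (t : ℝ)) atTop atTop :=
    tendsto_atTop_add_const_left _ _ (NNReal.tendsto_coe_atTop.2 tendsto_id)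
  have h4 : Tendsto (fun t : ℝ≥0 => 1 / (1 + (t : ℝ))) atTop (𝓝 0) := by
    have h5 := h1.inv_tendsto_atTop
    refine h5.congr fun t => ?_
    simp
  have h2 : Tendsto (fun t : ℝ≥0 => B t ω / (1 + t) - 1 / 2 + (1 / 2) * (1 / (1 + (t : ℝ))))
      atTop (𝓝 (0 - 1 / 2 + (1 / 2) * 0)) :=
    ((hB.slln ω).sub_const _).add (h4.const_mul _)
  have h3 : Tendsto (fun t : ℝ≥0 => (B t ω / (1 + t) - 1 / 2 + (1 / 2) * (1 / (1 + (t : ℝ)))) *
      (1 + (t : ℝ))) atTop atBot := by
    refine Tendsto.neg_mul_atTop (by norm_num) h2 h1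
  refine h3.congr fun t => ?_
  have ht : (0 : ℝ) ≤ t := t.2
  unfold X
  field_simp
  ring

lemma measurable_X_F0 (B : ℝ≥0 → Ω → ℝ) {s t : ℝ≥0} (hst : s ≤ t) :
    Measurable[F0 B t] (X B s) := (measurable_F0 B hst).sub_const _

lemma measurable_X {B : ℝ≥0 → Ω → ℝ} (hB : GoodBM P B) (t : ℝ≥0) : Measurable (X B t) :=
  (hB.meas t).sub_const _

lemma X_le_K {B : ℝ≥0 → Ω → ℝ} (hB : GoodBM P B) {t v : ℝ≥0} (h : t ≤ v) (ω : Ω) :
    X B v ω ≤ K B t ω := le_fsup (continuous_X hB ω) (tendsto_X hB ω) h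

lemma lt_K_iff {B : ℝ≥0 → Ω → ℝ} (hB : GoodBM P B) {t : ℝ≥0} {ω : Ω} {y : ℝ} :
    y < K B t ω ↔ ∃ v, t ≤ v ∧ y < X B v ω :=
  lt_fsup_iff (continuous_X hB ω) (tendsto_X hB ω)

/-- `{ℓ < K s}` is the union of the events `{∃ v ∈ [s,u], X v > ℓ}` -/
lemma setOf_lt_K_eq {B : ℝ≥0 → Ω → ℝ} (hB : GoodBM P B) (s : ℝ≥0) (ℓ : Ω → ℝ) :
    {ω | ℓ ω < K B s ω} = ⋃ n : ℕ, Dset (fun v ω => X B v ω - ℓ ω) s (s + n) := by
  ext ω
  simp only [mem_ofPred_eq, mem_iUnion, Dset, sub_pos]
  rw [lt_K_iff hB]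
  constructor
  · rintro ⟨v, hv, h⟩
    obtain ⟨n, hn⟩ := exists_nat_ge (v - s)
    refine ⟨n, v, hv, ?_, h⟩
    rw [← add_tsub_cancel_of_le hv]
    gcongr
  · rintro ⟨n, v, hv, _, h⟩
    exact ⟨v, hv, h⟩

lemma Dset_mono_right {Y : ℝ≥0 → Ω → ℝ} {s u u' : ℝ≥0} (h : u ≤ u') :
    Dset Y s u ⊆ Dset Y s u' := by
  rintro ω ⟨v, h1, h2, h3⟩
  exact ⟨v, h1, h2.trans h, h3⟩

lemma measurable_K {B : ℝ≥0 → Ω → ℝ} (hB : GoodBM P B) (t : ℝ≥0) : Measurable (K B t) := by
  refine measurable_of_Ioi fun y => ?_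
  have : K B t ⁻¹' Ioi y = {ω | (fun _ => y) ω < K B t ω} := rfl
  rw [this, setOf_lt_K_eq hB t (fun _ => y)]
  refine MeasurableSet.iUnion fun n => ?_
  refine F0_le hB.meas (t + n) _ ?_
  refine measurableSet_Dset (F0_mono B) le_self_add (fun v _ => ?_) (fun ω => ?_)
  · exact (measurable_X_F0 B le_rfl).sub_const _
  · exact (continuous_X hB ω).sub continuous_const

/-- **The law of the future supremum.** -/
theorem measure_lt_K {B : ℝ≥0 → Ω → ℝ} (hB : GoodBM P B) {s : ℝ≥0} {A : Set Ω}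
    (hA : MeasurableSet[F0 B s] A) {ℓ : Ω → ℝ} (hℓ : Measurable[F0 B s] ℓ)
    (hle : ∀ ω ∈ A, X B s ω ≤ ℓ ω) :
    Integrable (fun ω => A.indicator (fun ω => Real.exp (X B s ω - ℓ ω)) ω) P ∧
    P.real (A ∩ {ω | ℓ ω < K B s ω}) = ∫ ω in A, Real.exp (X B s ω - ℓ ω) ∂P := by
  have := hB.prob
  have hA' : MeasurableSet A := F0_le hB.meas s _ hA
  have hℓ' : Measurable ℓ := hℓ.mono (F0_le hB.meas s) le_rfl
  -- the weight
  set W : Ω → ℝ := A.indicator (fun ω => Real.exp (-ℓ ω)) with hWdef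
  have hWm : Measurable[F0 B s] W := (Real.measurable_exp.comp hℓ.neg).indicator hA
  have hWE : ∀ ω, W ω * Ex B s ω = A.indicator (fun ω => Real.exp (X B s ω - ℓ ω)) ω := by
    intro ω
    by_cases hω : ω ∈ A
    · simp only [hWdef, Set.indicator_of_mem hω, Ex_eq_exp_X, ← Real.exp_add]
      congr 1; ring
    · simp [hWdef, Set.indicator_of_notMem hω]
  have hW01 : ∀ ω, 0 ≤ W ω * Ex B s ω ∧ W ω * Ex B s ω ≤ 1 := by
    intro ω
    rw [hWE]
    by_cases hω : ω ∈ A
    · rw [Set.indicator_of_mem hω]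
      refine ⟨(Real.exp_pos _).le, ?_⟩
      rw [Real.exp_le_one_iff]
      have := hle ω hω
      linarith
    · rw [Set.indicator_of_notMem hω]; norm_num
  have hWEm : Measurable (fun ω => W ω * Ex B s ω) :=
    (hWm.mono (F0_le hB.meas s) le_rfl).mul
      ((measurable_Ex B le_rfl).mono (F0_le hB.meas s) le_rfl)
  have hWEi : Integrable (fun ω => W ω * Ex B s ω) P := by
    refine Integrable.mono' (integrable_const 1) hWEm.aestronglyMeasurable
      (ae_of_all _ fun ω => ?_)
    rw [Real.norm_eq_abs, abs_of_nonneg (hW01 ω).1]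
    exact (hW01 ω).2
  refine ⟨by simpa only [hWE] using hWEi, ?_⟩
  -- the martingale `1_A - W E`
  set h : ℝ≥0 → Ω → ℝ := fun t ω => A.indicator (fun _ => (1 : ℝ)) ω - W ω * Ex B t ω with hdef
  have hL2 : ∀ t, s ≤ t → MemLp (fun ω => W ω * Ex B t ω) 2 P := by
    intro t hst
    have hm : Measurable (fun ω => W ω * Ex B t ω) :=
      (hWm.mono (F0_le hB.meas s) le_rfl).mul
        ((measurable_Ex B le_rfl).mono (F0_le hB.meas t) le_rfl)
    have h1 : MemLp (fun ω => Real.exp (B t ω - B s ω - ((t - s : ℝ≥0) : ℝ) / 2)) 2 P := by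
      have h2 := memLp_poly_exp (t - s) 1 0 (((t - s : ℝ≥0) : ℝ) / 2)
      rw [← (law_incr hB hst).map_eq] at h2
      have h3 := h2.comp_of_map ((hB.meas t).sub (hB.meas s)).aemeasurable
      simpa [Function.comp_def] using h3
    refine h1.of_le hm.aestronglyMeasurable (ae_of_all _ fun ω => ?_)
    rw [Ex_eq B hst, ← mul_assoc, norm_mul, Real.norm_eq_abs, abs_of_nonneg (hW01 ω).1]
    exact mul_le_of_le_one_left (norm_nonneg _) (hW01 ω).2
  have hmart : MartOn (F0 B) P s h := by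
    constructor
    · intro t hst
      have h1 : Measurable[F0 B t] (A.indicator (fun _ => (1 : ℝ))) :=
        measurable_const.indicator (F0_mono B hst _ hA)
      exact h1.sub ((hWm.mono (F0_mono B hst) le_rfl).mul (measurable_Ex B le_rfl))
    · intro t hst
      exact ((memLp_const (1 : ℝ)).indicator hA').sub (hL2 t hst)
    · intro t u hst htu
      have hi1 : Integrable (A.indicator (fun _ => (1 : ℝ))) P :=
        (integrable_const _).indicator hA'
      have hi2 : Integrable (fun ω => W ω * Ex B u ω) P :=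
        (hL2 u (hst.trans htu)).integrable (by norm_num)
      have hi3 : Integrable (fun ω => W ω * Ex B t ω) P :=
        (hL2 t hst).integrable (by norm_num)
      have e1 := condExp_sub (μ := P) hi1 hi2 (F0 B t)
      have e2 : P[A.indicator (fun _ => (1 : ℝ)) | F0 B t] = A.indicator (fun _ => (1 : ℝ)) := by
        refine condExp_of_stronglyMeasurable (F0_le hB.meas t) ?_ hi1
        have h1 : Measurable[F0 B t] (A.indicator (fun _ => (1 : ℝ))) :=
          measurable_const.indicator (F0_mono B hst _ hA)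
        exact h1.stronglyMeasurable
      have e3 := condExp_mul_Ex hB htu (hWm.mono (F0_mono B hst) le_rfl) hi3
      have e4 : h u = A.indicator (fun _ => (1 : ℝ)) - fun ω => W ω * Ex B u ω := rfl
      rw [e4]
      filter_upwards [e1, e3] with ω h1 h2
      rw [h1, Pi.sub_apply, e2, h2]
  set Y : ℝ≥0 → Ω → ℝ := fun v ω => X B v ω - ℓ ω with hY
  have hYm : ∀ t, s ≤ t → Measurable[F0 B t] (Y t) := fun t hst =>
    (measurable_X_F0 B le_rfl).sub (hℓ.mono (F0_mono B hst) le_rfl)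
  have hYc : ∀ ω, Continuous fun t => Y t ω := fun ω => (continuous_X hB ω).sub continuous_const
  have hhc : ∀ ω, Continuous fun t => h t ω := fun ω =>
    continuous_const.sub (continuous_const.mul (continuous_Ex hB ω))
  have hvan : ∀ t ω, Y t ω = 0 → h t ω = 0 := by
    intro t ω hy
    simp only [hdef, hWdef]
    by_cases hω : ω ∈ A
    · rw [Set.indicator_of_mem hω, Set.indicator_of_mem hω, Ex_eq_exp_X, ← Real.exp_add]
      have : -ℓ ω + X B t ω = 0 := by simp only [hY] at hy; linarith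
      rw [this]; simp
    · simp [Set.indicator_of_notMem hω]
  have hglue : ∀ n : ℕ, ∫ ω in A ∩ Dset Y s (s + n), h (s + n) ω ∂P =
      ∫ ω in A ∩ {ω | 0 < Y s ω}, h s ω ∂P := fun n =>
    glue (F0_mono B) (F0_le hB.meas) (le_self_add) hmart hYm hYc hhc
      (fun t ω _ _ hy => hvan t ω hy) hA
  have hempty : A ∩ {ω | 0 < Y s ω} = ∅ := by
    ext ω
    simp only [mem_inter_iff, mem_ofPred_eq, mem_empty_iff_false, iff_false, not_and, not_lt, hY]
    intro hω
    have := hle ω hω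
    linarith
  rw [hempty] at hglue
  simp only [Measure.restrict_empty, integral_zero_measure] at hglue
  have hDm : ∀ n : ℕ, MeasurableSet (Dset Y s (s + n)) := fun n =>
    F0_le hB.meas _ _ (measurableSet_Dset (F0_mono B) le_self_add hYm hYc)
  -- rewrite as an identity for the probability of `D_n`
  have hid : ∀ n : ℕ, P.real (A ∩ Dset Y s (s + n)) =
      (∫ ω in A, Real.exp (X B s ω - ℓ ω) ∂P) -
        ∫ ω in A \ Dset Y s (s + n), W ω * Ex B (s + n) ω ∂P := by
    intro n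
    have hi2 : Integrable (fun ω => W ω * Ex B (s + n) ω) P :=
      (hL2 _ le_self_add).integrable (by norm_num)
    have h1 := hglue n
    simp only [hdef] at h1
    rw [integral_sub] at h1
    · have h2 : ∫ ω in A ∩ Dset Y s (s + n), A.indicator (fun _ => (1 : ℝ)) ω ∂P =
          P.real (A ∩ Dset Y s (s + n)) := by
        rw [setIntegral_indicator hA', setIntegral_const, smul_eq_mul, mul_one]
        congr 1
        ext ω; simp only [mem_inter_iff]; tauto
      have h3 : ∫ ω in A, W ω * Ex B (s + n) ω ∂P =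
          (∫ ω in A ∩ Dset Y s (s + n), W ω * Ex B (s + n) ω ∂P) +
          ∫ ω in A \ Dset Y s (s + n), W ω * Ex B (s + n) ω ∂P := by
        rw [integral_inter_add_sdiff (hDm n) hi2.integrableOn]
      have h4 : ∫ ω in A, W ω * Ex B (s + n) ω ∂P =
          ∫ ω in A, Real.exp (X B s ω - ℓ ω) ∂P := by
        have e1 : ∫ ω in A, W ω * Ex B (s + n) ω ∂P = ∫ ω in A, W ω * Ex B s ω ∂P := by
          rw [← setIntegral_condExp (F0_le hB.meas s) hi2 hA]
          refine setIntegral_congr_ae hA' ?_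
          filter_upwards [condExp_mul_Ex hB (t := s + n) le_self_add hWm hWEi] with ω h _ using h
        rw [e1]
        refine setIntegral_congr_fun hA' fun ω hω => ?_
        rw [hWE, Set.indicator_of_mem hω]
      linarith
    · exact ((integrable_const _).indicator hA').restrict
    · exact hi2.restrict
  -- limit
  have hlim1 : Tendsto (fun n : ℕ => P.real (A ∩ Dset Y s (s + n))) atTop
      (𝓝 (P.real (A ∩ {ω | ℓ ω < K B s ω}))) := by
    have e : A ∩ {ω | ℓ ω < K B s ω} = ⋃ n : ℕ, A ∩ Dset Y s (s + n) := by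
      rw [setOf_lt_K_eq hB s ℓ, Set.inter_iUnion]
    rw [e]
    have hmono : Monotone fun n : ℕ => A ∩ Dset Y s (s + n) := by
      intro n m hnm
      refine Set.inter_subset_inter_right _ (Dset_mono_right ?_)
      gcongr
    have := tendsto_measure_iUnion_atTop (μ := P) hmono
    exact (ENNReal.tendsto_toReal (measure_ne_top _ _)).comp this
  have hlim2 : Tendsto (fun n : ℕ => ∫ ω in A \ Dset Y s (s + n), W ω * Ex B (s + n) ω ∂P) atTop
      (𝓝 0) := by
    have e1 : ∀ n : ℕ, ∫ ω in A \ Dset Y s (s + n), W ω * Ex B (s + n) ω ∂P =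
        ∫ ω, (A \ Dset Y s (s + n)).indicator (fun ω => W ω * Ex B (s + n) ω) ω ∂P := fun n =>
      (integral_indicator (hA'.diff (hDm n))).symm
    simp_rw [e1]
    have : (0 : ℝ) = ∫ _ω, (0 : ℝ) ∂P := by simp
    rw [this]
    have hbd : ∀ (n : ℕ) (ω : Ω), 0 ≤ (A \ Dset Y s (s + n)).indicator
        (fun ω => W ω * Ex B (s + n) ω) ω ∧ (A \ Dset Y s (s + n)).indicator
        (fun ω => W ω * Ex B (s + n) ω) ω ≤ 1 := by
      intro n ω
      by_cases hω : ω ∈ A \ Dset Y s (s + n)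
      · rw [Set.indicator_of_mem hω]
        simp only [hWdef, Set.indicator_of_mem hω.1, Ex_eq_exp_X, ← Real.exp_add]
        refine ⟨(Real.exp_pos _).le, ?_⟩
        rw [Real.exp_le_one_iff]
        have h1 : ¬ 0 < Y (s + n) ω := fun h => hω.2 ⟨s + n, le_self_add, le_rfl, h⟩
        simp only [hY] at h1
        linarith
      · rw [Set.indicator_of_notMem hω]; norm_num
    refine tendsto_integral_of_dominated_convergence (fun _ => 1) (fun n => ?_)
      (integrable_const _) (fun n => ae_of_all _ fun ω => ?_) (ae_of_all _ fun ω => ?_)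
    · have hi2 : Integrable (fun ω => W ω * Ex B (s + n) ω) P :=
        (hL2 _ le_self_add).integrable (by norm_num)
      exact (hi2.indicator (hA'.diff (hDm n))).aestronglyMeasurable
    · rw [Real.norm_eq_abs, abs_of_nonneg (hbd n ω).1]
      exact (hbd n ω).2
    · have h1 : Tendsto (fun n : ℕ => |W ω| * Ex B (s + n) ω) atTop (𝓝 0) := by
        have h2 : Tendsto (fun n : ℕ => X B (s + n) ω) atTop atBot := by
          refine (tendsto_X hB ω).comp ?_
          have h5 : Tendsto (fun n : ℕ => (n : ℝ≥0)) atTop atTop :=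
            tendsto_natCast_atTop_atTop (R := ℝ≥0)
          exact tendsto_atTop_mono (fun n => le_add_self) h5
        have h3 : Tendsto (fun n : ℕ => Ex B (s + n) ω) atTop (𝓝 0) :=
          Real.tendsto_exp_atBot.comp h2
        simpa using h3.const_mul |W ω|
      refine squeeze_zero_norm (fun n => ?_) h1
      rw [Real.norm_eq_abs]
      by_cases hω : ω ∈ A \ Dset Y s (s + n)
      · rw [Set.indicator_of_mem hω, abs_mul, abs_of_pos (show 0 < Ex B (s + n) ω from
          Real.exp_pos _)]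
      · rw [Set.indicator_of_notMem hω, abs_zero]
        exact mul_nonneg (abs_nonneg _) (Real.exp_pos _).le
  have hlim3 := (tendsto_const_nhds (x := ∫ ω in A, Real.exp (X B s ω - ℓ ω) ∂P)).sub hlim2
  rw [sub_zero] at hlim3
  refine tendsto_nhds_unique hlim1 (hlim3.congr fun n => ?_)
  rw [hid]

end Pool.Agent.H85.BM
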