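import Mathlib
import Pool.Agent.H85.Drift

/-!
# Conditional moments of the future supremum and the key martingale identity
-/

open MeasureTheory ProbabilityTheory Filter Topology Set
open scoped NNReal ENNReal

namespace Pool.Agent.H85.BM

variable {Ω : Type*} {mΩ : MeasurableSpace Ω} {P : Measure Ω}

lemma MartOn.add {m : ℝ≥0 → MeasurableSpace Ω} {s : ℝ≥0} [IsProbabilityMeasure P]
    {h g : ℝ≥0 → Ω → ℝ} (H : MartOn m P s h) (G : MartOn m P s g) :
    MartOn m P s (fun t => h t + g t) where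
  meas t ht := (H.meas t ht).add (G.meas t ht)
  L2 t ht := (H.L2 t ht).add (G.L2 t ht)
  mart t u hst htu := by
    have h1 := condExp_add (μ := P) ((H.L2 u (hst.trans htu)).integrable (by norm_num))
      ((G.L2 u (hst.trans htu)).integrable (by norm_num)) (m t)
    filter_upwards [h1, H.mart t u hst htu, G.mart t u hst htu] with ω a b c
    rw [a, Pi.add_apply, b, c, Pi.add_apply]

lemma MartOn.smul {m : ℝ≥0 → MeasurableSpace Ω} {s : ℝ≥0}
    {h : ℝ≥0 → Ω → ℝ} (H : MartOn m P s h) (c : ℝ) :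
    MartOn m P s (fun t => c • h t) where
  meas t ht := (H.meas t ht).const_smul c
  L2 t ht := (H.L2 t ht).const_smul c
  mart t u hst htu := by
    have h1 := condExp_smul (μ := P) c (h u) (m t)
    filter_upwards [h1, H.mart t u hst htu] with ω a b
    rw [a, Pi.smul_apply, b, Pi.smul_apply]

lemma martOn_one {m : ℝ≥0 → MeasurableSpace Ω} (hm : ∀ t, m t ≤ mΩ) (s : ℝ≥0)
    [IsProbabilityMeasure P] :
    MartOn m P s (fun _ _ => (1 : ℝ)) where
  meas _ _ := measurable_const
  L2 _ _ := memLp_const 1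
  mart t _ _ _ := by rw [condExp_const (hm t)]

lemma martOn_B {B : ℝ≥0 → Ω → ℝ} (hB : GoodBM P B) (s : ℝ≥0) : MartOn (F0 B) P s B where
  meas t _ := measurable_F0 B le_rfl
  L2 t _ := memLp_B hB t
  mart _ _ _ htu := condExp_B hB htu

lemma martOn_Ex {B : ℝ≥0 → Ω → ℝ} (hB : GoodBM P B) (s : ℝ≥0) :
    MartOn (F0 B) P s (Ex B) where
  meas t _ := measurable_Ex B le_rfl
  L2 t _ := memLp_Ex hB t
  mart _ _ _ htu := condExp_Ex hB htu

lemma martOn_BEx {B : ℝ≥0 → Ω → ℝ} (hB : GoodBM P B) (s : ℝ≥0) :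
    MartOn (F0 B) P s (fun t ω => (B t ω - t) * Ex B t ω) where
  meas t _ := ((measurable_F0 B le_rfl).sub_const _).mul (measurable_Ex B le_rfl)
  L2 t _ := by
    have := memLp_poly_Ex hB t (-t) 1
    refine this.ae_eq (ae_of_all _ fun ω => ?_)
    simp only; ring
  mart _ _ _ htu := condExp_BEx hB htu

/-- the two pieces -/
noncomputable def fproc (B : ℝ≥0 → Ω → ℝ) (t : ℝ≥0) (ω : Ω) : ℝ := -B t ω - 2

noncomputable def gproc (B : ℝ≥0 → Ω → ℝ) (x : ℝ) (t : ℝ≥0) (ω : Ω) : ℝ :=
  (B t ω - t - 2 * x - 2) * Real.exp (X B t ω - x)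

lemma martOn_f {B : ℝ≥0 → Ω → ℝ} (hB : GoodBM P B) (s : ℝ≥0) :
    MartOn (F0 B) P s (fproc B) := by
  have := hB.prob
  have h := ((martOn_B hB s).smul (-1)).add
    ((martOn_one (P := P) (F0_le hB.meas) s).smul (-2))
  have e : (fun t => (-1 : ℝ) • B t + (-2 : ℝ) • (fun _ : Ω => (1 : ℝ))) = fproc B := by
    ext t ω
    simp [fproc]
    ring
  rwa [e] at h

lemma martOn_g {B : ℝ≥0 → Ω → ℝ} (hB : GoodBM P B) (x : ℝ) (s : ℝ≥0) :
    MartOn (F0 B) P s (gproc B x) := by
  have := hB.prob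
  have h := ((martOn_BEx hB s).smul (Real.exp (-x))).add
    ((martOn_Ex hB s).smul (-(2 * x + 2) * Real.exp (-x)))
  have e : (fun t => Real.exp (-x) • (fun ω => (B t ω - t) * Ex B t ω) +
      (-(2 * x + 2) * Real.exp (-x)) • Ex B t) = gproc B x := by
    ext t ω
    simp only [Pi.add_apply, Pi.smul_apply, smul_eq_mul, gproc, Ex_eq_exp_X]
    rw [sub_eq_add_neg (X B t ω) x, Real.exp_add]
    ring
  rwa [e] at h

lemma martOn_fg {B : ℝ≥0 → Ω → ℝ} (hB : GoodBM P B) (x : ℝ) (s : ℝ≥0) :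
    MartOn (F0 B) P s (fun t ω => fproc B t ω - gproc B x t ω) := by
  have := hB.prob
  have h := (martOn_f hB s).add ((martOn_g hB x s).smul (-1))
  have e : (fun t => fproc B t + (-1 : ℝ) • gproc B x t) =
      fun t ω => fproc B t ω - gproc B x t ω := by
    ext t ω
    simp
    ring
  rwa [e] at h

lemma fg_vanish (B : ℝ≥0 → Ω → ℝ) (x : ℝ) (t : ℝ≥0) (ω : Ω) (h : X B t ω - x = 0) :
    fproc B t ω - gproc B x t ω = 0 := by
  unfold fproc gproc
  rw [h, Real.exp_zero]
  unfold X at h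
  linarith

/-- first moment of the overshoot of the future supremum -/
theorem integral_posPart_K {B : ℝ≥0 → Ω → ℝ} (hB : GoodBM P B) {s : ℝ≥0} {A : Set Ω}
    (hA : MeasurableSet[F0 B s] A) {ℓ : Ω → ℝ} (hℓ : Measurable[F0 B s] ℓ)
    (hle : ∀ ω ∈ A, X B s ω ≤ ℓ ω) :
    IntegrableOn (fun ω => max (K B s ω - ℓ ω) 0) A P ∧
    ∫ ω in A, max (K B s ω - ℓ ω) 0 ∂P = ∫ ω in A, Real.exp (X B s ω - ℓ ω) ∂P := by
  have := hB.prob
  have hA' : MeasurableSet A := F0_le hB.meas s _ hA
  have hℓ' : Measurable ℓ := hℓ.mono (F0_le hB.meas s) le_rfl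
  set c := ∫ ω in A, Real.exp (X B s ω - ℓ ω) ∂P with hc
  have hc0 : 0 ≤ c := integral_nonneg fun ω => (Real.exp_pos _).le
  have hm : Measurable fun ω => max (K B s ω - ℓ ω) 0 :=
    ((measurable_K hB s).sub hℓ').max measurable_const
  have hlay := lintegral_eq_lintegral_meas_lt (P.restrict A)
    (f := fun ω => max (K B s ω - ℓ ω) 0) (ae_of_all _ fun ω => le_max_right _ _)
    hm.aemeasurable
  have h1 : ∀ z ∈ Ioi (0 : ℝ), (P.restrict A) {ω | z < max (K B s ω - ℓ ω) 0} =
      ENNReal.ofReal (Real.exp (-z) * c) := by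
    intro z hz
    rw [mem_Ioi] at hz
    have hz2 := (measure_lt_K hB hA (ℓ := fun ω => ℓ ω + z) (hℓ.add_const z)
      (fun ω hω => (hle ω hω).trans (by linarith))).2
    have hmz : MeasurableSet {ω | z < max (K B s ω - ℓ ω) 0} := hm measurableSet_Ioi
    rw [Measure.restrict_apply hmz]
    have e1 : {ω | z < max (K B s ω - ℓ ω) 0} ∩ A = A ∩ {ω | ℓ ω + z < K B s ω} := by
      ext ω
      simp only [mem_inter_iff, mem_ofPred_eq, lt_max_iff]
      constructor
      · rintro ⟨h | h, hω⟩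
        · exact ⟨hω, by linarith⟩
        · exact absurd h (not_lt.2 hz.le)
      · rintro ⟨hω, h⟩
        exact ⟨Or.inl (by linarith), hω⟩
    have e2 : ∫ ω in A, Real.exp (X B s ω - (ℓ ω + z)) ∂P = Real.exp (-z) * c := by
      rw [hc, ← integral_const_mul]
      refine integral_congr_ae (ae_of_all _ fun ω => ?_)
      simp only
      rw [← Real.exp_add]
      congr 1; ring
    rw [e1, ← ofReal_measureReal (measure_ne_top _ _), hz2, e2]
  rw [setLIntegral_congr_fun measurableSet_Ioi h1] at hlay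
  have h2 : ∫⁻ z in Ioi (0 : ℝ), ENNReal.ofReal (Real.exp (-z) * c) = ENNReal.ofReal c := by
    have h3 : Integrable (fun z : ℝ => Real.exp (-z) * c) (volume.restrict (Ioi 0)) := by
      have := integrableOn_exp_neg_Ioi 0
      exact this.mul_const c
    rw [← ofReal_integral_eq_lintegral_ofReal h3 (ae_of_all _ fun z => by positivity),
      integral_mul_const, integral_exp_neg_Ioi_zero, one_mul]
  rw [h2] at hlay
  have hint : IntegrableOn (fun ω => max (K B s ω - ℓ ω) 0) A P := by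
    refine ⟨hm.aestronglyMeasurable, ?_⟩
    have hnn : 0 ≤ᵐ[P.restrict A] fun ω => max (K B s ω - ℓ ω) 0 :=
      ae_of_all _ fun ω => le_max_right _ _
    rw [hasFiniteIntegral_iff_ofReal hnn, hlay]
    exact ENNReal.ofReal_lt_top
  refine ⟨hint, ?_⟩
  rw [← ofReal_integral_eq_lintegral_ofReal hint (ae_of_all _ fun ω => le_max_right _ _)] at hlay
  have h4 := (ENNReal.ofReal_eq_ofReal_iff (integral_nonneg fun ω => le_max_right _ _) hc0).1 hlay
  exact h4

lemma integrable_X {B : ℝ≥0 → Ω → ℝ} (hB : GoodBM P B) (t : ℝ≥0) : Integrable (X B t) P := by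
  have := hB.prob
  exact ((memLp_B hB t).integrable (by norm_num)).sub (integrable_const _)

lemma integral_K_sub_X {B : ℝ≥0 → Ω → ℝ} (hB : GoodBM P B) {s : ℝ≥0} {A : Set Ω}
    (hA : MeasurableSet[F0 B s] A) :
    IntegrableOn (fun ω => K B s ω - X B s ω) A P ∧
    ∫ ω in A, (K B s ω - X B s ω) ∂P = P.real A := by
  have := hB.prob
  have h := integral_posPart_K hB hA (ℓ := X B s) (measurable_X_F0 B le_rfl) (fun _ _ => le_rfl)
  have e : (fun ω => max (K B s ω - X B s ω) 0) = fun ω => K B s ω - X B s ω := by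
    ext ω
    exact max_eq_left (sub_nonneg.2 (X_le_K hB le_rfl ω))
  rw [e] at h
  refine ⟨h.1, h.2.trans ?_⟩
  simp

lemma integrable_K {B : ℝ≥0 → Ω → ℝ} (hB : GoodBM P B) (t : ℝ≥0) : Integrable (K B t) P := by
  have h := (integral_K_sub_X hB (s := t) (A := univ) MeasurableSet.univ).1
  rw [integrableOn_univ] at h
  have := h.add (integrable_X hB t)
  refine this.congr (ae_of_all _ fun ω => ?_)
  simp

/-- On `A ⊆ {X t ≤ x}` : mass and first moment of `K t` on `{x < K t}`. -/
lemma integral_K_on {B : ℝ≥0 → Ω → ℝ} (hB : GoodBM P B) {t : ℝ≥0} {A : Set Ω}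
    (hA : MeasurableSet[F0 B t] A) {x : ℝ} (hle : ∀ ω ∈ A, X B t ω ≤ x) :
    ∫ ω in A ∩ {ω | x < K B t ω}, K B t ω ∂P =
      (x + 1) * ∫ ω in A, Real.exp (X B t ω - x) ∂P := by
  have := hB.prob
  have hA' : MeasurableSet A := F0_le hB.meas t _ hA
  have hKm : MeasurableSet {ω | x < K B t ω} := measurable_K hB t measurableSet_Ioi
  have h1 := (measure_lt_K hB hA (ℓ := fun _ => x) measurable_const hle).2
  have h2 := integral_posPart_K hB hA (ℓ := fun _ => x) measurable_const hle
  have e : ∫ ω in A, max (K B t ω - x) 0 ∂P =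
      ∫ ω in A ∩ {ω | x < K B t ω}, (K B t ω - x) ∂P := by
    rw [← setIntegral_indicator hKm]
    refine integral_congr_ae (ae_of_all _ fun ω => ?_)
    simp only
    by_cases h : x < K B t ω
    · rw [Set.indicator_of_mem (show ω ∈ {ω | x < K B t ω} from h), max_eq_left (by linarith)]
    · rw [Set.indicator_of_notMem (show ω ∉ {ω | x < K B t ω} from h),
        max_eq_right (by linarith [not_lt.1 h])]
  have e2 : ∫ ω in A ∩ {ω | x < K B t ω}, (K B t ω - x) ∂P =
      (∫ ω in A ∩ {ω | x < K B t ω}, K B t ω ∂P) - x * P.real (A ∩ {ω | x < K B t ω}) := by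
    rw [integral_sub (integrable_K hB t).integrableOn (integrable_const _).integrableOn,
      setIntegral_const, smul_eq_mul, mul_comm x]
  rw [e, e2] at h2
  have h3 := h2.2
  rw [h1] at h3
  linarith

/-- on `A ⊆ {X t ≤ x}`, integrals of past-measurable variables on `{x < K t}` -/
lemma integral_W_on {B : ℝ≥0 → Ω → ℝ} (hB : GoodBM P B) {t : ℝ≥0} {A : Set Ω}
    (hA : MeasurableSet[F0 B t] A) {x : ℝ} (hle : ∀ ω ∈ A, X B t ω ≤ x)
    {W : Ω → ℝ} (hW : Measurable[F0 B t] W) (hWi : Integrable W P) :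
    ∫ ω in A ∩ {ω | x < K B t ω}, W ω ∂P = ∫ ω in A, W ω * Real.exp (X B t ω - x) ∂P := by
  have := hB.prob
  have hF := F0_le hB.meas t
  have hA' : MeasurableSet A := hF _ hA
  have hKm : MeasurableSet {ω | x < K B t ω} := measurable_K hB t measurableSet_Ioi
  set U : Ω → ℝ := (A ∩ {ω | x < K B t ω}).indicator (fun _ => (1 : ℝ)) with hU
  set V : Ω → ℝ := A.indicator (fun ω => Real.exp (X B t ω - x)) with hV
  have hUi : Integrable U P := (integrable_const _).indicator (hA'.inter hKm)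
  have hVi : Integrable V P :=
    (measure_lt_K hB hA (ℓ := fun _ => x) measurable_const hle).1
  have hVm : Measurable[F0 B t] V :=
    (Real.measurable_exp.comp ((measurable_X_F0 B le_rfl).sub_const x)).indicator hA
  have hcond : V =ᵐ[P] P[U | F0 B t] := by
    refine ae_eq_condExp_of_forall_setIntegral_eq hF hUi (fun S _ _ => hVi.integrableOn)
      (fun S hS _ => ?_) hVm.aestronglyMeasurable
    have hSA : MeasurableSet[F0 B t] (S ∩ A) := hS.inter hA
    have h1 := (measure_lt_K hB hSA (ℓ := fun _ => x) measurable_const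
      (fun ω hω => hle ω hω.2)).2
    rw [hU, hV, setIntegral_indicator (hA'.inter hKm), setIntegral_indicator hA',
      setIntegral_const, smul_eq_mul, mul_one, ← Set.inter_assoc, h1]
  have hWU : Integrable (W * U) P := by
    have : W * U = (A ∩ {ω | x < K B t ω}).indicator W := by
      ext ω
      simp only [hU, Pi.mul_apply]
      by_cases h : ω ∈ A ∩ {ω | x < K B t ω}
      · rw [Set.indicator_of_mem h, Set.indicator_of_mem h, mul_one]
      · rw [Set.indicator_of_notMem h, Set.indicator_of_notMem h, mul_zero]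
    rw [this]
    exact hWi.indicator (hA'.inter hKm)
  have h2 := condExp_mul_of_stronglyMeasurable_left (m := F0 B t) (μ := P)
    hW.stronglyMeasurable hWU hUi
  have h3 : ∫ ω, (W * U) ω ∂P = ∫ ω, W ω * V ω ∂P := by
    rw [← integral_condExp hF (f := W * U)]
    refine integral_congr_ae ?_
    filter_upwards [h2, hcond] with ω a b
    rw [a, Pi.mul_apply, b]
  have h4 : ∫ ω, (W * U) ω ∂P = ∫ ω in A ∩ {ω | x < K B t ω}, W ω ∂P := by
    rw [← integral_indicator (hA'.inter hKm)]
    refine integral_congr_ae (ae_of_all _ fun ω => ?_)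
    simp only [hU, Pi.mul_apply]
    by_cases h : ω ∈ A ∩ {ω | x < K B t ω}
    · rw [Set.indicator_of_mem h, Set.indicator_of_mem h, mul_one]
    · rw [Set.indicator_of_notMem h, Set.indicator_of_notMem h, mul_zero]
  have h5 : ∫ ω, W ω * V ω ∂P = ∫ ω in A, W ω * Real.exp (X B t ω - x) ∂P := by
    rw [← integral_indicator hA']
    refine integral_congr_ae (ae_of_all _ fun ω => ?_)
    simp only [hV]
    by_cases h : ω ∈ A
    · rw [Set.indicator_of_mem h, Set.indicator_of_mem h]
    · rw [Set.indicator_of_notMem h, Set.indicator_of_notMem h, mul_zero]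
  rw [← h4, h3, h5]

/-- `Ñ t = B t - t - 2 K t` -/
noncomputable def Nt (B : ℝ≥0 → Ω → ℝ) (t : ℝ≥0) (ω : Ω) : ℝ := B t ω - t - 2 * K B t ω

lemma integrable_Nt {B : ℝ≥0 → Ω → ℝ} (hB : GoodBM P B) (t : ℝ≥0) : Integrable (Nt B t) P := by
  have := hB.prob
  exact (((memLp_B hB t).integrable (by norm_num)).sub (integrable_const _)).sub
    ((integrable_K hB t).const_mul 2)

/-- formula for `E[Ñ t ; A ∩ {x < K s}]` -/
lemma Nt_formula {B : ℝ≥0 → Ω → ℝ} (hB : GoodBM P B) {s t : ℝ≥0} (hst : s ≤ t) {A : Set Ω}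
    (hA : MeasurableSet[F0 B s] A) (x : ℝ) :
    ∫ ω in A ∩ {ω | x < K B s ω}, Nt B t ω ∂P =
      (∫ ω in A, gproc B x t ω ∂P) +
      ∫ ω in A ∩ Dset (fun v ω => X B v ω - x) s t, (fproc B t ω - gproc B x t ω) ∂P := by
  have := hB.prob
  set D := Dset (fun v ω => X B v ω - x) s t with hD
  have hYm : ∀ r, s ≤ r → Measurable[F0 B r] (fun ω => X B r ω - x) := fun r _ =>
    (measurable_X_F0 B le_rfl).sub_const x
  have hYc : ∀ ω, Continuous fun r => X B r ω - x := fun ω =>
    (continuous_X hB ω).sub continuous_const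
  have hDF : MeasurableSet[F0 B t] D := measurableSet_Dset (F0_mono B) hst hYm hYc
  have hDm : MeasurableSet D := F0_le hB.meas t _ hDF
  have hAF : MeasurableSet[F0 B t] A := F0_mono B hst _ hA
  have hA' : MeasurableSet A := F0_le hB.meas t _ hAF
  have hKm : MeasurableSet {ω | x < K B t ω} := measurable_K hB t measurableSet_Ioi
  have hNi := integrable_Nt hB t
  have hBi : Integrable (B t) P := (memLp_B hB t).integrable (by norm_num)
  have hfi : Integrable (fproc B t) P := ((martOn_f hB s).L2 t hst).integrable (by norm_num)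
  have hgi : Integrable (gproc B x t) P := ((martOn_g hB x s).L2 t hst).integrable (by norm_num)
  have hle : ∀ ω ∈ A \ D, X B t ω ≤ x := by
    intro ω hω
    by_contra hcon
    exact hω.2 ⟨t, hst, le_rfl, by simpa using hcon⟩
  -- decomposition of the event
  have e1 : A ∩ {ω | x < K B s ω} = (A ∩ D) ∪ ((A \ D) ∩ {ω | x < K B t ω}) := by
    ext ω
    have hsplit := lt_fsup_split (continuous_X hB ω) (tendsto_X hB ω) hst (y := x)
    have hDmem : ω ∈ D ↔ ∃ v, s ≤ v ∧ v ≤ t ∧ x < X B v ω := by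
      simp only [hD, Dset, mem_ofPred_eq, sub_pos]
    simp only [mem_inter_iff, mem_ofPred_eq, mem_union, Set.mem_sdiff]
    rw [hDmem]
    have h2 : x < K B s ω ↔ (∃ v, s ≤ v ∧ v ≤ t ∧ x < X B v ω) ∨ x < K B t ω := hsplit
    rw [h2]
    generalize (∃ v, s ≤ v ∧ v ≤ t ∧ x < X B v ω) = E
    by_cases hE : E <;> simp [hE]
  have hdisj : Disjoint (A ∩ D) ((A \ D) ∩ {ω | x < K B t ω}) := by
    rw [Set.disjoint_left]
    rintro ω ⟨_, h1⟩ ⟨⟨_, h2⟩, _⟩
    exact h2 h1
  rw [e1, setIntegral_union hdisj ((hA'.diff hDm).inter hKm) hNi.integrableOn hNi.integrableOn]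
  -- first part
  have p1 : ∫ ω in A ∩ D, Nt B t ω ∂P = ∫ ω in A ∩ D, fproc B t ω ∂P := by
    have h1 := integral_K_sub_X hB (s := t) (A := A ∩ D) (hAF.inter hDF)
    have h2 : ∀ ω, Nt B t ω = fproc B t ω + 2 - 2 * (K B t ω - X B t ω) := by
      intro ω
      unfold Nt fproc X
      ring
    simp_rw [h2]
    rw [integral_sub, integral_const_mul, h1.2, integral_add hfi.integrableOn
      (integrable_const _).integrableOn, setIntegral_const, smul_eq_mul]
    · ring
    · exact (hfi.integrableOn).add (integrable_const _).integrableOn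
    · exact h1.1.const_mul 2
  -- second part
  have p2 : ∫ ω in (A \ D) ∩ {ω | x < K B t ω}, Nt B t ω ∂P =
      ∫ ω in A \ D, gproc B x t ω ∂P := by
    have hAD : MeasurableSet[F0 B t] (A \ D) := hAF.diff hDF
    have h1 := integral_K_on hB hAD hle
    have h2 := integral_W_on hB hAD hle (W := fun ω => B t ω - t)
      ((measurable_F0 B le_rfl).sub_const _) (hBi.sub (integrable_const _))
    have hexp : IntegrableOn (fun ω => Real.exp (X B t ω - x)) (A \ D) P := by
      have := (measure_lt_K hB hAD (ℓ := fun _ => x) measurable_const hle).1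
      rwa [integrable_indicator_iff (F0_le hB.meas t _ hAD)] at this
    have e2 : ∫ ω in (A \ D) ∩ {ω | x < K B t ω}, Nt B t ω ∂P =
        (∫ ω in (A \ D) ∩ {ω | x < K B t ω}, (B t ω - t) ∂P) -
        2 * ∫ ω in (A \ D) ∩ {ω | x < K B t ω}, K B t ω ∂P := by
      unfold Nt
      rw [integral_sub, integral_const_mul]
      · exact (hBi.sub (integrable_const _)).integrableOn
      · exact ((integrable_K hB t).const_mul 2).integrableOn
    rw [e2, h1, h2]
    have hgi' : IntegrableOn (gproc B x t) (A \ D) P := hgi.integrableOn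
    have e3 : ∀ ω, (B t ω - t) * Real.exp (X B t ω - x) =
        gproc B x t ω + (2 * (x + 1)) * Real.exp (X B t ω - x) := by
      intro ω; unfold gproc; ring
    simp_rw [e3]
    rw [integral_add hgi' (hexp.const_mul _), integral_const_mul]
    ring
  rw [p1, p2]
  rw [integral_sub hfi.integrableOn hgi.integrableOn]
  have e4 : ∫ ω in A, gproc B x t ω ∂P =
      (∫ ω in A ∩ D, gproc B x t ω ∂P) + ∫ ω in A \ D, gproc B x t ω ∂P := by
    rw [integral_inter_add_sdiff hDm hgi.integrableOn]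
  rw [e4]
  ring

/-- **Key martingale identity.** -/
theorem Nt_identity {B : ℝ≥0 → Ω → ℝ} (hB : GoodBM P B) {s t : ℝ≥0} (hst : s ≤ t) {A : Set Ω}
    (hA : MeasurableSet[F0 B s] A) (x : ℝ) :
    ∫ ω in A ∩ {ω | x < K B s ω}, Nt B t ω ∂P =
      ∫ ω in A ∩ {ω | x < K B s ω}, Nt B s ω ∂P := by
  have := hB.prob
  rw [Nt_formula hB hst hA, Nt_formula hB le_rfl hA]
  have h1 : ∫ ω in A, gproc B x t ω ∂P = ∫ ω in A, gproc B x s ω ∂P :=
    (martOn_g hB x s).setIntegral_eq (F0_le hB.meas) le_rfl hst hA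
  have hcont : ∀ ω, Continuous fun t => fproc B t ω - gproc B x t ω := by
    intro ω
    have h1 := hB.cont ω
    have h2 := continuous_X hB ω
    unfold fproc gproc
    fun_prop
  have h2 := glue (F0_mono B) (F0_le hB.meas) hst (martOn_fg hB x s)
    (Y := fun v ω => X B v ω - x) (fun r _ => (measurable_X_F0 B le_rfl).sub_const x)
    (fun ω => (continuous_X hB ω).sub continuous_const) hcont
    (fun r ω _ _ h => fg_vanish B x r ω h) hA
  have h3 := glue (F0_mono B) (F0_le hB.meas) (le_refl s) (martOn_fg hB x s)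
    (Y := fun v ω => X B v ω - x) (fun r _ => (measurable_X_F0 B le_rfl).sub_const x)
    (fun ω => (continuous_X hB ω).sub continuous_const) hcont
    (fun r ω _ _ h => fg_vanish B x r ω h) hA
  rw [h1, h2, h3]

end Pool.Agent.H85.BM
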