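import Mathlib

/-!
# Iwasawa factorisation for matrix Lie algebras of compact type

For a real Lie algebra `𝔤` of skew-Hermitian matrices and a Hermitian element
`V diag(l) V⋆` of its complexification, every exponential `exp W` with `W` in the
complexification factors as `U * B`, with `U` unitary and normalising `𝔤`, and `B` block
triangular for the eigenvalue filtration.  The factorisation is obtained from its
infinitesimal version by an Euler scheme and compactness.
-/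

open NormedSpace Matrix
open scoped Matrix.Norms.L2Operator

set_option linter.unusedSectionVars false

namespace Pool.Agent.H85.Iwasawa

section ExpBounds

variable {𝔸 : Type*} [NormedRing 𝔸] [NormedAlgebra ℝ 𝔸] [CompleteSpace 𝔸]

lemma norm_exp_sub_one_sub_le (x : 𝔸) :
    ‖exp x - 1 - x‖ ≤ ‖x‖ ^ 2 * Real.exp ‖x‖ := by
  have h := NormedSpace.exp_series_hasSum_exp' (𝕂 := ℝ) x
  have h2 : HasSum (fun n : ℕ => (((n + 2).factorial : ℝ))⁻¹ • x ^ (n + 2))
      (exp x - 1 - x) := by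
    have := (hasSum_nat_add_iff' 2).mpr h
    simpa [Finset.sum_range_succ, sub_sub] using this
  have hb : ∀ n : ℕ, ‖(((n + 2).factorial : ℝ))⁻¹ • x ^ (n + 2)‖ ≤
      ‖x‖ ^ 2 * (‖x‖ ^ n / n.factorial) := by
    intro n
    rw [norm_smul, norm_inv, Real.norm_natCast]
    have h1 : ‖x ^ (n + 2)‖ ≤ ‖x‖ ^ (n + 2) := norm_pow_le' x (by omega)
    have h3 : ((n.factorial : ℝ)) ≤ ((n + 2).factorial : ℝ) := by
      exact_mod_cast Nat.factorial_le (by omega)
    have h4 : (0 : ℝ) < n.factorial := by exact_mod_cast Nat.factorial_pos n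
    calc ((n + 2).factorial : ℝ)⁻¹ * ‖x ^ (n + 2)‖ ≤ (n.factorial : ℝ)⁻¹ * ‖x‖ ^ (n + 2) := by
          gcongr
      _ = ‖x‖ ^ 2 * (‖x‖ ^ n / n.factorial) := by
          rw [pow_add]; field_simp
  have hs : HasSum (fun n : ℕ => ‖x‖ ^ 2 * (‖x‖ ^ n / n.factorial))
      (‖x‖ ^ 2 * Real.exp ‖x‖) := by
    refine HasSum.mul_left _ ?_
    rw [Real.exp_eq_exp_ℝ]
    exact NormedSpace.expSeries_div_hasSum_exp (𝔸 := ℝ) ‖x‖
  exact h2.norm_le_of_bounded hs hb

lemma norm_exp_le [NormOneClass 𝔸] (x : 𝔸) : ‖exp x‖ ≤ Real.exp ‖x‖ := by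
  have h := NormedSpace.exp_series_hasSum_exp' (𝕂 := ℝ) x
  have hb : ∀ n : ℕ, ‖((n.factorial : ℝ))⁻¹ • x ^ n‖ ≤ ‖x‖ ^ n / n.factorial := by
    intro n
    rw [norm_smul, norm_inv, Real.norm_natCast, div_eq_inv_mul]
    gcongr
    exact norm_pow_le x n
  have hs : HasSum (fun n : ℕ => ‖x‖ ^ n / n.factorial) (Real.exp ‖x‖) := by
    rw [Real.exp_eq_exp_ℝ]
    exact NormedSpace.expSeries_div_hasSum_exp (𝔸 := ℝ) ‖x‖
  exact h.norm_le_of_bounded hs hb

/-- Second order product estimate, uniform for bounded `Y`, `Z`. -/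
lemma norm_exp_add_sub_mul_le [NormOneClass 𝔸] {a t : ℝ} (ha : 0 ≤ a) (ht0 : 0 ≤ t) (ht1 : t ≤ 1)
    (Y Z : 𝔸) (hY : ‖Y‖ ≤ a) (hZ : ‖Z‖ ≤ a) :
    ‖exp (t • (Y + Z)) - exp (t • Y) * exp (t • Z)‖ ≤
      (4 * a ^ 2 * Real.exp (2 * a) + a ^ 2 * Real.exp a + a * (a + a ^ 2 * Real.exp a)
        + a ^ 2 * Real.exp a * Real.exp a) * t ^ 2 := by
  have ntY : ‖t • Y‖ ≤ t * a := by
    rw [norm_smul, Real.norm_of_nonneg ht0]; gcongr
  have ntZ : ‖t • Z‖ ≤ t * a := by
    rw [norm_smul, Real.norm_of_nonneg ht0]; gcongr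
  have nta : t * a ≤ a := by nlinarith
  have ntYZ : ‖t • (Y + Z)‖ ≤ t * (2 * a) := by
    rw [norm_smul, Real.norm_of_nonneg ht0]
    have := norm_add_le Y Z
    gcongr; linarith
  set r1 := exp (t • Y) - 1 - t • Y with hr1
  set r2 := exp (t • Z) - 1 - t • Z with hr2
  set r3 := exp (t • (Y + Z)) - 1 - t • (Y + Z) with hr3
  have b1 : ‖r1‖ ≤ t ^ 2 * a ^ 2 * Real.exp a := by
    calc ‖r1‖ ≤ ‖t • Y‖ ^ 2 * Real.exp ‖t • Y‖ := norm_exp_sub_one_sub_le _
      _ ≤ (t * a) ^ 2 * Real.exp a := by gcongr; exact ntY.trans nta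
      _ = t ^ 2 * a ^ 2 * Real.exp a := by ring
  have b2 : ‖r2‖ ≤ t ^ 2 * a ^ 2 * Real.exp a := by
    calc ‖r2‖ ≤ ‖t • Z‖ ^ 2 * Real.exp ‖t • Z‖ := norm_exp_sub_one_sub_le _
      _ ≤ (t * a) ^ 2 * Real.exp a := by gcongr; exact ntZ.trans nta
      _ = t ^ 2 * a ^ 2 * Real.exp a := by ring
  have b3 : ‖r3‖ ≤ t ^ 2 * (4 * a ^ 2) * Real.exp (2 * a) := by
    calc ‖r3‖ ≤ ‖t • (Y + Z)‖ ^ 2 * Real.exp ‖t • (Y + Z)‖ := norm_exp_sub_one_sub_le _
      _ ≤ (t * (2 * a)) ^ 2 * Real.exp (2 * a) := by gcongr; exact ntYZ.trans (by nlinarith)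
      _ = t ^ 2 * (4 * a ^ 2) * Real.exp (2 * a) := by ring
  have b4 : ‖exp (t • Z)‖ ≤ Real.exp a :=
    (norm_exp_le _).trans (Real.exp_le_exp.mpr (ntZ.trans nta))
  have b5 : ‖exp (t • Z) - 1‖ ≤ t * (a + a ^ 2 * Real.exp a) := by
    have : exp (t • Z) - 1 = t • Z + r2 := by rw [hr2]; abel
    rw [this]
    calc ‖t • Z + r2‖ ≤ ‖t • Z‖ + ‖r2‖ := norm_add_le _ _
      _ ≤ t * a + t ^ 2 * a ^ 2 * Real.exp a := add_le_add ntZ b2
      _ ≤ t * a + t * a ^ 2 * Real.exp a := by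
          have : t ^ 2 ≤ t := by nlinarith
          gcongr
      _ = t * (a + a ^ 2 * Real.exp a) := by ring
  have key : exp (t • (Y + Z)) - exp (t • Y) * exp (t • Z) =
      r3 - r2 - (t • Y) * (exp (t • Z) - 1) - r1 * exp (t • Z) := by
    have e1 : exp (t • Y) = 1 + t • Y + r1 := by rw [hr1]; abel
    have e3 : exp (t • (Y + Z)) = 1 + t • (Y + Z) + r3 := by rw [hr3]; abel
    rw [e3, e1, hr2]
    simp only [add_mul, mul_sub, mul_one, one_mul, smul_add]
    abel
  rw [key]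
  calc ‖r3 - r2 - (t • Y) * (exp (t • Z) - 1) - r1 * exp (t • Z)‖
      ≤ ‖r3‖ + ‖r2‖ + ‖(t • Y) * (exp (t • Z) - 1)‖ + ‖r1 * exp (t • Z)‖ := by
        refine (norm_sub_le _ _).trans ?_
        gcongr
        refine (norm_sub_le _ _).trans ?_
        gcongr
        exact norm_sub_le _ _
    _ ≤ t ^ 2 * (4 * a ^ 2) * Real.exp (2 * a) + t ^ 2 * a ^ 2 * Real.exp a +
        (t * a) * (t * (a + a ^ 2 * Real.exp a)) + (t ^ 2 * a ^ 2 * Real.exp a) * Real.exp a := by
        gcongr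
        · exact (norm_mul_le _ _).trans (by gcongr)
        · exact (norm_mul_le _ _).trans (by gcongr)
    _ = _ := by ring

end ExpBounds

section Ad

variable {n : Type*} [Fintype n] [DecidableEq n]

/-- `exp Y * A * exp (-Y)` stays in a real subspace stable under brackets with `Y`. -/
lemma exp_mul_mul_exp_neg_mem (𝔤 : Submodule ℝ (Matrix n n ℂ))
    (Y : Matrix n n ℂ) (hY : ∀ A ∈ 𝔤, Y * A - A * Y ∈ 𝔤) (A : Matrix n n ℂ) (hA : A ∈ 𝔤) :
    exp Y * A * exp (-Y) ∈ 𝔤 := by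
  let l : Matrix n n ℂ →L[ℝ] Matrix n n ℂ := ContinuousLinearMap.mul ℝ (Matrix n n ℂ) Y
  let r : Matrix n n ℂ →L[ℝ] Matrix n n ℂ := (ContinuousLinearMap.mul ℝ (Matrix n n ℂ)).flip (-Y)
  have hl : ∀ B, l B = Y * B := fun B => rfl
  have hr : ∀ B, r B = B * (-Y) := fun B => rfl
  have hcomm : Commute l r := by
    ext1 B
    simp [ContinuousLinearMap.mul_def, hl, hr, mul_assoc]
  have hlk : ∀ (k : ℕ) B, (l ^ k) B = Y ^ k * B := by
    intro k
    induction k with
    | zero => intro B; simp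
    | succ k ih => intro B; rw [pow_succ, mul_apply_eq_comp, ih, hl, pow_succ, mul_assoc]
  have hrk : ∀ (k : ℕ) B, (r ^ k) B = B * (-Y) ^ k := by
    intro k
    induction k with
    | zero => intro B; simp
    | succ k ih =>
      intro B
      rw [pow_succ, mul_apply_eq_comp, ih, hr, pow_succ', mul_assoc]
  have hexpl : ∀ B, (exp l) B = exp Y * B := by
    intro B
    have h1 := (NormedSpace.exp_series_hasSum_exp' (𝕂 := ℝ) l).mapL
      (ContinuousLinearMap.apply ℝ (Matrix n n ℂ) B)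
    have h2 := (NormedSpace.exp_series_hasSum_exp' (𝕂 := ℝ) Y).mul_right B
    refine HasSum.unique h1 ?_
    have : (fun k : ℕ => (ContinuousLinearMap.apply ℝ (Matrix n n ℂ) B) (((k.factorial : ℝ))⁻¹ • l ^ k))
        = fun k : ℕ => (((k.factorial : ℝ))⁻¹ • Y ^ k) * B := by
      funext k
      simp [hlk]
    rw [this]; exact h2
  have hexpr : ∀ B, (exp r) B = B * exp (-Y) := by
    intro B
    have h1 := (NormedSpace.exp_series_hasSum_exp' (𝕂 := ℝ) r).mapL
      (ContinuousLinearMap.apply ℝ (Matrix n n ℂ) B)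
    have h2 := (NormedSpace.exp_series_hasSum_exp' (𝕂 := ℝ) (-Y)).mul_left B
    refine HasSum.unique h1 ?_
    have : (fun k : ℕ => (ContinuousLinearMap.apply ℝ (Matrix n n ℂ) B) (((k.factorial : ℝ))⁻¹ • r ^ k))
        = fun k : ℕ => B * (((k.factorial : ℝ))⁻¹ • (-Y) ^ k) := by
      funext k
      simp [hrk]
    rw [this]; exact h2
  have hk : ∀ k : ℕ, ((l + r) ^ k) A ∈ 𝔤 := by
    intro k
    induction k with
    | zero => simpa using hA
    | succ k ih =>
      rw [pow_succ', mul_apply_eq_comp]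
      simpa [hl, hr, sub_eq_add_neg] using hY _ ih
  have h3 : exp (l + r) = exp l * exp r := by
    let _ : NormedAlgebra ℚ (Matrix n n ℂ →L[ℝ] Matrix n n ℂ) := NormedAlgebra.restrictScalars ℚ ℝ _
    exact NormedSpace.exp_add_of_commute (𝔸 := Matrix n n ℂ →L[ℝ] Matrix n n ℂ) hcomm
  have h4 : (exp (l + r)) A = exp Y * A * exp (-Y) := by
    rw [h3, mul_apply_eq_comp, hexpl, hexpr, mul_assoc]
  rw [← h4]
  have h5 := (NormedSpace.exp_series_hasSum_exp' (𝕂 := ℝ) (l + r)).mapL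
      (ContinuousLinearMap.apply ℝ (Matrix n n ℂ) A)
  have hclosed : IsClosed (𝔤 : Set (Matrix n n ℂ)) := 𝔤.closed_of_finiteDimensional
  refine hclosed.mem_of_tendsto h5 (Filter.Eventually.of_forall fun s => ?_)
  refine 𝔤.sum_mem fun k _ => ?_
  simpa using 𝔤.smul_mem _ (hk k)

end Ad

section Normaliser

variable {n : Type*} [Fintype n] [DecidableEq n]

/-- Unitary matrices normalising the real space `𝔤`. -/
def normaliser (𝔤 : Submodule ℝ (Matrix n n ℂ)) : Set (Matrix n n ℂ) :=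
  {U | star U * U = 1 ∧ U * star U = 1 ∧
    (∀ A ∈ 𝔤, U * A * star U ∈ 𝔤) ∧ (∀ A ∈ 𝔤, star U * A * U ∈ 𝔤)}

lemma one_mem_normaliser (𝔤 : Submodule ℝ (Matrix n n ℂ)) : (1 : Matrix n n ℂ) ∈ normaliser 𝔤 := by
  simp [normaliser]

lemma mul_mem_normaliser {𝔤 : Submodule ℝ (Matrix n n ℂ)} {U V : Matrix n n ℂ}
    (hU : U ∈ normaliser 𝔤) (hV : V ∈ normaliser 𝔤) : U * V ∈ normaliser 𝔤 := by
  obtain ⟨u1, u2, u3, u4⟩ := hU
  obtain ⟨v1, v2, v3, v4⟩ := hV
  refine ⟨?_, ?_, ?_, ?_⟩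
  · calc star (U * V) * (U * V) = star V * (star U * U) * V := by
          rw [star_mul]; noncomm_ring
      _ = 1 := by rw [u1, mul_one, v1]
  · calc (U * V) * star (U * V) = U * (V * star V) * star U := by
          rw [star_mul]; noncomm_ring
      _ = 1 := by rw [v2, mul_one, u2]
  · intro A hA
    have := u3 _ (v3 A hA)
    have e : U * V * A * star (U * V) = U * (V * A * star V) * star U := by
      rw [star_mul]; noncomm_ring
    rw [e]; exact this
  · intro A hA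
    have := v4 _ (u4 A hA)
    have e : star (U * V) * A * (U * V) = star V * (star U * A * U) * V := by
      rw [star_mul]; noncomm_ring
    rw [e]; exact this

lemma exp_mem_normaliser (𝔤 : Submodule ℝ (Matrix n n ℂ))
    (hskew : ∀ X ∈ 𝔤, Xᴴ = -X) (hbr : ∀ X ∈ 𝔤, ∀ Y ∈ 𝔤, X * Y - Y * X ∈ 𝔤)
    {Y : Matrix n n ℂ} (hY : Y ∈ 𝔤) : exp Y ∈ normaliser 𝔤 := by
  have hs : star (exp Y) = exp (-Y) := by
    rw [NormedSpace.star_exp, Matrix.star_eq_conjTranspose, hskew Y hY]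
  have h1 : exp (-Y) * exp Y = 1 := by
    rw [← Matrix.exp_add_of_commute _ _ (Commute.neg_left (Commute.refl Y))]; simp
  have h2 : exp Y * exp (-Y) = 1 := by
    rw [← Matrix.exp_add_of_commute _ _ (Commute.neg_right (Commute.refl Y))]; simp
  refine ⟨?_, ?_, ?_, ?_⟩
  · rw [hs, h1]
  · rw [hs, h2]
  · intro A hA
    rw [hs]
    exact exp_mul_mul_exp_neg_mem 𝔤 Y (fun A hA => hbr Y hY A hA) A hA
  · intro A hA
    rw [hs]
    have := exp_mul_mul_exp_neg_mem 𝔤 (-Y) (fun A hA => by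
      have e : -Y * A - A * -Y = -(Y * A - A * Y) := by noncomm_ring
      rw [e]; exact 𝔤.neg_mem (hbr Y hY A hA)) A hA
    simpa using this

lemma isClosed_normaliser (𝔤 : Submodule ℝ (Matrix n n ℂ)) : IsClosed (normaliser 𝔤) := by
  have hc : IsClosed (𝔤 : Set (Matrix n n ℂ)) := 𝔤.closed_of_finiteDimensional
  have e : normaliser 𝔤 = {U : Matrix n n ℂ | star U * U = 1} ∩ {U | U * star U = 1} ∩
      (⋂ A ∈ 𝔤, {U | U * A * star U ∈ (𝔤 : Set (Matrix n n ℂ))}) ∩
      (⋂ A ∈ 𝔤, {U | star U * A * U ∈ (𝔤 : Set (Matrix n n ℂ))}) := by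
    ext U
    simp [normaliser, and_assoc]
  rw [e]
  refine IsClosed.inter (IsClosed.inter (IsClosed.inter ?_ ?_) ?_) ?_
  · exact isClosed_eq (by fun_prop) continuous_const
  · exact isClosed_eq (by fun_prop) continuous_const
  · refine isClosed_biInter fun A _ => ?_
    exact hc.preimage (f := fun U : Matrix n n ℂ => U * A * star U) (by fun_prop)
  · refine isClosed_biInter fun A _ => ?_
    exact hc.preimage (f := fun U : Matrix n n ℂ => star U * A * U) (by fun_prop)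

lemma norm_le_one_of_mem_normaliser {𝔤 : Submodule ℝ (Matrix n n ℂ)} {U : Matrix n n ℂ}
    (hU : U ∈ normaliser 𝔤) : ‖U‖ ≤ 1 := by
  have h : ‖star U * U‖ = ‖U‖ * ‖U‖ := CStarRing.norm_star_mul_self
  rw [hU.1] at h
  have h1 : ‖(1 : Matrix n n ℂ)‖ ≤ 1 := by
    rcases isEmpty_or_nonempty n with hn | hn
    · have : (1 : Matrix n n ℂ) = 0 := Subsingleton.elim _ _
      rw [this]; simp
    · exact le_of_eq norm_one
  nlinarith [norm_nonneg U]

lemma isCompact_normaliser (𝔤 : Submodule ℝ (Matrix n n ℂ)) : IsCompact (normaliser 𝔤) := by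
  refine Metric.isCompact_of_isClosed_isBounded (isClosed_normaliser 𝔤) ?_
  refine (Metric.isBounded_closedBall (x := (0 : Matrix n n ℂ)) (r := 1)).subset ?_
  intro U hU
  simpa using norm_le_one_of_mem_normaliser hU

end Normaliser

section Decomposition

variable {n : Type*} [Fintype n] [DecidableEq n]

/-- The complexification `𝔤 + i 𝔤`. -/
def cplx (𝔤 : Submodule ℝ (Matrix n n ℂ)) : Set (Matrix n n ℂ) :=
  {W | ∃ X ∈ 𝔤, ∃ Y ∈ 𝔤, W = X + Complex.I • Y}

lemma cplx_add {𝔤 : Submodule ℝ (Matrix n n ℂ)} {A B : Matrix n n ℂ} (hA : A ∈ cplx 𝔤)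
    (hB : B ∈ cplx 𝔤) : A + B ∈ cplx 𝔤 := by
  obtain ⟨X, hX, Y, hY, rfl⟩ := hA
  obtain ⟨X', hX', Y', hY', rfl⟩ := hB
  exact ⟨X + X', 𝔤.add_mem hX hX', Y + Y', 𝔤.add_mem hY hY', by rw [smul_add]; abel⟩

lemma cplx_smul {𝔤 : Submodule ℝ (Matrix n n ℂ)} {A : Matrix n n ℂ} (hA : A ∈ cplx 𝔤)
    (z : ℂ) : z • A ∈ cplx 𝔤 := by
  obtain ⟨X, hX, Y, hY, rfl⟩ := hA
  refine ⟨z.re • X - z.im • Y, 𝔤.sub_mem (𝔤.smul_mem _ hX) (𝔤.smul_mem _ hY),
    z.im • X + z.re • Y, 𝔤.add_mem (𝔤.smul_mem _ hX) (𝔤.smul_mem _ hY), ?_⟩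
  ext i j
  simp only [Matrix.smul_apply, Matrix.add_apply, Matrix.sub_apply, smul_eq_mul,
    Complex.real_smul]
  apply Complex.ext <;> simp <;> ring

lemma cplx_zero (𝔤 : Submodule ℝ (Matrix n n ℂ)) : (0 : Matrix n n ℂ) ∈ cplx 𝔤 :=
  ⟨0, 𝔤.zero_mem, 0, 𝔤.zero_mem, by simp⟩

lemma cplx_bracket {𝔤 : Submodule ℝ (Matrix n n ℂ)}
    (hbr : ∀ X ∈ 𝔤, ∀ Y ∈ 𝔤, X * Y - Y * X ∈ 𝔤) {A B : Matrix n n ℂ}
    (hA : A ∈ cplx 𝔤) (hB : B ∈ cplx 𝔤) : A * B - B * A ∈ cplx 𝔤 := by
  obtain ⟨X, hX, Y, hY, rfl⟩ := hA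
  obtain ⟨X', hX', Y', hY', rfl⟩ := hB
  refine ⟨(X * X' - X' * X) - (Y * Y' - Y' * Y), 𝔤.sub_mem (hbr _ hX _ hX') (hbr _ hY _ hY'),
    (X * Y' - Y' * X) + (Y * X' - X' * Y), 𝔤.add_mem (hbr _ hX _ hY') (hbr _ hY _ hX'), ?_⟩
  simp only [add_mul, mul_add, smul_mul_assoc, mul_smul_comm, smul_smul, Complex.I_mul_I,
    smul_add, smul_sub, neg_smul, one_smul]
  abel

/-- The ad-eigencomponents of `W` for a diagonal element stay in the complexification. -/
lemma poly_mem_cplx {𝔤 : Submodule ℝ (Matrix n n ℂ)}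
    (hbr : ∀ X ∈ 𝔤, ∀ Y ∈ 𝔤, X * Y - Y * X ∈ 𝔤) (l : n → ℝ)
    (hl : Matrix.diagonal (fun i => (l i : ℂ)) ∈ cplx 𝔤) {W : Matrix n n ℂ} (hW : W ∈ cplx 𝔤)
    (p : Polynomial ℝ) :
    (Matrix.of fun i j => ((p.eval (l i - l j) : ℝ) : ℂ) * W i j) ∈ cplx 𝔤 := by
  induction p using Polynomial.induction_on' with
  | add p q hp hq =>
    have := cplx_add hp hq
    convert this using 1
    ext i j
    simp [Polynomial.eval_add, add_mul]
  | monomial k a =>
    induction k with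
    | zero =>
      have := cplx_smul hW (a : ℂ)
      convert this using 1
      ext i j
      simp
    | succ k ih =>
      have := cplx_bracket hbr hl ih
      convert this using 1
      ext i j
      simp [Matrix.diagonal_mul, Matrix.mul_diagonal, Polynomial.eval_monomial, pow_succ]
      ring

/-- The strictly lower part relative to the order of `l`. -/
noncomputable def lower (l : n → ℝ) : Matrix n n ℂ →ₗ[ℂ] Matrix n n ℂ where
  toFun W := Matrix.of fun i j => if l i < l j then W i j else 0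
  map_add' A B := by
    ext i j
    simp only [Matrix.of_apply, Matrix.add_apply]
    split_ifs <;> simp
  map_smul' z A := by
    ext i j
    simp only [Matrix.of_apply, Matrix.smul_apply, RingHom.id_apply]
    split_ifs <;> simp

lemma lower_apply (l : n → ℝ) (W : Matrix n n ℂ) (i j : n) :
    lower l W i j = if l i < l j then W i j else 0 := rfl

lemma lower_mem_cplx {𝔤 : Submodule ℝ (Matrix n n ℂ)}
    (hbr : ∀ X ∈ 𝔤, ∀ Y ∈ 𝔤, X * Y - Y * X ∈ 𝔤) (l : n → ℝ)
    (hl : Matrix.diagonal (fun i => (l i : ℂ)) ∈ cplx 𝔤) {W : Matrix n n ℂ} (hW : W ∈ cplx 𝔤) :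
    lower l W ∈ cplx 𝔤 := by
  classical
  let s : Finset ℝ := Finset.univ.image (fun ij : n × n => l ij.1 - l ij.2)
  let p : Polynomial ℝ := Lagrange.interpolate s id (fun x : ℝ => if x < 0 then (1 : ℝ) else 0)
  have hp : ∀ i j : n, p.eval (l i - l j) = if l i < l j then (1 : ℝ) else 0 := by
    intro i j
    have hmem : l i - l j ∈ s := Finset.mem_image.mpr ⟨(i, j), Finset.mem_univ _, rfl⟩
    have := Lagrange.eval_interpolate_at_node (r := fun x : ℝ => if x < 0 then (1 : ℝ) else 0)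
      (s := s) (v := id) (Set.injOn_id _) hmem
    simp only [id] at this
    simp only [p]
    rw [this]
    simp [sub_neg]
  have := poly_mem_cplx hbr l hl hW p
  convert this using 1
  ext i j
  rw [lower_apply, Matrix.of_apply, hp]
  split_ifs <;> simp

/-- Block triangular matrices: they map large eigenvalues to large eigenvalues. -/
def upper (l : n → ℝ) : Set (Matrix n n ℂ) := {B | ∀ i j, l i < l j → B i j = 0}

lemma mem_upper_iff (l : n → ℝ) (B : Matrix n n ℂ) :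
    B ∈ upper l ↔ Matrix.BlockTriangular B (fun i => OrderDual.toDual (l i)) := by
  constructor
  · intro h i j hij
    exact h i j (by simpa using hij)
  · intro h i j hij
    exact h (by simpa using hij)

lemma one_mem_upper (l : n → ℝ) : (1 : Matrix n n ℂ) ∈ upper l := by
  intro i j hij
  have : i ≠ j := by rintro rfl; exact lt_irrefl _ hij
  simp [this]

lemma mul_mem_upper {l : n → ℝ} {A B : Matrix n n ℂ} (hA : A ∈ upper l) (hB : B ∈ upper l) :
    A * B ∈ upper l := by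
  rw [mem_upper_iff] at *
  exact hA.mul hB

lemma exp_mem_upper {l : n → ℝ} {A : Matrix n n ℂ} (hA : A ∈ upper l) :
    exp A ∈ upper l := by
  rw [mem_upper_iff] at *
  exact hA.exp

lemma isClosed_upper (l : n → ℝ) : IsClosed (upper l : Set (Matrix n n ℂ)) := by
  have : upper l = ⋂ i : n, ⋂ j : n, {B : Matrix n n ℂ | l i < l j → B i j = 0} := by
    ext B; simp [upper]
  rw [this]
  refine isClosed_iInter fun i => isClosed_iInter fun j => ?_
  by_cases h : l i < l j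
  · simp only [h, forall_const]
    exact isClosed_eq (by fun_prop) continuous_const
  · simp [h]

/-- Infinitesimal Iwasawa decomposition. -/
lemma decomp {𝔤 : Submodule ℝ (Matrix n n ℂ)} (hskew : ∀ X ∈ 𝔤, Xᴴ = -X)
    (hbr : ∀ X ∈ 𝔤, ∀ Y ∈ 𝔤, X * Y - Y * X ∈ 𝔤) (l : n → ℝ)
    (hl : Matrix.diagonal (fun i => (l i : ℂ)) ∈ cplx 𝔤) {W : Matrix n n ℂ} (hW : W ∈ cplx 𝔤) :
    lower l W - (lower l W)ᴴ ∈ 𝔤 ∧ W - (lower l W - (lower l W)ᴴ) ∈ upper l := by
  constructor
  · obtain ⟨A, hA, B, hB, h⟩ := lower_mem_cplx hbr l hl hW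
    have : lower l W - (lower l W)ᴴ = (2 : ℝ) • A := by
      rw [h, Matrix.conjTranspose_add, Matrix.conjTranspose_smul, hskew A hA, hskew B hB]
      ext i j
      simp
      ring
    rw [this]
    exact 𝔤.smul_mem _ hA
  · intro i j hij
    have hji : ¬ l j < l i := not_lt.mpr hij.le
    simp [lower_apply, Matrix.sub_apply, Matrix.conjTranspose_apply, hij, hji]

end Decomposition

section Factor

variable {n : Type*} [Fintype n] [DecidableEq n]

lemma conj_mem_cplx {𝔤 : Submodule ℝ (Matrix n n ℂ)} {U W : Matrix n n ℂ}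
    (hU : U ∈ normaliser 𝔤) (hW : W ∈ cplx 𝔤) : star U * W * U ∈ cplx 𝔤 := by
  obtain ⟨X, hX, Y, hY, rfl⟩ := hW
  refine ⟨star U * X * U, hU.2.2.2 X hX, star U * Y * U, hU.2.2.2 Y hY, ?_⟩
  simp [mul_add, add_mul]

lemma norm_conj_le {𝔤 : Submodule ℝ (Matrix n n ℂ)} {U W : Matrix n n ℂ}
    (hU : U ∈ normaliser 𝔤) : ‖star U * W * U‖ ≤ ‖W‖ := by
  have h1 : ‖U‖ ≤ 1 := norm_le_one_of_mem_normaliser hU
  have h2 : ‖star U‖ ≤ 1 := by rw [norm_star]; exact h1
  calc ‖star U * W * U‖ ≤ ‖star U * W‖ * ‖U‖ := norm_mul_le _ _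
    _ ≤ (‖star U‖ * ‖W‖) * ‖U‖ := by gcongr; exact norm_mul_le _ _
    _ ≤ (1 * ‖W‖) * 1 := by gcongr
    _ = ‖W‖ := by ring

/-- One Euler step. -/
lemma euler_step [Nonempty n] {𝔤 : Submodule ℝ (Matrix n n ℂ)} (hskew : ∀ X ∈ 𝔤, Xᴴ = -X)
    (hbr : ∀ X ∈ 𝔤, ∀ Y ∈ 𝔤, X * Y - Y * X ∈ 𝔤) (l : n → ℝ)
    (hl : Matrix.diagonal (fun i => (l i : ℂ)) ∈ cplx 𝔤) {W : Matrix n n ℂ} (hW : W ∈ cplx 𝔤) :
    ∃ a C : ℝ, 0 ≤ a ∧ 0 ≤ C ∧ ‖W‖ ≤ a ∧ ∀ t : ℝ, 0 ≤ t → t ≤ 1 → ∀ U ∈ normaliser 𝔤,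
      ∃ U' ∈ normaliser 𝔤, ∃ B' ∈ upper l, ‖B'‖ ≤ Real.exp (a * t) ∧
        ‖exp (t • W) * U - U' * B'‖ ≤ C * t ^ 2 := by
  set L := LinearMap.toContinuousLinearMap (lower (n := n) l) with hL
  set a : ℝ := (1 + 2 * ‖L‖) * ‖W‖ with ha
  have hL0 : 0 ≤ ‖L‖ := norm_nonneg _
  have hW0 : 0 ≤ ‖W‖ := norm_nonneg _
  have ha0 : 0 ≤ a := by positivity
  refine ⟨a, 4 * a ^ 2 * Real.exp (2 * a) + a ^ 2 * Real.exp a + a * (a + a ^ 2 * Real.exp a)
        + a ^ 2 * Real.exp a * Real.exp a, ha0, by positivity, by nlinarith, ?_⟩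
  intro t ht0 ht1 U hU
  set V := star U * W * U with hV
  have hVc : V ∈ cplx 𝔤 := conj_mem_cplx hU hW
  have hVn : ‖V‖ ≤ ‖W‖ := norm_conj_le hU
  obtain ⟨hY, hZ⟩ := decomp hskew hbr l hl hVc
  set Y := lower l V - (lower l V)ᴴ with hYdef
  set Z := V - Y with hZdef
  have hlow : ‖lower l V‖ ≤ ‖L‖ * ‖W‖ := by
    have : ‖L V‖ ≤ ‖L‖ * ‖V‖ := L.le_opNorm V
    calc ‖lower l V‖ = ‖L V‖ := rfl
      _ ≤ ‖L‖ * ‖V‖ := this
      _ ≤ ‖L‖ * ‖W‖ := by gcongr
  have hYn : ‖Y‖ ≤ 2 * ‖L‖ * ‖W‖ := by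
    have h1 : ‖(lower l V)ᴴ‖ = ‖lower l V‖ := by
      rw [← Matrix.star_eq_conjTranspose, norm_star]
    calc ‖Y‖ ≤ ‖lower l V‖ + ‖(lower l V)ᴴ‖ := norm_sub_le _ _
      _ ≤ 2 * ‖L‖ * ‖W‖ := by rw [h1]; linarith
  have hYa : ‖Y‖ ≤ a := by nlinarith
  have hZa : ‖Z‖ ≤ a := by
    calc ‖Z‖ ≤ ‖V‖ + ‖Y‖ := norm_sub_le _ _
      _ ≤ a := by rw [ha]; nlinarith
  have hYZ : Y + Z = V := by rw [hZdef]; abel
  refine ⟨U * exp (t • Y), mul_mem_normaliser hU
    (exp_mem_normaliser 𝔤 hskew hbr (𝔤.smul_mem t hY)), exp (t • Z), ?_, ?_, ?_⟩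
  · refine exp_mem_upper ?_
    intro i j hij
    rw [Matrix.smul_apply, hZ i j hij, smul_zero]
  · refine (norm_exp_le _).trans (Real.exp_le_exp.mpr ?_)
    rw [norm_smul, Real.norm_of_nonneg ht0, mul_comm]
    gcongr
  · have e1 : exp (t • W) * U = U * exp (t • (Y + Z)) := by
      rw [hYZ]
      have hsemi : SemiconjBy U (t • V) (t • W) := by
        unfold SemiconjBy
        rw [hV, mul_smul_comm, smul_mul_assoc]
        congr 1
        calc U * (star U * W * U) = (U * star U) * W * U := by noncomm_ring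
          _ = W * U := by rw [hU.2.1, one_mul]
      have h3 : SemiconjBy U (exp (t • V)) (exp (t • W)) := by
        let _ : NormedAlgebra ℚ (Matrix n n ℂ) := NormedAlgebra.restrictScalars ℚ ℝ _
        exact SemiconjBy.exp_right (𝔸 := Matrix n n ℂ) hsemi
      exact h3.eq.symm
    have e2 : exp (t • W) * U - U * exp (t • Y) * exp (t • Z) =
        U * (exp (t • (Y + Z)) - exp (t • Y) * exp (t • Z)) := by
      rw [e1]; noncomm_ring
    rw [e2]
    calc ‖U * (exp (t • (Y + Z)) - exp (t • Y) * exp (t • Z))‖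
        ≤ ‖U‖ * ‖exp (t • (Y + Z)) - exp (t • Y) * exp (t • Z)‖ := norm_mul_le _ _
      _ ≤ 1 * ((4 * a ^ 2 * Real.exp (2 * a) + a ^ 2 * Real.exp a
            + a * (a + a ^ 2 * Real.exp a) + a ^ 2 * Real.exp a * Real.exp a) * t ^ 2) :=
          mul_le_mul (norm_le_one_of_mem_normaliser hU)
            (norm_exp_add_sub_mul_le ha0 ht0 ht1 Y Z hYa hZa) (norm_nonneg _) zero_le_one
      _ = _ := by rw [one_mul]

/-- Euler scheme: approximate Iwasawa factorisation of `exp W`. -/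
lemma euler_scheme [Nonempty n] {𝔤 : Submodule ℝ (Matrix n n ℂ)} (hskew : ∀ X ∈ 𝔤, Xᴴ = -X)
    (hbr : ∀ X ∈ 𝔤, ∀ Y ∈ 𝔤, X * Y - Y * X ∈ 𝔤) (l : n → ℝ)
    (hl : Matrix.diagonal (fun i => (l i : ℂ)) ∈ cplx 𝔤) {W : Matrix n n ℂ} (hW : W ∈ cplx 𝔤) :
    ∃ D : ℝ, ∀ N : ℕ, ∃ U ∈ normaliser 𝔤, ∃ B ∈ upper l,
      ‖exp W - U * B‖ ≤ D / (N + 1) := by
  obtain ⟨a, C, ha, hC, hWa, hstep⟩ := euler_step hskew hbr l hl hW
  refine ⟨C * Real.exp a, fun N => ?_⟩
  set t : ℝ := 1 / (N + 1) with ht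
  have hN : (0 : ℝ) < N + 1 := by positivity
  have ht0 : 0 ≤ t := by positivity
  have ht1 : t ≤ 1 := by
    rw [ht, div_le_one hN]; linarith [(Nat.cast_nonneg N : (0:ℝ) ≤ N)]
  have key : ∀ i : ℕ, ∃ U ∈ normaliser 𝔤, ∃ B ∈ upper l, ‖B‖ ≤ Real.exp (a * t) ^ i ∧
      ‖exp (t • W) ^ i - U * B‖ ≤ i * (C * t ^ 2) * Real.exp (a * t) ^ i := by
    intro i
    induction i with
    | zero =>
      exact ⟨1, one_mem_normaliser 𝔤, 1, one_mem_upper l, by simp, by simp⟩
    | succ i ih =>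
      obtain ⟨U, hU, B, hB, hBn, hR⟩ := ih
      obtain ⟨U', hU', B', hB', hBn', hR'⟩ := hstep t ht0 ht1 U hU
      refine ⟨U', hU', B' * B, mul_mem_upper hB' hB, ?_, ?_⟩
      · calc ‖B' * B‖ ≤ ‖B'‖ * ‖B‖ := norm_mul_le _ _
          _ ≤ Real.exp (a * t) * Real.exp (a * t) ^ i := by gcongr
          _ = Real.exp (a * t) ^ (i + 1) := by rw [pow_succ']
      · have hE : ‖exp (t • W)‖ ≤ Real.exp (a * t) := by
          refine (norm_exp_le _).trans (Real.exp_le_exp.mpr ?_)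
          rw [norm_smul, Real.norm_of_nonneg ht0, mul_comm]
          gcongr
        have hE1 : 1 ≤ Real.exp (a * t) := Real.one_le_exp (by positivity)
        have e : exp (t • W) ^ (i + 1) - U' * (B' * B) =
            exp (t • W) * (exp (t • W) ^ i - U * B) + (exp (t • W) * U - U' * B') * B := by
          rw [pow_succ']; noncomm_ring
        rw [e]
        calc ‖exp (t • W) * (exp (t • W) ^ i - U * B) + (exp (t • W) * U - U' * B') * B‖
            ≤ ‖exp (t • W)‖ * ‖exp (t • W) ^ i - U * B‖ + ‖exp (t • W) * U - U' * B'‖ * ‖B‖ :=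
              (norm_add_le _ _).trans (add_le_add (norm_mul_le _ _) (norm_mul_le _ _))
          _ ≤ Real.exp (a * t) * (i * (C * t ^ 2) * Real.exp (a * t) ^ i) +
              (C * t ^ 2) * Real.exp (a * t) ^ i := by gcongr
          _ ≤ Real.exp (a * t) * (i * (C * t ^ 2) * Real.exp (a * t) ^ i) +
              (C * t ^ 2) * (Real.exp (a * t) * Real.exp (a * t) ^ i) := by
              have h0 : 0 ≤ Real.exp (a * t) ^ i := by positivity
              gcongr
              exact le_mul_of_one_le_left h0 hE1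
          _ = ((i + 1 : ℕ) : ℝ) * (C * t ^ 2) * Real.exp (a * t) ^ (i + 1) := by
              push_cast; rw [pow_succ']; ring
  obtain ⟨U, hU, B, hB, -, hR⟩ := key (N + 1)
  refine ⟨U, hU, B, hB, ?_⟩
  have h1 : exp (t • W) ^ (N + 1) = exp W := by
    rw [← Matrix.exp_nsmul]
    congr 1
    rw [← Nat.cast_smul_eq_nsmul ℝ, smul_smul]
    have : ((N + 1 : ℕ) : ℝ) * t = 1 := by
      rw [ht]; push_cast; field_simp
    rw [this, one_smul]
  have h2 : Real.exp (a * t) ^ (N + 1) = Real.exp a := by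
    rw [← Real.exp_nat_mul]
    congr 1
    rw [ht]; push_cast; field_simp
  rw [h1, h2] at hR
  refine hR.trans (le_of_eq ?_)
  rw [ht]; push_cast; field_simp

/-- Iwasawa factorisation of exponentials, relative to a diagonal element. -/
lemma exp_factor_diag {𝔤 : Submodule ℝ (Matrix n n ℂ)} (hskew : ∀ X ∈ 𝔤, Xᴴ = -X)
    (hbr : ∀ X ∈ 𝔤, ∀ Y ∈ 𝔤, X * Y - Y * X ∈ 𝔤) (l : n → ℝ)
    (hl : Matrix.diagonal (fun i => (l i : ℂ)) ∈ cplx 𝔤) {W : Matrix n n ℂ} (hW : W ∈ cplx 𝔤) :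
    ∃ U ∈ normaliser 𝔤, ∃ B ∈ upper l, exp W = U * B := by
  rcases isEmpty_or_nonempty n with hn | hn
  · exact ⟨1, one_mem_normaliser 𝔤, 1, one_mem_upper l, Subsingleton.elim _ _⟩
  obtain ⟨D, hD⟩ := euler_scheme hskew hbr l hl hW
  choose U hU B hB hR using hD
  obtain ⟨U0, hU0, φ, hφ, hlim⟩ := (isCompact_normaliser 𝔤).tendsto_subseq hU
  have hR0 : Filter.Tendsto (fun N : ℕ => exp W - U N * B N) Filter.atTop (nhds 0) := by
    refine squeeze_zero_norm hR ?_
    have := tendsto_const_div_atTop_nhds_zero_nat D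
    exact (Filter.tendsto_add_atTop_iff_nat 1).mpr this |>.congr (fun N => by push_cast; rfl)
  have hR1 := hR0.comp hφ.tendsto_atTop
  have hB1 : ∀ N, B (φ N) = star (U (φ N)) * (exp W - (exp W - U (φ N) * B (φ N))) := by
    intro N
    have := (hU (φ N)).1
    calc B (φ N) = (star (U (φ N)) * U (φ N)) * B (φ N) := by rw [this, one_mul]
      _ = _ := by noncomm_ring
  have hlim2 : Filter.Tendsto (fun N => B (φ N)) Filter.atTop (nhds (star U0 * (exp W - 0))) := by
    have h1 : Filter.Tendsto (fun N => star (U (φ N))) Filter.atTop (nhds (star U0)) :=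
      (continuous_star.tendsto U0).comp hlim
    have h2 := h1.mul (tendsto_const_nhds.sub hR1 (a := exp W))
    refine h2.congr fun N => ?_
    exact (hB1 N).symm
  rw [sub_zero] at hlim2
  refine ⟨U0, hU0, star U0 * exp W, ?_, ?_⟩
  · exact (isClosed_upper l).mem_of_tendsto hlim2 (Filter.Eventually.of_forall fun N => hB (φ N))
  · rw [← mul_assoc, hU0.2.1, one_mul]

end Factor

section General

variable {n : Type*} [Fintype n] [DecidableEq n]

/-- Iwasawa factorisation of exponentials relative to a Hermitian element `V diag(l) V⋆`. -/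
lemma exp_factor {𝔤 : Submodule ℝ (Matrix n n ℂ)} (hskew : ∀ X ∈ 𝔤, Xᴴ = -X)
    (hbr : ∀ X ∈ 𝔤, ∀ Y ∈ 𝔤, X * Y - Y * X ∈ 𝔤) (l : n → ℝ) (V : Matrix n n ℂ)
    (hV1 : star V * V = 1) (hV2 : V * star V = 1)
    (hl : V * Matrix.diagonal (fun i => (l i : ℂ)) * star V ∈ cplx 𝔤)
    {W : Matrix n n ℂ} (hW : W ∈ cplx 𝔤) :
    ∃ U ∈ normaliser 𝔤, ∃ B : Matrix n n ℂ, star V * B * V ∈ upper l ∧ exp W = U * B := by
  let f : Matrix n n ℂ →ₗ[ℝ] Matrix n n ℂ :=
    { toFun := fun A => star V * A * V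
      map_add' := fun A B => by rw [mul_add, add_mul]
      map_smul' := fun r A => by simp }
  have hf : ∀ A, f A = star V * A * V := fun A => rfl
  have hVf : ∀ A, V * f A * star V = A := by
    intro A
    rw [hf]
    calc V * (star V * A * V) * star V = (V * star V) * A * (V * star V) := by noncomm_ring
      _ = A := by rw [hV2, one_mul, mul_one]
  let 𝔤' := 𝔤.map f
  have hmem : ∀ A, A ∈ 𝔤' ↔ ∃ X ∈ 𝔤, f X = A := fun A => Submodule.mem_map
  have hmemV : ∀ A ∈ 𝔤', V * A * star V ∈ 𝔤 := by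
    intro A hA
    obtain ⟨X, hX, rfl⟩ := (hmem A).1 hA
    rw [hVf]; exact hX
  have hskew' : ∀ X ∈ 𝔤', Xᴴ = -X := by
    intro A hA
    obtain ⟨X, hX, rfl⟩ := (hmem A).1 hA
    rw [hf, ← Matrix.star_eq_conjTranspose, star_mul, star_mul, star_star,
      Matrix.star_eq_conjTranspose X, hskew X hX]
    noncomm_ring
  have hbr' : ∀ X ∈ 𝔤', ∀ Y ∈ 𝔤', X * Y - Y * X ∈ 𝔤' := by
    intro A hA B hB
    obtain ⟨X, hX, rfl⟩ := (hmem A).1 hA
    obtain ⟨Y, hY, rfl⟩ := (hmem B).1 hB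
    refine (hmem _).2 ⟨X * Y - Y * X, hbr X hX Y hY, ?_⟩
    rw [hf, hf, hf]
    calc star V * (X * Y - Y * X) * V = star V * X * 1 * Y * V - star V * Y * 1 * X * V := by
          noncomm_ring
      _ = star V * X * (V * star V) * Y * V - star V * Y * (V * star V) * X * V := by rw [hV2]
      _ = _ := by noncomm_ring
  have hc : ∀ A ∈ cplx 𝔤, star V * A * V ∈ cplx 𝔤' := by
    rintro A ⟨X, hX, Y, hY, rfl⟩
    exact ⟨f X, (hmem _).2 ⟨X, hX, rfl⟩, f Y, (hmem _).2 ⟨Y, hY, rfl⟩, by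
      rw [hf, hf]; simp [mul_add, add_mul]⟩
  have hl' : Matrix.diagonal (fun i => (l i : ℂ)) ∈ cplx 𝔤' := by
    have := hc _ hl
    have e : star V * (V * Matrix.diagonal (fun i => (l i : ℂ)) * star V) * V =
        Matrix.diagonal (fun i => (l i : ℂ)) := by
      calc star V * (V * Matrix.diagonal (fun i => (l i : ℂ)) * star V) * V
          = (star V * V) * Matrix.diagonal (fun i => (l i : ℂ)) * (star V * V) := by noncomm_ring
        _ = _ := by rw [hV1, one_mul, mul_one]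
    rwa [e] at this
  obtain ⟨U, hU, B, hB, hUB⟩ := exp_factor_diag hskew' hbr' l hl' (hc W hW)
  have hexp : exp W = V * exp (star V * W * V) * star V := by
    have hsemi : SemiconjBy V (star V * W * V) W := by
      unfold SemiconjBy
      calc V * (star V * W * V) = (V * star V) * W * V := by noncomm_ring
        _ = W * V := by rw [hV2, one_mul]
    have h3 : SemiconjBy V (exp (star V * W * V)) (exp W) := by
      let _ : NormedAlgebra ℚ (Matrix n n ℂ) := NormedAlgebra.restrictScalars ℚ ℝ _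
      exact SemiconjBy.exp_right (𝔸 := Matrix n n ℂ) hsemi
    rw [h3.eq, mul_assoc, hV2, mul_one]
  refine ⟨V * U * star V, ⟨?_, ?_, ?_, ?_⟩, V * B * star V, ?_, ?_⟩
  · calc star (V * U * star V) * (V * U * star V)
        = V * (star U * (star V * V) * U) * star V := by
          rw [star_mul, star_mul, star_star]; noncomm_ring
      _ = 1 := by rw [hV1, mul_one, hU.1, mul_one, hV2]
  · calc (V * U * star V) * star (V * U * star V)
        = V * (U * (star V * V) * star U) * star V := by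
          rw [star_mul, star_mul, star_star]; noncomm_ring
      _ = 1 := by rw [hV1, mul_one, hU.2.1, mul_one, hV2]
  · intro A hA
    have h1 : f A ∈ 𝔤' := (hmem _).2 ⟨A, hA, rfl⟩
    have h2 := hmemV _ (hU.2.2.1 _ h1)
    have e : V * U * star V * A * star (V * U * star V) = V * (U * f A * star U) * star V := by
      rw [star_mul, star_mul, star_star, hf]; noncomm_ring
    rw [e]; exact h2
  · intro A hA
    have h1 : f A ∈ 𝔤' := (hmem _).2 ⟨A, hA, rfl⟩
    have h2 := hmemV _ (hU.2.2.2 _ h1)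
    have e : star (V * U * star V) * A * (V * U * star V) = V * (star U * f A * U) * star V := by
      rw [star_mul, star_mul, star_star, hf]; noncomm_ring
    rw [e]; exact h2
  · have e : star V * (V * B * star V) * V = B := by
      calc star V * (V * B * star V) * V = (star V * V) * B * (star V * V) := by noncomm_ring
        _ = B := by rw [hV1, one_mul, mul_one]
    rw [e]; exact hB
  · rw [hexp, hUB]
    calc V * (U * B) * star V = V * U * 1 * B * star V := by noncomm_ring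
      _ = V * U * (star V * V) * B * star V := by rw [hV1]
      _ = _ := by noncomm_ring

end General

section Dominance

/-- Stochastic dominance implies comparison of means. -/
lemma mean_le_of_dominance {n : Type*} [Fintype n] (l a b : n → ℝ)
    (hsum : ∑ i, a i = ∑ i, b i)
    (hdom : ∀ c : ℝ, ∑ i, (if l i ≤ c then a i else 0) ≤ ∑ i, (if l i ≤ c then b i else 0)) :
    ∑ i, l i * b i ≤ ∑ i, l i * a i := by
  obtain ⟨R, hR⟩ : ∃ R : ℝ, ∀ i, |l i| < R := by
    refine ⟨∑ i, |l i| + 1, fun i => ?_⟩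
    have := Finset.single_le_sum (f := fun i => |l i|) (fun i _ => abs_nonneg _) (Finset.mem_univ i)
    linarith
  have hint : ∀ (i : n) (w : ℝ), ∫ c in (-R)..R, (if l i ≤ c then w else 0) = (R - l i) * w := by
    intro i w
    have h1 := abs_lt.mp (hR i)
    have hle : -R ≤ R := by linarith [h1.1, h1.2]
    have e : (fun c : ℝ => if l i ≤ c then w else 0) = (Set.Ici (l i)).indicator (fun _ => w) := by
      funext c; simp [Set.indicator_apply]
    rw [e, intervalIntegral.integral_of_le hle, MeasureTheory.integral_indicator measurableSet_Ici,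
      MeasureTheory.Measure.restrict_restrict measurableSet_Ici]
    have hset : Set.Ici (l i) ∩ Set.Ioc (-R) R = Set.Icc (l i) R := by
      ext c
      simp only [Set.mem_inter_iff, Set.mem_Ici, Set.mem_Ioc, Set.mem_Icc]
      constructor
      · rintro ⟨h2, h3, h4⟩; exact ⟨h2, h4⟩
      · rintro ⟨h2, h3⟩; exact ⟨h2, by linarith, h3⟩
    rw [hset, MeasureTheory.setIntegral_const, Real.volume_real_Icc_of_le (by linarith), smul_eq_mul]
  have hii : ∀ (i : n) (w : ℝ), IntervalIntegrable (fun c : ℝ => if l i ≤ c then w else 0)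
      MeasureTheory.volume (-R) R := by
    intro i w
    have e : (fun c : ℝ => if l i ≤ c then w else 0) = (Set.Ici (l i)).indicator (fun _ => w) := by
      funext c; simp [Set.indicator_apply]
    rw [e]
    exact ⟨(MeasureTheory.integrable_const w).indicator measurableSet_Ici,
      (MeasureTheory.integrable_const w).indicator measurableSet_Ici⟩
  have key : ∑ i, (R - l i) * a i ≤ ∑ i, (R - l i) * b i := by
    by_cases hn : Nonempty n
    · obtain ⟨i0⟩ := hn
      have h1 := abs_lt.mp (hR i0)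
      have hle : -R ≤ R := by linarith [h1.1, h1.2]
      calc ∑ i, (R - l i) * a i = ∫ c in (-R)..R, ∑ i, (if l i ≤ c then a i else 0) := by
            rw [intervalIntegral.integral_finsetSum (fun i _ => hii i (a i))]
            exact Finset.sum_congr rfl fun i _ => (hint i (a i)).symm
        _ ≤ ∫ c in (-R)..R, ∑ i, (if l i ≤ c then b i else 0) := by
            refine intervalIntegral.integral_mono_on hle ?_ ?_ (fun c _ => hdom c)
            · have e : (fun c : ℝ => ∑ i, (if l i ≤ c then a i else 0)) =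
                  ∑ i, (fun c : ℝ => if l i ≤ c then a i else 0) := by
                funext c; simp
              rw [e]
              exact IntervalIntegrable.sum _ (fun i _ => hii i (a i))
            · have e : (fun c : ℝ => ∑ i, (if l i ≤ c then b i else 0)) =
                  ∑ i, (fun c : ℝ => if l i ≤ c then b i else 0) := by
                funext c; simp
              rw [e]
              exact IntervalIntegrable.sum _ (fun i _ => hii i (b i))
        _ = ∑ i, (R - l i) * b i := by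
            rw [intervalIntegral.integral_finsetSum (fun i _ => hii i (b i))]
            exact Finset.sum_congr rfl fun i _ => hint i (b i)
    · have : IsEmpty n := not_nonempty_iff.mp hn
      simp
  have e1 : ∀ w : n → ℝ, ∑ i, (R - l i) * w i = R * ∑ i, w i - ∑ i, l i * w i := by
    intro w
    rw [Finset.mul_sum, ← Finset.sum_sub_distrib]
    exact Finset.sum_congr rfl fun i _ => by ring
  rw [e1, e1, hsum] at key
  linarith

variable {n : Type*} [Fintype n] [DecidableEq n]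

lemma sum_normSq_eq (B : Matrix n n ℂ) (v : n → ℂ) :
    ∑ i, Complex.normSq ((B *ᵥ v) i) = (star v ⬝ᵥ (Bᴴ * B) *ᵥ v).re := by
  have h : star v ⬝ᵥ (Bᴴ * B) *ᵥ v = star (B *ᵥ v) ⬝ᵥ (B *ᵥ v) := by
    rw [Matrix.star_mulVec, ← Matrix.mulVec_mulVec, Matrix.dotProduct_mulVec]
  rw [h]
  simp only [dotProduct, Pi.star_apply, Complex.re_sum]
  refine Finset.sum_congr rfl fun i _ => ?_
  simp [Complex.normSq_apply]

/-- The spectral distribution moves up on average under block triangular instruments. -/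
lemma spectral_mean_le {K : Type*} [Fintype K] (l : n → ℝ) (B : K → Matrix n n ℂ)
    (hB : ∀ k, B k ∈ upper l) (hsum : ∑ k, (B k)ᴴ * B k = 1) (v : n → ℂ) :
    ∑ i, l i * Complex.normSq (v i) ≤
      ∑ k, ∑ i, l i * Complex.normSq ((B k *ᵥ v) i) := by
  have htot : ∀ u : n → ℂ, ∑ k, ∑ i, Complex.normSq ((B k *ᵥ u) i) = ∑ i, Complex.normSq (u i) := by
    intro u
    calc ∑ k, ∑ i, Complex.normSq ((B k *ᵥ u) i)
        = ∑ k, (star u ⬝ᵥ ((B k)ᴴ * B k) *ᵥ u).re :=
          Finset.sum_congr rfl fun k _ => sum_normSq_eq (B k) u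
      _ = (star u ⬝ᵥ (∑ k, (B k)ᴴ * B k) *ᵥ u).re := by
          rw [Matrix.sum_mulVec, dotProduct_sum, Complex.re_sum]
      _ = (star u ⬝ᵥ ((1 : Matrix n n ℂ)ᴴ * 1) *ᵥ u).re := by rw [hsum]; simp
      _ = ∑ i, Complex.normSq (u i) := by rw [← sum_normSq_eq]; simp
  have hswap : ∑ k, ∑ i, l i * Complex.normSq ((B k *ᵥ v) i) =
      ∑ i, l i * ∑ k, Complex.normSq ((B k *ᵥ v) i) := by
    rw [Finset.sum_comm]
    exact Finset.sum_congr rfl fun i _ => by rw [Finset.mul_sum]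
  rw [hswap]
  refine mean_le_of_dominance l _ _ ?_ ?_
  · rw [Finset.sum_comm]; exact htot v
  · intro c
    set u : n → ℂ := fun i => if l i ≤ c then v i else 0 with hu
    have h1 : ∀ k i, l i ≤ c → (B k *ᵥ v) i = (B k *ᵥ u) i := by
      intro k i hi
      simp only [Matrix.mulVec, dotProduct]
      refine Finset.sum_congr rfl fun j _ => ?_
      by_cases hj : l j ≤ c
      · simp [hu, hj]
      · have : B k i j = 0 := hB k i j (lt_of_le_of_lt hi (not_le.mp hj))
        simp [this]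
    calc ∑ i, (if l i ≤ c then ∑ k, Complex.normSq ((B k *ᵥ v) i) else 0)
        ≤ ∑ i, ∑ k, Complex.normSq ((B k *ᵥ u) i) := by
          refine Finset.sum_le_sum fun i _ => ?_
          split_ifs with hi
          · exact le_of_eq (Finset.sum_congr rfl fun k _ => by rw [h1 k i hi])
          · exact Finset.sum_nonneg fun k _ => Complex.normSq_nonneg _
      _ = ∑ i, Complex.normSq (u i) := by rw [Finset.sum_comm]; exact htot u
      _ = ∑ i, (if l i ≤ c then Complex.normSq (v i) else 0) := by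
          refine Finset.sum_congr rfl fun i _ => ?_
          by_cases hi : l i ≤ c <;> simp [hu, hi]

end Dominance


end Pool.Agent.H85.Iwasawa
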