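import Mathlib
import Pool.Agent.H85.RegDefs
import Pool.Agent.H85.Drift2

/-!
# The counterexample: filtrations and martingales
-/

open MeasureTheory ProbabilityTheory Filter Topology Set
open scoped NNReal ENNReal

namespace Pool.Agent.H85.BM

open Pool.Agent.H85.Regular

variable {Ω : Type*} {mΩ : MeasurableSpace Ω} {P : Measure Ω}

/-- completion of an increasing family of `σ`-algebras -/
def Fcomp (P : Measure Ω) [P.IsComplete] (m : ℝ≥0 → MeasurableSpace Ω) (hmono : Monotone m)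
    (hle : ∀ t, m t ≤ mΩ) : Filtration ℝ≥0 mΩ where
  seq t := eventuallyMeasurableSpace (m t) (ae P)
  mono' := by
    intro s t hst E hE
    obtain ⟨E', hE', h⟩ := hE
    exact ⟨E', hmono hst _ hE', h⟩
  le' := by
    intro t E hE
    obtain ⟨E', hE', h⟩ := hE
    have h1 : NullMeasurableSet E P := ⟨E', hle t _ hE', h⟩
    exact h1.measurable_of_complete

lemma containsNullSets_Fcomp [P.IsComplete] (m : ℝ≥0 → MeasurableSpace Ω) (hmono : Monotone m)
    (hle : ∀ t, m t ≤ mΩ) : ContainsNullSets (Fcomp P m hmono hle) P := by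
  intro s hs
  exact ⟨∅, @MeasurableSet.empty _ (m 0), (ae_eq_empty.2 hs)⟩

lemma le_Fcomp [P.IsComplete] (m : ℝ≥0 → MeasurableSpace Ω) (hmono : Monotone m)
    (hle : ∀ t, m t ≤ mΩ) (t : ℝ≥0) : m t ≤ Fcomp P m hmono hle t := by
  intro E hE
  exact ⟨E, hE, ae_eq_refl _⟩

lemma martingale_Fcomp [P.IsComplete] [IsProbabilityMeasure P] {m : ℝ≥0 → MeasurableSpace Ω}
    {hmono : Monotone m} {hle : ∀ t, m t ≤ mΩ} {Y : ℝ≥0 → Ω → ℝ}
    (hY : ∀ t, Measurable[m t] (Y t)) (hi : ∀ t, Integrable (Y t) P)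
    (h : ∀ s t, s ≤ t → ∀ E, MeasurableSet[m s] E → ∫ ω in E, Y t ω ∂P = ∫ ω in E, Y s ω ∂P) :
    Martingale Y (Fcomp P m hmono hle) P := by
  refine ⟨fun t => ((hY t).mono (le_Fcomp m hmono hle t) le_rfl).stronglyMeasurable,
    fun s t hst => ?_⟩
  symm
  refine ae_eq_condExp_of_forall_setIntegral_eq ((Fcomp P m hmono hle).le s) (hi t)
    (fun _ _ _ => (hi s).integrableOn) (fun E hE _ => ?_)
    (((hY s).mono (le_Fcomp m hmono hle s) le_rfl).stronglyMeasurable.aestronglyMeasurable)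
  obtain ⟨E', hE', hEE⟩ := hE
  rw [setIntegral_congr_set hEE, setIntegral_congr_set hEE, h s t hst E' hE']

/-- a martingale with continuous paths is a continuous local martingale -/
lemma IsContLocalMartingale.of_martingale {𝓕 : Filtration ℝ≥0 mΩ} [IsFiniteMeasure P]
    {M : ℝ≥0 → Ω → ℝ}
    (hM : Martingale M 𝓕 P) (hc : ∀ ω, Continuous fun t => M t ω) :
    IsContLocalMartingale 𝓕 P M where
  adapted t := (hM.stronglyMeasurable t).measurable
  continuous := hc
  localMart := by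
    refine ⟨fun _ _ => ⊤, isLocalizingSequence_const_top _ _, fun n => ?_⟩
    rw [stoppedProcess_const_top]
    have h0 : Martingale (fun _ : ℝ≥0 => M 0) 𝓕 P :=
      martingale_const_fun 𝓕 P (hM.stronglyMeasurable 0) (hM.integrable 0)
    exact hM.sub h0

/-! ### The enlarged filtration -/

/-- `σ(F0 s, K s)` -/
def G0 (B : ℝ≥0 → Ω → ℝ) (s : ℝ≥0) : MeasurableSpace Ω :=
  MeasurableSpace.generateFrom
    {E | ∃ A y, MeasurableSet[F0 B s] A ∧ E = A ∩ {ω | y < K B s ω}}

lemma G0_le {B : ℝ≥0 → Ω → ℝ} (hB : GoodBM P B) (s : ℝ≥0) : G0 B s ≤ mΩ := by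
  refine MeasurableSpace.generateFrom_le ?_
  rintro E ⟨A, y, hA, rfl⟩
  exact (F0_le hB.meas s _ hA).inter (measurable_K hB s measurableSet_Ioi)

lemma measurableSet_G0_basic {B : ℝ≥0 → Ω → ℝ} {s : ℝ≥0} {A : Set Ω}
    (hA : MeasurableSet[F0 B s] A) (y : ℝ) :
    MeasurableSet[G0 B s] (A ∩ {ω | y < K B s ω}) :=
  MeasurableSpace.measurableSet_generateFrom ⟨A, y, hA, rfl⟩

lemma iUnion_lt_K {B : ℝ≥0 → Ω → ℝ} (s : ℝ≥0) (A : Set Ω) :
    A = ⋃ n : ℕ, A ∩ {ω | -(n : ℝ) < K B s ω} := by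
  ext ω
  simp only [mem_iUnion, mem_inter_iff, mem_ofPred_eq]
  constructor
  · intro hω
    obtain ⟨n, hn⟩ := exists_nat_gt (-K B s ω)
    exact ⟨n, hω, by linarith⟩
  · rintro ⟨_, h, _⟩
    exact h

lemma F0_le_G0 (B : ℝ≥0 → Ω → ℝ) (s : ℝ≥0) : F0 B s ≤ G0 B s := by
  intro A hA
  rw [iUnion_lt_K (B := B) s A]
  exact MeasurableSet.iUnion fun n => measurableSet_G0_basic hA _

lemma measurable_K_G0 (B : ℝ≥0 → Ω → ℝ) (s : ℝ≥0) : Measurable[G0 B s] (K B s) := by
  refine measurable_of_Ioi fun y => ?_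
  have := measurableSet_G0_basic (B := B) (s := s) (A := univ) MeasurableSet.univ y
  rwa [Set.univ_inter] at this

lemma G0_mono {B : ℝ≥0 → Ω → ℝ} (hB : GoodBM P B) : Monotone (G0 B) := by
  intro s t hst
  refine MeasurableSpace.generateFrom_le ?_
  rintro E ⟨A, y, hA, rfl⟩
  have hD : MeasurableSet[F0 B t] (Dset (fun v ω => X B v ω - y) s t) :=
    measurableSet_Dset (F0_mono B) hst (fun r _ => (measurable_X_F0 B le_rfl).sub_const y)
      (fun ω => (continuous_X hB ω).sub continuous_const)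
  have e1 : A ∩ {ω | y < K B s ω} =
      (A ∩ Dset (fun v ω => X B v ω - y) s t) ∪ (A ∩ {ω | y < K B t ω}) := by
    ext ω
    have hsplit : y < K B s ω ↔ (∃ v, s ≤ v ∧ v ≤ t ∧ y < X B v ω) ∨ y < K B t ω :=
      lt_fsup_split (continuous_X hB ω) (tendsto_X hB ω) hst (y := y)
    simp only [mem_inter_iff, mem_ofPred_eq, mem_union, Dset, sub_pos]
    rw [hsplit]
    generalize (∃ v, s ≤ v ∧ v ≤ t ∧ y < X B v ω) = E
    tauto
  rw [e1]
  refine MeasurableSet.union ?_ ?_
  · exact F0_le_G0 B t _ ((F0_mono B hst _ hA).inter hD)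
  · exact measurableSet_G0_basic (F0_mono B hst _ hA) y

lemma isPiSystem_G0 (B : ℝ≥0 → Ω → ℝ) (s : ℝ≥0) :
    IsPiSystem {E : Set Ω | ∃ A y, MeasurableSet[F0 B s] A ∧ E = A ∩ {ω | y < K B s ω}} := by
  rintro _ ⟨A, y, hA, rfl⟩ _ ⟨A', y', hA', rfl⟩ _
  refine ⟨A ∩ A', max y y', hA.inter hA', ?_⟩
  ext ω
  simp only [mem_inter_iff, mem_ofPred_eq, max_lt_iff]
  tauto

/-- the martingale identity on `G0` -/
theorem Nt_G0 {B : ℝ≥0 → Ω → ℝ} (hB : GoodBM P B) {s t : ℝ≥0} (hst : s ≤ t) {E : Set Ω}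
    (hE : MeasurableSet[G0 B s] E) : ∫ ω in E, Nt B t ω ∂P = ∫ ω in E, Nt B s ω ∂P := by
  have := hB.prob
  have hit := integrable_Nt hB t
  have his := integrable_Nt hB s
  -- the whole space
  have huniv : ∫ ω, Nt B t ω ∂P = ∫ ω, Nt B s ω ∂P := by
    have hmono : Monotone fun n : ℕ => {ω | -(n : ℝ) < K B s ω} := by
      intro n m hnm ω hω
      have : (n : ℝ) ≤ m := by exact_mod_cast hnm
      simp only [mem_ofPred_eq] at hω ⊢
      linarith
    have hmeas : ∀ n : ℕ, MeasurableSet {ω | -(n : ℝ) < K B s ω} := fun n =>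
      measurable_K hB s measurableSet_Ioi
    have hU : ⋃ n : ℕ, {ω | -(n : ℝ) < K B s ω} = univ := by
      have := iUnion_lt_K (B := B) s (univ : Set Ω)
      simp only [Set.univ_inter] at this
      exact this.symm
    have h1 := tendsto_setIntegral_of_monotone (μ := P) (f := Nt B t) hmeas hmono
      hit.integrableOn
    have h2 := tendsto_setIntegral_of_monotone (μ := P) (f := Nt B s) hmeas hmono
      his.integrableOn
    rw [hU, setIntegral_univ] at h1 h2
    refine tendsto_nhds_unique h1 (h2.congr fun n => ?_)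
    have := Nt_identity hB hst (A := univ) MeasurableSet.univ (-(n : ℝ))
    simp only [Set.univ_inter] at this
    exact this.symm
  induction E, hE using MeasurableSpace.induction_on_inter (m := G0 B s)
    (s := {E | ∃ A y, MeasurableSet[F0 B s] A ∧ E = A ∩ {ω | y < K B s ω}}) rfl
    (isPiSystem_G0 B s) with
  | empty => simp
  | basic E hE =>
    obtain ⟨A, y, hA, rfl⟩ := hE
    exact Nt_identity hB hst hA y
  | compl E hE ih =>
    have hE' : MeasurableSet E := G0_le hB s _ hE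
    have h1 := integral_add_compl hE' hit
    have h2 := integral_add_compl hE' his
    linarith
  | iUnion f hd hf ih =>
    have hf' : ∀ i, MeasurableSet (f i) := fun i => G0_le hB s _ (hf i)
    rw [integral_iUnion hf' hd hit.integrableOn, integral_iUnion hf' hd his.integrableOn]
    exact tsum_congr ih

/-- `N t = B t - t - 2 (K t - K 0)` -/
noncomputable def Nproc (B : ℝ≥0 → Ω → ℝ) (t : ℝ≥0) (ω : Ω) : ℝ :=
  B t ω - t - 2 * (K B t ω - K B 0 ω)

/-- `A t = t + 2 (K t - K 0)` -/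
noncomputable def Aproc (B : ℝ≥0 → Ω → ℝ) (t : ℝ≥0) (ω : Ω) : ℝ :=
  t + 2 * (K B t ω - K B 0 ω)

lemma Nproc_add_Aproc (B : ℝ≥0 → Ω → ℝ) (t : ℝ≥0) (ω : Ω) :
    B t ω = Nproc B t ω + Aproc B t ω := by unfold Nproc Aproc; ring

lemma continuous_K {B : ℝ≥0 → Ω → ℝ} (hB : GoodBM P B) (ω : Ω) :
    Continuous fun t => K B t ω :=
  continuous_fsup (continuous_X hB ω) (tendsto_X hB ω)

lemma antitone_K {B : ℝ≥0 → Ω → ℝ} (hB : GoodBM P B) (ω : Ω) :
    Antitone fun t => K B t ω :=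
  antitone_fsup (continuous_X hB ω) (tendsto_X hB ω)

/-- the original filtration -/
noncomputable def FF {B : ℝ≥0 → Ω → ℝ} (hB : GoodBM P B) [P.IsComplete] : Filtration ℝ≥0 mΩ :=
  Fcomp P (F0 B) (F0_mono B) (F0_le hB.meas)

/-- the enlarged filtration -/
noncomputable def GG {B : ℝ≥0 → Ω → ℝ} (hB : GoodBM P B) [P.IsComplete] : Filtration ℝ≥0 mΩ :=
  Fcomp P (G0 B) (G0_mono hB) (G0_le hB)

lemma martingale_B {B : ℝ≥0 → Ω → ℝ} (hB : GoodBM P B) [P.IsComplete] :
    Martingale B (FF hB) P := by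
  have := hB.prob
  exact martingale_Fcomp (fun t => measurable_F0 B le_rfl)
    (fun t => (memLp_B hB t).integrable (by norm_num))
    (fun s t hst E hE => (martOn_B hB s).setIntegral_eq (F0_le hB.meas) le_rfl hst hE)

lemma measurable_Nproc {B : ℝ≥0 → Ω → ℝ} (hB : GoodBM P B) (t : ℝ≥0) :
    Measurable[G0 B t] (Nproc B t) := by
  have h1 : Measurable[G0 B t] (B t) := (measurable_F0 B le_rfl).mono (F0_le_G0 B t) le_rfl
  have h2 : Measurable[G0 B t] (K B 0) :=
    (measurable_K_G0 B 0).mono (G0_mono hB zero_le) le_rfl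
  exact (h1.sub_const _).sub (((measurable_K_G0 B t).sub h2).const_mul 2)

lemma measurable_Aproc {B : ℝ≥0 → Ω → ℝ} (hB : GoodBM P B) (t : ℝ≥0) :
    Measurable[G0 B t] (Aproc B t) := by
  have h2 : Measurable[G0 B t] (K B 0) :=
    (measurable_K_G0 B 0).mono (G0_mono hB zero_le) le_rfl
  exact (((measurable_K_G0 B t).sub h2).const_mul 2).const_add _

lemma martingale_Nproc {B : ℝ≥0 → Ω → ℝ} (hB : GoodBM P B) [P.IsComplete] :
    Martingale (Nproc B) (GG hB) P := by
  have := hB.prob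
  have e : ∀ t, Nproc B t = fun ω => Nt B t ω + 2 * K B 0 ω := by
    intro t; ext ω; unfold Nproc Nt; ring
  have hK0 : Integrable (fun ω => 2 * K B 0 ω) P := (integrable_K hB 0).const_mul 2
  refine martingale_Fcomp (measurable_Nproc hB) (fun t => ?_) (fun s t hst E hE => ?_)
  · rw [e]; exact (integrable_Nt hB t).add hK0
  · rw [e, e]
    rw [integral_add (integrable_Nt hB t).integrableOn hK0.integrableOn,
      integral_add (integrable_Nt hB s).integrableOn hK0.integrableOn, Nt_G0 hB hst hE]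

lemma eVariationOn_add_le' {α : Type*} [LinearOrder α] (f g : α → ℝ) (s : Set α) :
    eVariationOn (fun x => f x + g x) s ≤ eVariationOn f s + eVariationOn g s := by
  refine iSup_le fun p => ?_
  calc ∑ i ∈ Finset.range p.1, edist (f ((p.2 : ℕ → α) (i + 1)) + g ((p.2 : ℕ → α) (i + 1)))
        (f ((p.2 : ℕ → α) i) + g ((p.2 : ℕ → α) i))
      ≤ ∑ i ∈ Finset.range p.1, (edist (f ((p.2 : ℕ → α) (i + 1))) (f ((p.2 : ℕ → α) i)) +
        edist (g ((p.2 : ℕ → α) (i + 1))) (g ((p.2 : ℕ → α) i))) :=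
        Finset.sum_le_sum fun i _ => edist_add_add_le _ _ _ _
    _ ≤ _ := by
        rw [Finset.sum_add_distrib]
        exact add_le_add (eVariationOn.sum_le (f := f) p.2.2.1 p.2.2.2)
          (eVariationOn.sum_le (f := g) p.2.2.1 p.2.2.2)

lemma isContFV_Aproc {B : ℝ≥0 → Ω → ℝ} (hB : GoodBM P B) [P.IsComplete] :
    IsContFV (GG hB) (Aproc B) where
  adapted t := (measurable_Aproc hB t).mono (le_Fcomp _ _ _ t) le_rfl
  continuous ω := by
    have := continuous_K hB ω
    unfold Aproc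
    fun_prop
  zero ω := by simp [Aproc]
  fv ω := by
    intro a b _ _
    have h1 : MonotoneOn (fun t : ℝ≥0 => (t : ℝ)) univ := fun s _ t _ hst => hst
    have h2 : MonotoneOn (fun t : ℝ≥0 => -(2 * (K B t ω - K B 0 ω))) univ := by
      intro s _ t _ hst
      have := antitone_K hB ω hst
      simp only at this ⊢
      linarith
    have h3 := h1.locallyBoundedVariationOn a b (mem_univ _) (mem_univ _)
    have h4 : LocallyBoundedVariationOn (fun t : ℝ≥0 => 2 * (K B t ω - K B 0 ω)) univ := by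
      have := (isometry_neg (G := ℝ)).lipschitz.comp_locallyBoundedVariationOn
        h2.locallyBoundedVariationOn
      simpa [Function.comp_def] using this
    have h4 := h4 a b (mem_univ _) (mem_univ _)
    have h5 := eVariationOn_add_le' (fun t : ℝ≥0 => (t : ℝ))
      (fun t : ℝ≥0 => 2 * (K B t ω - K B 0 ω)) (univ ∩ Icc a b)
    exact ne_top_of_le_ne_top (ENNReal.add_ne_top.2 ⟨h3, h4⟩) h5

lemma isDecomposition_B {B : ℝ≥0 → Ω → ℝ} (hB : GoodBM P B) [P.IsComplete] :
    IsDecomposition (GG hB) P B (Nproc B) (Aproc B) where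
  locMart := by
    have := hB.prob
    refine IsContLocalMartingale.of_martingale (martingale_Nproc hB) fun ω => ?_
    have h1 := continuous_K hB ω
    have h2 := hB.cont ω
    unfold Nproc
    fun_prop
  fv := isContFV_Aproc hB
  eq := ae_of_all _ fun ω t => Nproc_add_Aproc B t ω

end Pool.Agent.H85.BM
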