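import Mathlib
import Pool.Agent.H85.RegExample

/-!
# `A` is almost surely not absolutely continuous; the quadratic variation of `B`
-/

open MeasureTheory ProbabilityTheory Filter Topology Set
open scoped NNReal ENNReal

namespace Pool.Agent.H85.BM

open Pool.Agent.H85.Regular

variable {Ω : Type*} {mΩ : MeasurableSpace Ω} {P : Measure Ω}

/-- for each `t`, a.s. `X t < K t`. -/
lemma ae_X_lt_K {B : ℝ≥0 → Ω → ℝ} (hB : GoodBM P B) (t : ℝ≥0) : ∀ᵐ ω ∂P, X B t ω < K B t ω := by
  have := hB.prob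
  have h := (measure_lt_K hB (s := t) (A := univ) MeasurableSet.univ (ℓ := X B t)
    (measurable_X_F0 B le_rfl) (fun _ _ => le_rfl)).2
  simp only [Set.univ_inter, sub_self, Real.exp_zero, Measure.restrict_univ, integral_const,
    smul_eq_mul, mul_one, probReal_univ] at h
  have hm : MeasurableSet {ω | X B t ω < K B t ω} :=
    measurableSet_lt (measurable_X hB t) (measurable_K hB t)
  rw [ae_iff]
  have h2 : P.real {ω | X B t ω < K B t ω}ᶜ = 0 := by
    rw [probReal_compl_eq_one_sub hm, h, sub_self]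
  rw [measureReal_eq_zero_iff] at h2
  exact h2

/-- a.s. `{t : X t = K t}` is Lebesgue null -/
lemma ae_ae_X_lt_K {B : ℝ≥0 → Ω → ℝ} (hB : GoodBM P B) :
    ∀ᵐ ω ∂P, ∀ᵐ r : ℝ, X B r.toNNReal ω < K B r.toNNReal ω := by
  have := hB.prob
  have hmeas : Measurable (fun p : ℝ × Ω => K B p.1.toNNReal p.2 - X B p.1.toNNReal p.2) := by
    have h1 : Measurable (Function.uncurry fun (t : ℝ≥0) (ω : Ω) => K B t ω - X B t ω) :=
      measurable_uncurry_of_continuous_of_measurable
        (fun ω => (continuous_K hB ω).sub (continuous_X hB ω))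
        (fun t => (measurable_K hB t).sub (measurable_X hB t))
    exact h1.comp ((measurable_real_toNNReal.comp measurable_fst).prodMk measurable_snd)
  have hset : MeasurableSet {p : ℝ × Ω | X B p.1.toNNReal p.2 < K B p.1.toNNReal p.2} := by
    have : {p : ℝ × Ω | X B p.1.toNNReal p.2 < K B p.1.toNNReal p.2} =
        (fun p : ℝ × Ω => K B p.1.toNNReal p.2 - X B p.1.toNNReal p.2) ⁻¹' Ioi 0 := by
      ext p; simp
    rw [this]
    exact hmeas measurableSet_Ioi
  have h1 : ∀ᵐ r : ℝ, ∀ᵐ ω ∂P, X B r.toNNReal ω < K B r.toNNReal ω :=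
    ae_of_all _ fun r => ae_X_lt_K hB _
  exact (Measure.ae_ae_comm hset).1 h1

lemma absCont_of_absContWrt {a : ℝ≥0 → ℝ} (h : AbsContWrt a (fun t => (t : ℝ))) {T : ℝ}
    (hT : 0 ≤ T) : AbsolutelyContinuousOnInterval (fun r => a r.toNNReal) 0 T := by
  rw [absolutelyContinuousOnInterval_iff]
  intro ε hε
  obtain ⟨δ, hδ, h⟩ := h T.toNNReal ε hε
  refine ⟨δ, hδ, ?_⟩
  rintro ⟨n, I⟩ ⟨hI, hdisj⟩ hsum
  simp only at hI hdisj hsum ⊢
  set u : ℕ → ℝ≥0 := fun i => (min (I i).1 (I i).2).toNNReal with hu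
  set v : ℕ → ℝ≥0 := fun i => (max (I i).1 (I i).2).toNNReal with hv
  have hnn : ∀ i ∈ Finset.range n, 0 ≤ min (I i).1 (I i).2 ∧ max (I i).1 (I i).2 ≤ T := by
    intro i hi
    obtain ⟨h1, h2⟩ := hI i hi
    rw [uIcc_of_le hT] at h1 h2
    exact ⟨le_min h1.1 h2.1, max_le h1.2 h2.2⟩
  have key := h n u v ?_ ?_ ?_
  · refine lt_of_eq_of_lt (Finset.sum_congr rfl fun i _ => ?_) key
    simp only [hu, hv, Real.dist_eq]
    rcases le_total (I i).1 (I i).2 with h | h
    · rw [min_eq_left h, max_eq_right h, abs_sub_comm]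
    · rw [min_eq_right h, max_eq_left h]
  · intro i hi
    refine ⟨Real.toNNReal_le_toNNReal min_le_max, Real.toNNReal_le_toNNReal ?_⟩
    exact (hnn i (Finset.mem_range.2 hi)).2
  · intro i hi j hj hij
    have := hdisj hi hj hij
    rw [Function.onFun, Set.disjoint_left] at this ⊢
    intro x hx hx'
    refine this (a := (x : ℝ)) ?_ ?_
    · rw [uIoc, mem_Ioc]
      obtain ⟨h1, h2⟩ := hx
      exact ⟨(Real.toNNReal_lt_iff_lt_coe (hnn i hi).1).1 h1,
        (Real.le_toNNReal_iff_coe_le ((hnn i hi).1.trans min_le_max)).1 h2⟩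
    · rw [uIoc, mem_Ioc]
      obtain ⟨h1, h2⟩ := hx'
      exact ⟨(Real.toNNReal_lt_iff_lt_coe (hnn j hj).1).1 h1,
        (Real.le_toNNReal_iff_coe_le ((hnn j hj).1.trans min_le_max)).1 h2⟩
  · refine lt_of_eq_of_lt (Finset.sum_congr rfl fun i hi => ?_) hsum
    simp only [hu, hv, Real.dist_eq]
    rw [Real.coe_toNNReal _ (hnn i hi).1,
      Real.coe_toNNReal _ ((hnn i hi).1.trans min_le_max), max_sub_min_eq_abs, abs_abs]
    exact abs_sub_comm _ _

/-- **Singularity.** -/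
theorem not_absContWrt {B : ℝ≥0 → Ω → ℝ} (hB : GoodBM P B) {ω : Ω}
    (hω : ∀ᵐ r : ℝ, X B r.toNNReal ω < K B r.toNNReal ω) :
    ¬ AbsContWrt (fun t => Aproc B t ω) (fun t => (t : ℝ)) := by
  intro hAC
  have hKT : ∀ T : ℝ≥0, K B T ω = K B 0 ω := by
    intro T
    have h1 := absCont_of_absContWrt hAC (T := T) (NNReal.coe_nonneg T)
    have h2 : AbsolutelyContinuousOnInterval (fun r : ℝ => r) 0 T :=
      (LipschitzWith.id.lipschitzOnWith (s := uIcc (0 : ℝ) T)).absolutelyContinuousOnInterval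
    have h3 := h1.sub h2
    have h4 : ∀ᵐ r : ℝ, r ∈ uIcc (0 : ℝ) T →
        HasDerivAt ((fun r : ℝ => Aproc B r.toNNReal ω) - fun r : ℝ => r) 0 r := by
      have hne : ∀ᵐ r : ℝ, r ≠ 0 := by
        rw [ae_iff]; simp
      filter_upwards [hω, hne] with r hr hr0 hrT
      rw [uIcc_of_le (NNReal.coe_nonneg T)] at hrT
      have hrpos : 0 < r := lt_of_le_of_ne hrT.1 (Ne.symm hr0)
      have hloc := eventually_fsup_eq (continuous_X hB ω) (tendsto_X hB ω) hr
      have hcont : Tendsto (fun r : ℝ => r.toNNReal) (𝓝 r) (𝓝 r.toNNReal) :=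
        continuous_real_toNNReal.tendsto r
      have hev : ((fun r : ℝ => Aproc B r.toNNReal ω) - fun r : ℝ => r) =ᶠ[𝓝 r]
          fun _ => 2 * (K B r.toNNReal ω - K B 0 ω) := by
        filter_upwards [hcont.eventually hloc, lt_mem_nhds hrpos] with x hx hx0
        have hx' : K B x.toNNReal ω = K B r.toNNReal ω := hx
        simp only [Pi.sub_apply, Aproc, hx', Real.coe_toNNReal _ hx0.le]
        ring
      exact (hasDerivAt_const r _).congr_of_eventuallyEq hev
    obtain ⟨C, hC⟩ := h3.const_of_ae_hasDerivAt_zero h4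
    have h5 := hC 0 left_mem_uIcc
    have h6 := hC T right_mem_uIcc
    simp only [Pi.sub_apply, Aproc, Real.toNNReal_zero, Real.toNNReal_coe, NNReal.coe_zero,
      sub_self, mul_zero, add_zero] at h5 h6
    linarith
  have hlim := tendsto_fsup (continuous_X hB ω) (tendsto_X hB ω)
  obtain ⟨T, hT⟩ := (hlim.eventually (eventually_lt_atBot (K B 0 ω))).exists
  have hT' : K B T ω < K B 0 ω := hT
  rw [hKT T] at hT'
  exact lt_irrefl _ hT'

end Pool.Agent.H85.BM
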