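import Mathlib
import Pool.Agent.H85.RegSing

/-!
# The quadratic variation of Brownian motion, uniqueness of the quadratic variation
-/

open MeasureTheory ProbabilityTheory Filter Topology Set
open scoped NNReal ENNReal

namespace Pool.Agent.H85.BM

open Pool.Agent.H85.Regular

variable {Ω : Type*} {mΩ : MeasurableSpace Ω} {P : Measure Ω}

lemma integral_sq_gauss (v : ℝ≥0) : ∫ x, x ^ 2 ∂(gaussianReal 0 v) = v := by
  have h := variance_id_gaussianReal (μ := 0) (v := v)
  rw [variance_eq_integral (by fun_prop)] at h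
  simpa [integral_id_gaussianReal] using h

lemma integral_pow_four_gauss (v : ℝ≥0) :
    ∫ x, x ^ 4 ∂(gaussianReal 0 v) = (v : ℝ) ^ 2 * ∫ x, x ^ 4 ∂(gaussianReal 0 1) := by
  have h : gaussianReal 0 v = (gaussianReal 0 1).map (fun x => √(v : ℝ) * x) := by
    rw [gaussianReal_map_const_mul]
    congr 1
    · simp
    · ext
      simp [Real.sq_sqrt]
  rw [h, integral_map (by fun_prop) (by fun_prop), ← integral_const_mul]
  refine integral_congr_ae (ae_of_all _ fun x => ?_)
  simp only
  rw [mul_pow]
  congr 1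
  rw [show (4 : ℕ) = 2 * 2 by norm_num, pow_mul, Real.sq_sqrt (NNReal.coe_nonneg v)]

lemma integrable_pow_four_gauss (v : ℝ≥0) : Integrable (fun x : ℝ => x ^ 4) (gaussianReal 0 v) := by
  have h := memLp_id_gaussianReal (μ := 0) (v := v) 4
  have h2 := h.integrable_norm_pow (by norm_num)
  refine h2.congr (ae_of_all _ fun x => ?_)
  simp only [id, Real.norm_eq_abs]
  exact Even.pow_abs (by decide) x

/-- `[B, B]_t = t`. -/
theorem isQuadVar_B {B : ℝ≥0 → Ω → ℝ} (hB : GoodBM P B) :
    IsQuadVar P B (fun t _ => (t : ℝ)) where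
  continuous _ := NNReal.continuous_coe
  tendsto := by
    intro t k p hmono h0 hk hmesh
    have := hB.prob
    set c : ℝ := ∫ x, x ^ 4 ∂(gaussianReal 0 1) with hc
    have hc0 : 0 ≤ c := integral_nonneg fun x => by positivity
    set D : ℕ → ℕ → Ω → ℝ := fun n i ω => B (p n (i + 1)) ω - B (p n i) ω with hD
    have hle : ∀ n i, p n i ≤ p n (i + 1) := fun n i => hmono n (Nat.le_succ i)
    have hlaw : ∀ n i, HasLaw (D n i) (gaussianReal 0 (p n (i + 1) - p n i)) P := fun n i =>
      law_incr hB (hle n i)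
    have hDm : ∀ n i, Measurable (D n i) := fun n i => (hB.meas _).sub (hB.meas _)
    have hD4 : ∀ n i, Integrable (fun ω => (D n i ω) ^ 4) P := by
      intro n i
      have h1 : Integrable (fun x : ℝ => x ^ 4) (P.map (D n i)) := by
        rw [(hlaw n i).map_eq]; exact integrable_pow_four_gauss _
      exact h1.comp_measurable (hDm n i)
    have hL2 : ∀ n i, MemLp (fun ω => (D n i ω) ^ 2) 2 P := by
      intro n i
      rw [memLp_two_iff_integrable_sq ((hDm n i).pow_const 2).aestronglyMeasurable]
      refine (hD4 n i).congr (ae_of_all _ fun ω => ?_)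
      simp only; ring
    have hmean : ∀ n i, ∫ ω, (D n i ω) ^ 2 ∂P = (p n (i + 1) : ℝ) - p n i := by
      intro n i
      have e : ∫ ω, (D n i ω) ^ 2 ∂P = ∫ x, x ^ 2 ∂(P.map (D n i)) :=
        (integral_map (f := fun x : ℝ => x ^ 2) (hDm n i).aemeasurable (by fun_prop)).symm
      rw [e, (hlaw n i).map_eq, integral_sq_gauss, NNReal.coe_sub (hle n i)]
    have hvar : ∀ n i, Var[fun ω => (D n i ω) ^ 2; P] ≤
        ((p n (i + 1) : ℝ) - p n i) ^ 2 * c := by
      intro n i
      refine (variance_le_expectation_sq (by fun_prop)).trans ?_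
      have e : ∫ ω, (D n i ω) ^ 4 ∂P = ∫ x, x ^ 4 ∂(P.map (D n i)) :=
        (integral_map (f := fun x : ℝ => x ^ 4) (hDm n i).aemeasurable (by fun_prop)).symm
      rw [(hlaw n i).map_eq, integral_pow_four_gauss, NNReal.coe_sub (hle n i)] at e
      rw [← e]
      refine le_of_eq (integral_congr_ae (ae_of_all _ fun ω => ?_))
      simp only [Pi.pow_apply]; ring
    have hind : ∀ n, iIndepFun (fun i ω => (D n i ω) ^ 2) P := fun n =>
      (hB.pre.hasIndepIncrements.nat (hmono n)).comp (fun _ x => x ^ 2) (fun _ => by fun_prop)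
    set S : ℕ → Ω → ℝ := fun n ω => ∑ i ∈ Finset.range (k n), (D n i ω) ^ 2 with hS
    have hSeq : ∀ n, S n = ∑ i ∈ Finset.range (k n), fun ω => (D n i ω) ^ 2 := by
      intro n; ext ω; simp [hS]
    have hSL2 : ∀ n, MemLp (S n) 2 P := by
      intro n; rw [hSeq]; exact memLp_finsetSum' _ fun i _ => hL2 n i
    have hSmean : ∀ n, ∫ ω, S n ω ∂P = t := by
      intro n
      simp only [hS]
      rw [integral_finsetSum _ fun i _ => (hL2 n i).integrable (by norm_num)]
      simp_rw [hmean]
      rw [Finset.sum_range_sub (fun i => (p n i : ℝ)), hk, h0]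
      simp
    have hSvar : ∀ n, Var[S n; P] ≤
        ∑ i ∈ Finset.range (k n), ((p n (i + 1) : ℝ) - p n i) ^ 2 * c := by
      intro n
      rw [hSeq, IndepFun.variance_sum (fun i _ => hL2 n i)
        (fun i _ j _ hij => (hind n).indepFun hij)]
      exact Finset.sum_le_sum fun i _ => hvar n i
    -- the variances tend to zero
    have hV0 : Tendsto (fun n => Var[S n; P]) atTop (𝓝 0) := by
      rw [Metric.tendsto_atTop]
      intro ε hε
      set η : ℝ≥0 := (ε / (2 * (c * t + 1))).toNNReal with hη
      have hηpos : 0 < ε / (2 * (c * t + 1)) := by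
        have : (0 : ℝ) ≤ t := t.2
        positivity
      have hη0 : 0 < η := Real.toNNReal_pos.2 hηpos
      obtain ⟨N, hN⟩ := eventually_atTop.1 (hmesh η hη0)
      refine ⟨N, fun n hn => ?_⟩
      rw [Real.dist_eq, sub_zero, abs_of_nonneg (variance_nonneg _ _)]
      have h1 : ∑ i ∈ Finset.range (k n), ((p n (i + 1) : ℝ) - p n i) ^ 2 * c ≤
          ∑ i ∈ Finset.range (k n), (η * c) * ((p n (i + 1) : ℝ) - p n i) := by
        refine Finset.sum_le_sum fun i hi => ?_
        have h2 := hN n hn i (Finset.mem_range.1 hi)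
        have h3 : (p n (i + 1) : ℝ) - p n i ≤ η := by
          rw [← NNReal.coe_sub (hle n i)]
          exact_mod_cast h2
        have h4 : 0 ≤ (p n (i + 1) : ℝ) - p n i := by
          have : (p n i : ℝ) ≤ p n (i + 1) := hle n i
          linarith
        have h5 : ((p n (i + 1) : ℝ) - p n i) ^ 2 ≤ η * ((p n (i + 1) : ℝ) - p n i) := by
          rw [sq]; gcongr
        calc ((p n (i + 1) : ℝ) - p n i) ^ 2 * c ≤ (η * ((p n (i + 1) : ℝ) - p n i)) * c := by
              gcongr
          _ = _ := by ring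
      rw [← Finset.mul_sum, Finset.sum_range_sub (fun i => (p n i : ℝ)), hk, h0] at h1
      have h6 : (η : ℝ) * c * (t - (0 : ℝ≥0)) < ε := by
        rw [hη, Real.coe_toNNReal _ hηpos.le]
        have ht : (0 : ℝ) ≤ t := t.2
        have h7 : ε / (2 * (c * t + 1)) * c * (t - (0 : ℝ≥0)) =
            ε * ((c * t) / (2 * (c * t + 1))) := by
          simp only [NNReal.coe_zero, sub_zero]; ring
        rw [h7]
        have h8 : (c * t) / (2 * (c * t + 1)) < 1 := by
          rw [div_lt_one (by positivity)]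
          nlinarith [mul_nonneg hc0 ht]
        calc ε * ((c * t) / (2 * (c * t + 1))) < ε * 1 := by gcongr
          _ = ε := mul_one _
      exact lt_of_le_of_lt ((hSvar n).trans h1) h6
    rw [tendstoInMeasure_iff_dist]
    intro ε hε
    have h1 : ∀ n, P {x | ε ≤ dist (S n x) t} ≤ ENNReal.ofReal (Var[S n; P] / ε ^ 2) := by
      intro n
      have := meas_ge_le_variance_div_sq (hSL2 n) hε
      rw [hSmean] at this
      simpa only [Real.dist_eq] using this
    have h2 : Tendsto (fun n => ENNReal.ofReal (Var[S n; P] / ε ^ 2)) atTop (𝓝 0) := by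
      have := (hV0.div_const (ε ^ 2))
      rw [zero_div] at this
      have h3 := (ENNReal.continuous_ofReal.tendsto 0).comp this
      simpa [Function.comp_def] using h3
    exact tendsto_of_tendsto_of_tendsto_of_le_of_le tendsto_const_nhds h2
      (fun _ => zero_le) h1

/-- The quadratic variation is unique up to indistinguishability. -/
theorem IsQuadVar.unique {Y Q Q' : ℝ≥0 → Ω → ℝ}
    (h : IsQuadVar P Y Q) (h' : IsQuadVar P Y Q') : ∀ᵐ ω ∂P, ∀ t, Q t ω = Q' t ω := by
  have hpt : ∀ t, Q t =ᵐ[P] Q' t := by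
    intro t
    -- the uniform partition of `[0, t]`
    set k : ℕ → ℕ := fun n => n + 1 with hk
    set p : ℕ → ℕ → ℝ≥0 := fun n i => pt 0 t n i with hp
    have h1 := h.tendsto t k p (fun n => pt_mono 0 t n) (fun n => pt_zero 0 t n)
      (fun n => pt_last zero_le n) ?_
    · have h2 := h'.tendsto t k p (fun n => pt_mono 0 t n) (fun n => pt_zero 0 t n)
        (fun n => pt_last zero_le n) ?_
      · exact tendstoInMeasure_ae_unique h1 h2
      all_goals
        intro ε hε
        have h3 : Tendsto (fun n : ℕ => (t : ℝ) / ((n : ℝ) + 1)) atTop (𝓝 0) := by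
          have h4 := (tendsto_const_div_atTop_nhds_zero_nat (t : ℝ)).comp
            (tendsto_add_atTop_nat 1)
          refine h4.congr fun n => ?_
          simp
        filter_upwards [h3.eventually (gt_mem_nhds (show (0 : ℝ) < ε from hε))] with n hn i _
        have hle : pt 0 t n i ≤ pt 0 t n (i + 1) := pt_mono 0 t n (Nat.le_succ i)
        rw [← NNReal.coe_le_coe, NNReal.coe_sub hle]
        unfold pt
        push_cast [NNReal.coe_sub (zero_le (a := t))]
        have : (0 : ℝ) + (t - 0) * ((i + 1) / (n + 1)) - (0 + (t - 0) * (i / (n + 1))) =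
          t / (n + 1) := by ring
        linarith
    · intro ε hε
      have h3 : Tendsto (fun n : ℕ => (t : ℝ) / ((n : ℝ) + 1)) atTop (𝓝 0) := by
        have h4 := (tendsto_const_div_atTop_nhds_zero_nat (t : ℝ)).comp
          (tendsto_add_atTop_nat 1)
        refine h4.congr fun n => ?_
        simp
      filter_upwards [h3.eventually (gt_mem_nhds (show (0 : ℝ) < ε from hε))] with n hn i _
      have hle : pt 0 t n i ≤ pt 0 t n (i + 1) := pt_mono 0 t n (Nat.le_succ i)
      rw [← NNReal.coe_le_coe, NNReal.coe_sub hle]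
      unfold pt
      push_cast [NNReal.coe_sub (zero_le (a := t))]
      have : (0 : ℝ) + (t - 0) * ((i + 1) / (n + 1)) - (0 + (t - 0) * (i / (n + 1))) =
        t / (n + 1) := by ring
      linarith
  -- countable dense set of times
  obtain ⟨S, hSc, hSd⟩ := TopologicalSpace.exists_countable_dense ℝ≥0
  have h1 : ∀ᵐ ω ∂P, ∀ t ∈ S, Q t ω = Q' t ω := by
    rw [ae_ball_iff hSc]
    exact fun t _ => hpt t
  filter_upwards [h1] with ω hω
  exact fun t => congrFun (Continuous.ext_on hSd (h.continuous ω) (h'.continuous ω) hω) t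

end Pool.Agent.H85.BM
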