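import Mathlib

/-!
# A continuous martingale is a martingale of the right-continuous filtration
-/

open MeasureTheory ProbabilityTheory Filter Topology Set
open scoped NNReal ENNReal

namespace Pool.Agent.H85.BM

variable {Ω : Type*} {mΩ : MeasurableSpace Ω} {P : Measure Ω}

theorem martingale_rightCont [IsProbabilityMeasure P] {𝓖 : Filtration ℝ≥0 mΩ}
    {M : ℝ≥0 → Ω → ℝ} (hM : Martingale M 𝓖 P) (hc : ∀ ω, Continuous fun t => M t ω) :
    Martingale M 𝓖.rightCont P := by
  refine ⟨fun t => (hM.stronglyMeasurable t).mono (𝓖.le_rightCont t), fun s t hst => ?_⟩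
  have hsm : StronglyMeasurable[𝓖.rightCont s] (M s) :=
    (hM.stronglyMeasurable s).mono (𝓖.le_rightCont s)
  rcases eq_or_lt_of_le hst with rfl | hlt
  · exact (condExp_of_stronglyMeasurable (𝓖.rightCont.le s) hsm (hM.integrable s)).eventuallyEq
  symm
  refine ae_eq_condExp_of_forall_setIntegral_eq (𝓖.rightCont.le s) (hM.integrable t)
    (fun _ _ _ => (hM.integrable s).integrableOn) (fun A hA _ => ?_) hsm.aestronglyMeasurable
  set r : ℕ → ℝ≥0 := fun n => s + (t - s) / (n + 1) with hr
  have hrs : ∀ n, s < r n := by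
    intro n
    have : 0 < (t - s) / ((n : ℝ≥0) + 1) := div_pos (tsub_pos_of_lt hlt) (by positivity)
    exact lt_add_of_pos_right _ this
  have hrt : ∀ n, r n ≤ t := by
    intro n
    have h1 : (t - s) / ((n : ℝ≥0) + 1) ≤ t - s := by
      rw [div_le_iff₀ (by positivity)]
      exact le_mul_of_one_le_right zero_le (by simp)
    calc r n ≤ s + (t - s) := by simp only [hr]; gcongr
      _ = t := add_tsub_cancel_of_le hst
  have hrlim : Tendsto r atTop (𝓝 s) := by
    have h1 : Tendsto (fun n : ℕ => (t - s) / ((n : ℝ≥0) + 1)) atTop (𝓝 0) := by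
      rw [← NNReal.tendsto_coe]
      have h2 := (tendsto_const_div_atTop_nhds_zero_nat ((t - s : ℝ≥0) : ℝ)).comp
        (tendsto_add_atTop_nat 1)
      refine h2.congr fun n => ?_
      simp
    have h3 := h1.const_add s
    rwa [add_zero] at h3
  have hAn : ∀ n, MeasurableSet[𝓖 (r n)] A := by
    intro n
    have h1 : 𝓖.rightCont s ≤ 𝓖 (r n) := by
      rw [Filtration.rightCont_eq]
      exact iInf₂_le_of_le (r n) (hrs n) le_rfl
    exact h1 _ hA
  have hUI : UniformIntegrable (fun n => M (r n)) 1 P := by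
    have h1 := (hM.integrable t).uniformIntegrable_condExp
      (ℱ := fun n => (𝓖 (r n) : MeasurableSpace Ω)) (fun n => 𝓖.le (r n))
    exact h1.ae_eq fun n => hM.condExp_ae_eq (hrt n)
  have hL1 : Tendsto (fun n => eLpNorm (M (r n) - M s) 1 P) atTop (𝓝 0) :=
    tendsto_Lp_finite_of_tendsto_ae le_rfl ENNReal.one_ne_top
      (fun n => ((hM.integrable (r n)).aestronglyMeasurable))
      (memLp_one_iff_integrable.2 (hM.integrable s)) hUI.unifIntegrable
      (ae_of_all _ fun ω => ((hc ω).tendsto s).comp hrlim)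
  have h2 : Tendsto (fun n => ∫ ω in A, M (r n) ω ∂P) atTop (𝓝 (∫ ω in A, M s ω ∂P)) := by
    refine tendsto_setIntegral_of_L1' _ (hM.integrable s).aestronglyMeasurable ?_ hL1 A
    exact Eventually.of_forall fun n => hM.integrable (r n)
  have h3 : ∀ n, ∫ ω in A, M (r n) ω ∂P = ∫ ω in A, M t ω ∂P := fun n =>
    hM.setIntegral_eq (hrt n) (hAn n)
  simp_rw [h3] at h2
  exact tendsto_nhds_unique h2 tendsto_const_nhds

end Pool.Agent.H85.BM
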